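import Pool.Agent.H831.Res
import Mathlib.Topology.Covering.Quotient

/-!
# The real moment-angle complex is aspherical, part 1: the universal covering

`U G` is the quotient of `W × K` by the relation `(w, z) ~ (w', z)` if `w⁻¹ w'` is in the subgroup generated by the
`v` with `z v = 1`. Here `K` is the set of the vectors `z` with coordinates in `[0, 1]`, the support of which is a
clique; the point `z = 0` is the vertex of the Davis complex, and the mirror of `v` is `z v = 1`.
-/

set_option autoImplicit false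

noncomputable section

namespace Pool.Agent.H831.Cov

open Pool.Agent.N496.LT.Lt Pool.Agent.W907.SG Set Topology

variable {V : Type} (G : SimpleGraph V)

/-- the generators -/
abbrev s (v : V) : W G := (cox G).simple v

/-- the subgroup generated by the elements of `Z` -/
def H (Z : Set V) : Subgroup (W G) := Subgroup.closure (s G '' Z)

theorem H_mono {Z Z' : Set V} (h : Z ⊆ Z') : H G Z ≤ H G Z' := Subgroup.closure_mono (image_mono h)

theorem s_mem {Z : Set V} {v : V} (h : v ∈ Z) : s G v ∈ H G Z := Subgroup.subset_closure ⟨v, h, rfl⟩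

theorem s_mul_self (v : V) : s G v * s G v = 1 := (cox G).toCoxeterSystem.simple_mul_simple_self v

theorem s_comm {u v : V} (h : G.Adj u v) : s G u * s G v = s G v * s G u :=
  Pool.Agent.W461.SGN.simple_comm G u v h

open Classical in
theorem th_s (v u : V) : th G (s G v) u = if u = v then -1 else 1 :=
  congrFun (Pool.Agent.W461.SGN.th_simple G v) u

/-- the signs of the elements of `H Z` outside of `Z` are `1` -/
theorem th_H {Z : Set V} {w : W G} (hw : w ∈ H G Z) {v : V} (hv : v ∉ Z) : th G w v = 1 := by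
  unfold H at hw
  induction hw using Subgroup.closure_induction with
  | mem x hx =>
    obtain ⟨u, hu, rfl⟩ := hx
    rw [th_s, if_neg]
    rintro rfl
    exact hv hu
  | one => rw [map_one]; rfl
  | mul x y _ _ hx hy => rw [map_mul, Pi.mul_apply, hx, hy, mul_one]
  | inv x _ hx => rw [map_inv, Pi.inv_apply, hx, inv_one]

/-- the elements of `H Z` for a clique `Z` commute and are involutions -/
theorem H_sq {Z : Set V} (hZ : G.IsClique Z) {w : W G} (hw : w ∈ H G Z) : w * w = 1 ∧ ∀ v ∈ Z, w * s G v = s G v * w := by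
  unfold H at hw
  have key : ∀ w ∈ Subgroup.closure (s G '' Z), ∀ v ∈ Z, w * s G v = s G v * w := by
    intro w hw
    induction hw using Subgroup.closure_induction with
    | mem x hx =>
      obtain ⟨u, hu, rfl⟩ := hx
      intro v hv
      by_cases h : u = v
      · rw [h]
      · exact s_comm G (hZ hu hv h)
    | one => intro v _; rw [one_mul, mul_one]
    | mul x y _ _ hx hy => intro v hv; rw [mul_assoc, hy v hv, ← mul_assoc, hx v hv, mul_assoc]
    | inv x _ hx => intro v hv; rw [inv_mul_eq_iff_eq_mul, ← mul_assoc, hx v hv, mul_inv_cancel_right]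
  refine ⟨?_, key w hw⟩
  have key2 : ∀ w ∈ Subgroup.closure (s G '' Z), ∀ x ∈ Subgroup.closure (s G '' Z), w * x = x * w := by
    intro w hw x hx
    induction hx using Subgroup.closure_induction with
    | mem x hx =>
      obtain ⟨u, hu, rfl⟩ := hx
      exact key w hw u hu
    | one => rw [one_mul, mul_one]
    | mul x y _ _ hx hy => rw [← mul_assoc, hx, mul_assoc, hy, mul_assoc]
    | inv x _ hx => rw [eq_inv_mul_iff_mul_eq, ← mul_assoc, ← hx, mul_inv_cancel_right]
  induction hw using Subgroup.closure_induction with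
  | mem x hx =>
    obtain ⟨u, hu, rfl⟩ := hx
    exact s_mul_self G u
  | one => rw [one_mul]
  | mul x y h1 h2 hx hy => rw [mul_assoc, ← mul_assoc y, ← key2 x h1 y h2, mul_assoc, ← mul_assoc, hx, one_mul, hy]
  | inv x _ hx => rw [← mul_inv_rev, hx, inv_one]

section fin

variable [Finite V]

/-- `Γ` meets the conjugates of the subgroups `H Z` trivially -/
theorem H_ker {Z : Set V} (hZ : G.IsClique Z) {w : W G} (hw : w ∈ H G Z) (h : w ∈ (th G).ker) : w = 1 :=
  Pool.Agent.N496.CV.tf V G w h 2 (by norm_num) (by rw [pow_two]; exact (H_sq G hZ hw).1)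

/-- there are elements of `H Z` with given signs -/
theorem H_surj (f : V → ℤˣ) : ∃ w ∈ H G {v | f v ≠ 1}, th G w = f := by
  classical
  have := Fintype.ofFinite V
  have key : ∀ A : Finset V, ∃ w ∈ H G (A : Set V), th G w = fun v => if v ∈ A then -1 else 1 := by
    intro A
    induction A using Finset.induction_on with
    | empty =>
      refine ⟨1, one_mem _, ?_⟩
      rw [map_one]
      funext v
      simp
    | insert a A ha ih =>
      obtain ⟨w, hw, h⟩ := ih
      refine ⟨s G a * w, mul_mem (s_mem G (by simp)) (H_mono G (by simp) hw), ?_⟩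
      rw [map_mul, h]
      funext v
      rw [Pi.mul_apply, th_s]
      by_cases h1 : v = a
      · simp [h1, ha]
      · simp [h1]
  obtain ⟨w, hw, h⟩ := key (Finset.univ.filter fun v => f v ≠ 1)
  refine ⟨w, by simpa using hw, ?_⟩
  rw [h]
  funext v
  by_cases h1 : f v = 1
  · simp [h1]
  · simp only [Finset.mem_filter, Finset.mem_univ, true_and]
    rw [if_pos h1]
    exact ((Int.units_eq_one_or (f v)).resolve_left h1).symm

end fin

/-- The chamber. -/
def Kz : Set (V → ℝ) := {z | (∀ v, 0 ≤ z v ∧ z v ≤ 1) ∧ G.IsClique {v | z v ≠ 0}}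

/-- The gluing. -/
def st : Setoid (Σ _ : W G, Kz G) where
  r x y := x.2 = y.2 ∧ x.1⁻¹ * y.1 ∈ H G {v | x.2.1 v = 1}
  iseqv := by
    refine ⟨fun x => ⟨rfl, by rw [inv_mul_cancel]; exact one_mem _⟩, fun {x y} h => ⟨h.1.symm, ?_⟩,
      fun {x y z} h h' => ⟨h.1.trans h'.1, ?_⟩⟩
    · rw [← h.1]
      have := inv_mem h.2
      rwa [mul_inv_rev, inv_inv] at this
    · have h1 := h'.2
      rw [← h.1] at h1
      have := mul_mem h.2 h1
      rwa [mul_assoc, mul_inv_cancel_left] at this

/-- The universal covering space: the Davis complex. -/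
def U : Type := Quotient (st G)

instance : TopologicalSpace (U G) := inferInstanceAs (TopologicalSpace (Quotient (st G)))

/-- the point `[w, z]` -/
def q (w : W G) (z : Kz G) : U G := Quotient.mk (st G) ⟨w, z⟩

/-- the quotient map -/
def qq (x : Σ _ : W G, Kz G) : U G := q G x.1 x.2

theorem qq_quot : IsQuotientMap (qq G) := isQuotientMap_quot_mk

theorem q_cont (w : W G) : Continuous (q G w) := (qq_quot G).continuous.comp continuous_sigmaMk

theorem q_eq {w w' : W G} {z z' : Kz G} : q G w z = q G w' z' ↔ z = z' ∧ w⁻¹ * w' ∈ H G {v | z.1 v = 1} :=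
  Quotient.eq (r := st G)

theorem q_ind {G : SimpleGraph V} {p : U G → Prop} (h : ∀ w z, p (q G w z)) (x : U G) : p x :=
  Quotient.ind (fun y => h y.1 y.2) x

theorem U_cont {Y : Type} [TopologicalSpace Y] {f : U G → Y} (h : ∀ w, Continuous fun z => f (q G w z)) :
    Continuous f := by
  rw [(qq_quot G).continuous_iff]
  exact continuous_sigma h

/-- the left multiplication -/
def act (g : W G) : U G → U G := Quotient.map (sa := st G) (sb := st G) (fun y => ⟨g * y.1, y.2⟩)
    (fun a b h => ⟨h.1, by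
      show (g * a.1)⁻¹ * (g * b.1) ∈ _
      rw [mul_inv_rev, mul_assoc, inv_mul_cancel_left]
      exact h.2⟩)

theorem act_q (g w : W G) (z : Kz G) : act G g (q G w z) = q G (g * w) z := rfl

instance : MulAction (Gam G) (U G) where
  smul g x := act G g.1 x
  one_smul x := by
    show act G 1 x = x
    induction x using q_ind with
    | h w z => rw [act_q, one_mul]
  mul_smul g h x := by
    show act G (g.1 * h.1) x = act G g.1 (act G h.1 x)
    induction x using q_ind with
    | h w z => rw [act_q, act_q, act_q, mul_assoc]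

theorem smul_q (g : Gam G) (w : W G) (z : Kz G) : g • q G w z = q G (g.1 * w) z := rfl

instance : ContinuousConstSMul (Gam G) (U G) :=
  ⟨fun g => U_cont G fun w => q_cont G (g.1 * w)⟩

/-- The real moment-angle complex. -/
def RM : Set (V → ℝ) := {x | (∀ i, |x i| ≤ 1) ∧ G.IsClique {i | |x i| < 1}}

theorem abs_u (e : ℤˣ) : |((e : ℤ) : ℝ)| = 1 := by
  rcases Int.units_eq_one_or e with h | h <;> simp [h]

/-- the map of a chamber -/
def pz (w : W G) (z : Kz G) : RM G := ⟨fun v => ((th G w v : ℤˣ) : ℤ) * (1 - z.1 v), by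
  have h : ∀ v, |(((th G w v : ℤˣ) : ℤ) : ℝ) * (1 - z.1 v)| = 1 - z.1 v := fun v => by
    rw [abs_mul, abs_u, one_mul, abs_of_nonneg (by linarith [(z.2.1 v).2])]
  refine ⟨fun v => ?_, fun u hu v hv huv => z.2.2 ?_ ?_ huv⟩
  · rw [h]
    linarith [(z.2.1 v).1]
  · have := hu
    rw [mem_ofPred_eq, h] at this
    show z.1 u ≠ 0
    intro h0
    rw [h0] at this
    linarith
  · have := hv
    rw [mem_ofPred_eq, h] at this
    show z.1 v ≠ 0
    intro h0
    rw [h0] at this
    linarith⟩

/-- The covering map. -/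
def pr : U G → RM G := Quotient.lift (s := st G) (fun x => pz G x.1 x.2) (by
  rintro ⟨w, z⟩ ⟨w', z'⟩ ⟨h1, h2⟩
  dsimp only at h1 h2
  subst h1
  refine Subtype.ext (funext fun v => ?_)
  show (((th G w v : ℤˣ) : ℤ) : ℝ) * (1 - z.1 v) = ((th G w' v : ℤˣ) : ℤ) * (1 - z.1 v)
  by_cases h : z.1 v = 1
  · rw [h, sub_self, mul_zero, mul_zero]
  · have h3 := th_H G h2 (v := v) h
    rw [map_mul, map_inv, Pi.mul_apply, Pi.inv_apply, inv_mul_eq_one] at h3
    rw [h3])

theorem pr_q (w : W G) (z : Kz G) : pr G (q G w z) = pz G w z := rfl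

theorem pz_cont (w : W G) : Continuous (pz G w) := by
  refine Continuous.subtype_mk (continuous_pi fun v => ?_) _
  have hc : Continuous fun z : Kz G => z.1 v := (continuous_apply v).comp continuous_subtype_val
  exact continuous_const.mul (continuous_const.sub hc)

theorem pr_cont : Continuous (pr G) := U_cont G fun w => pz_cont G w

theorem pz_abs (w : W G) (z : Kz G) (v : V) : |(pz G w z).1 v| = 1 - z.1 v := by
  show |(((th G w v : ℤˣ) : ℤ) : ℝ) * (1 - z.1 v)| = _
  rw [abs_mul, abs_u, one_mul, abs_of_nonneg (by linarith [(z.2.1 v).2])]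

theorem Kz_closed : IsClosed (Kz G) := by
  have e : Kz G = (⋂ v, {z : V → ℝ | 0 ≤ z v} ∩ {z : V → ℝ | z v ≤ 1}) ∩
      ⋂ u, ⋂ v, {z : V → ℝ | u ≠ v → ¬ G.Adj u v → z u = 0 ∨ z v = 0} := by
    ext z
    simp only [Kz, mem_ofPred_eq, mem_inter_iff, mem_iInter]
    refine and_congr_right fun _ => ?_
    constructor
    · intro h u v huv hn
      by_contra h'
      push Not at h'
      exact hn (h h'.1 h'.2 huv)
    · intro h u hu v hv huv
      by_contra hn
      rcases h u v huv hn with h' | h'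
      · exact hu h'
      · exact hv h'
  rw [e]
  refine (isClosed_iInter fun v => (isClosed_le continuous_const (continuous_apply v)).inter
    (isClosed_le (continuous_apply v) continuous_const)).inter
    (isClosed_iInter fun u => isClosed_iInter fun v => ?_)
  by_cases h : u ≠ v ∧ ¬ G.Adj u v
  · have : {z : V → ℝ | u ≠ v → ¬ G.Adj u v → z u = 0 ∨ z v = 0} = {z | z u = 0} ∪ {z | z v = 0} := by
      ext z; simp [h.1, h.2]
    rw [this]
    exact (isClosed_eq (continuous_apply u) continuous_const).union (isClosed_eq (continuous_apply v) continuous_const)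
  · have : {z : V → ℝ | u ≠ v → ¬ G.Adj u v → z u = 0 ∨ z v = 0} = univ := by
      ext z
      simp only [mem_ofPred_eq, mem_univ, iff_true]
      intro h1 h2
      exact absurd ⟨h1, h2⟩ h
    rw [this]
    exact isClosed_univ

theorem Kz_compact : CompactSpace (Kz G) := by
  refine isCompact_iff_compactSpace.1 ((isCompact_univ_pi fun _ : V => isCompact_Icc (a := (0 : ℝ)) (b := 1)).of_isClosed_subset
    (Kz_closed G) fun z hz => ?_)
  intro v _
  exact hz.1 v

/-- the point of the chamber with given coordinates -/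
def zp (y : RM G) : Kz G := ⟨fun v => 1 - |y.1 v|, fun v => ⟨by linarith [y.2.1 v], by linarith [abs_nonneg (y.1 v)]⟩,
  fun u hu v hv huv => y.2.2 (lt_of_le_of_ne (y.2.1 u) fun h => hu (by
    show 1 - |y.1 u| = 0
    rw [h, sub_self])) (lt_of_le_of_ne (y.2.1 v) fun h => hv (by
    show 1 - |y.1 v| = 0
    rw [h, sub_self])) huv⟩

theorem pz_surj (y : RM G) : ∃ f : V → ℤˣ, ∀ w, th G w = f → pz G w (zp G y) = y := by
  classical
  refine ⟨fun v => if y.1 v < 0 then -1 else 1, fun w hw => Subtype.ext (funext fun v => ?_)⟩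
  show (((th G w v : ℤˣ) : ℤ) : ℝ) * (1 - (1 - |y.1 v|)) = y.1 v
  rw [hw, sub_sub_cancel]
  dsimp only
  by_cases h : y.1 v < 0
  · rw [if_pos h, abs_of_neg h]
    simp
  · rw [if_neg h, abs_of_nonneg (not_lt.1 h)]
    simp

variable [Finite V]

theorem pr_quot : IsQuotientMap (pr G) := by
  classical
  have := Fintype.ofFinite V
  choose w hw using fun f : V → ℤˣ => H_surj G f
  have hK := Kz_compact G
  let a : (Σ _ : V → ℤˣ, Kz G) → U G := fun x => q G (w x.1) x.2
  have ha : Continuous a := continuous_sigma fun f => q_cont G (w f)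
  have h1 : Function.Surjective (pr G ∘ a) := by
    intro y
    obtain ⟨f, hf⟩ := pz_surj G y
    exact ⟨⟨f, zp G y⟩, hf _ (hw f).2⟩
  have h2 : Continuous (pr G ∘ a) := (pr_cont G).comp ha
  exact IsQuotientMap.of_comp ha (pr_cont G) (h2.isClosedMap.isQuotientMap h2 h1)

theorem pr_orbit {x y : U G} : pr G x = pr G y ↔ x ∈ MulAction.orbit (Gam G) y := by
  induction x using q_ind with
  | h w z =>
  induction y using q_ind with
  | h w' z' =>
  rw [pr_q, pr_q]
  constructor
  · intro h
    have hz : z = z' := by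
      refine Subtype.ext (funext fun v => ?_)
      have h1 := pz_abs G w z v
      rw [h, pz_abs] at h1
      linarith
    subst hz
    obtain ⟨p, hp, hp'⟩ := H_surj G (th G w'⁻¹ * th G w)
    have h2 : ∀ v, z.1 v ≠ 1 → (th G w'⁻¹ * th G w) v = 1 := by
      intro v hv
      have h3 : (((th G w v : ℤˣ) : ℤ) : ℝ) * (1 - z.1 v) = (((th G w' v : ℤˣ) : ℤ) : ℝ) * (1 - z.1 v) :=
        congrFun (congrArg Subtype.val h) v
      have h4 : (1 - z.1 v) ≠ 0 := fun h => hv (by linarith)
      have h5 : th G w v = th G w' v := Units.ext (by exact_mod_cast mul_right_cancel₀ h4 h3)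
      rw [Pi.mul_apply, map_inv, Pi.inv_apply, h5, inv_mul_cancel]
    have hp2 : p ∈ H G {v | z.1 v = 1} := H_mono G (fun v hv => by
      by_contra h6
      exact hv (h2 v h6)) hp
    refine ⟨⟨w * p⁻¹ * w'⁻¹, ?_⟩, ?_⟩
    · show _ ∈ (th G).ker
      rw [MonoidHom.mem_ker, map_mul, map_mul, map_inv, hp', mul_inv_rev, mul_inv_cancel_left, map_inv, inv_inv,
        mul_inv_cancel]
    · show q G (w * p⁻¹ * w'⁻¹ * w') z = q G w z
      rw [inv_mul_cancel_right, q_eq]
      refine ⟨rfl, ?_⟩
      rw [mul_inv_rev, inv_inv, inv_mul_cancel_right]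
      exact hp2
  · rintro ⟨g, hg⟩
    rw [← pr_q, ← pr_q, ← hg]
    show pz G (g.1 * w') z' = pz G w' z'
    refine Subtype.ext (funext fun v => ?_)
    show (((th G (g.1 * w') v : ℤˣ) : ℤ) : ℝ) * (1 - z'.1 v) = ((th G w' v : ℤˣ) : ℤ) * (1 - z'.1 v)
    rw [map_mul, MonoidHom.mem_ker.1 g.2, one_mul]

omit [Finite V] in
/-- the open star of a vertex -/
def Sr (w₀ : W G) : Set (U G) := {x | Quotient.lift (s := st G)
  (fun y => y.1⁻¹ * w₀ ∈ H G {v | y.2.1 v ≠ 0}) (by
    rintro ⟨w, z⟩ ⟨w', z'⟩ ⟨h1, h2⟩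
    dsimp only at h1 h2 ⊢
    subst h1
    have h3 : w⁻¹ * w' ∈ H G {v | z.1 v ≠ 0} := H_mono G (fun v hv => by
      show z.1 v ≠ 0
      rw [show z.1 v = 1 from hv]
      exact one_ne_zero) h2
    have h4 : w⁻¹ * w₀ = w⁻¹ * w' * (w'⁻¹ * w₀) := by rw [mul_assoc, mul_inv_cancel_left]
    rw [h4, Subgroup.mul_mem_cancel_left _ h3]) x}

omit [Finite V] in
theorem Sr_q (w₀ w : W G) (z : Kz G) : q G w z ∈ Sr G w₀ ↔ w⁻¹ * w₀ ∈ H G {v | z.1 v ≠ 0} := Iff.rfl

theorem Sr_open (w₀ : W G) : IsOpen (Sr G w₀) := by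
  rw [← (qq_quot G).isOpen_preimage, isOpen_sigma_iff]
  intro w
  rw [isOpen_iff_mem_nhds]
  intro z hz
  have h1 : {z' : Kz G | ∀ v, z.1 v ≠ 0 → z'.1 v ≠ 0} ∈ 𝓝 z := by
    have h2 : {z' : Kz G | ∀ v, z.1 v ≠ 0 → z'.1 v ≠ 0} = ⋂ v, {z' : Kz G | z.1 v ≠ 0 → z'.1 v ≠ 0} := by
      ext z'; simp
    rw [h2, Filter.iInter_mem]
    intro v
    by_cases h3 : z.1 v = 0
    · simp [h3]
    · have h4 : IsOpen {z' : Kz G | z'.1 v ≠ 0} :=
        isOpen_ne_fun ((continuous_apply v).comp continuous_subtype_val) continuous_const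
      refine Filter.mem_of_superset (h4.mem_nhds h3) fun z' hz' _ => hz'
  refine Filter.mem_of_superset h1 fun z' hz' => ?_
  exact H_mono G (fun v hv => hz' v hv) hz

theorem pr_cov : IsQuotientCoveringMap (pr G) (Gam G) where
  toIsQuotientMap := pr_quot G
  toContinuousConstSMul := inferInstance
  apply_eq_iff_mem_orbit := pr_orbit G
  disjoint e := by
    induction e using q_ind with
    | h w z =>
    refine ⟨Sr G w, (Sr_open G w).mem_nhds ((Sr_q G w w z).2 (by rw [inv_mul_cancel]; exact one_mem _)), ?_⟩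
    rintro g ⟨x, ⟨y, hy, rfl⟩, hx⟩
    induction y using q_ind with
    | h w' z' =>
    have h1 : w'⁻¹ * w ∈ H G {v | z'.1 v ≠ 0} := hy
    have h2 : (g.1 * w')⁻¹ * w ∈ H G {v | z'.1 v ≠ 0} := hx
    have h3 := mul_mem h2 (inv_mem h1)
    rw [mul_inv_rev, mul_inv_rev, inv_inv, mul_assoc, mul_assoc, mul_inv_cancel_left] at h3
    have h4 := H_ker G z'.2.2 h3 (by
      have := (MonoidHom.normal_ker (th G)).conj_mem g.1⁻¹ (inv_mem g.2) w'⁻¹
      rwa [inv_inv, mul_assoc] at this)
    rw [inv_mul_eq_one, eq_comm, inv_mul_eq_iff_eq_mul] at h4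
    exact Subtype.ext (right_eq_mul.1 h4)

end Pool.Agent.H831.Cov
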