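import Pool.Agent.H831.Cov1

/-!
# The real moment-angle complex is aspherical, part 2: the universal covering space is contractible
-/

set_option autoImplicit false

noncomputable section

namespace Pool.Agent.H831.Cov

open Pool.Agent.N496.LT.Lt Pool.Agent.W907.SG Set Topology

variable {V : Type} (G : SimpleGraph V)

/-! ### The length -/

/-- the length -/
def l : W G → ℕ := (Pool.Agent.N496.CV.len V G).choose

theorem l_one : l G 1 = 0 := (Pool.Agent.N496.CV.len V G).choose_spec.1

theorem l_zero {w : W G} (h : l G w = 0) : w = 1 := (Pool.Agent.N496.CV.len V G).choose_spec.2.1 w h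

theorem l_mul (w : W G) (t : V) : l G (w * s G t) = l G w + 1 ∨ l G (w * s G t) + 1 = l G w :=
  (Pool.Agent.N496.CV.len V G).choose_spec.2.2.1 w t

theorem l_desc {w : W G} (h : w ≠ 1) : ∃ t, l G (w * s G t) + 1 = l G w :=
  (Pool.Agent.N496.CV.len V G).choose_spec.2.2.2.1 w h

theorem l_two {w : W G} {a b : V} (hab : a ≠ b) (ha : l G (w * s G a) + 1 = l G w) (hb : l G (w * s G b) + 1 = l G w) :
    G.Adj a b ∧ l G (w * s G a * s G b) + 1 = l G (w * s G a) :=
  (Pool.Agent.N496.CV.len V G).choose_spec.2.2.2.2 w a b hab ha hb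

/-! ### The homotopy of a chamber -/

variable [Fintype V]

open Classical in
/-- the descents -/
def T (w : W G) : Finset V := Finset.univ.filter fun v => l G (w * s G v) + 1 = l G w

theorem mem_T {w : W G} {v : V} : v ∈ T G w ↔ l G (w * s G v) + 1 = l G w := by
  unfold T
  simp

theorem T_clique (w : W G) : G.IsClique (T G w : Set V) := fun _ ha _ hb hab =>
  (l_two G hab ((mem_T G).1 ha) ((mem_T G).1 hb)).1

/-- the maximum of the coordinates in `T` -/
def mx (T : Finset V) (z : V → ℝ) : ℝ := if h : T.Nonempty then T.sup' h z else 0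

omit [Fintype V] in
theorem mx_cont (T : Finset V) : Continuous (mx T) := by
  unfold mx
  by_cases h : T.Nonempty
  · simp only [dif_pos h]
    exact Continuous.finset_sup'_apply h fun v _ => continuous_apply v
  · simp only [dif_neg h]
    exact continuous_const

omit [Fintype V] in
theorem le_mx {T : Finset V} {z : V → ℝ} {v : V} (hv : v ∈ T) : z v ≤ mx T z := by
  unfold mx
  rw [dif_pos ⟨v, hv⟩]
  exact Finset.le_sup' z hv

omit [Fintype V] in
theorem mx_ex {T : Finset V} (hT : T.Nonempty) (z : V → ℝ) : ∃ v ∈ T, mx T z = z v := by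
  unfold mx
  rw [dif_pos hT]
  exact Finset.exists_mem_eq_sup' hT z

omit [Fintype V] in
theorem mx_le {T : Finset V} {z : V → ℝ} (hz : ∀ v, 0 ≤ z v ∧ z v ≤ 1) : 0 ≤ mx T z ∧ mx T z ≤ 1 := by
  by_cases hT : T.Nonempty
  · obtain ⟨v, _, h⟩ := mx_ex hT z
    rw [h]
    exact hz v
  · unfold mx
    rw [dif_neg hT]
    exact ⟨le_rfl, zero_le_one⟩

/-- clamping to `[0, 1]` -/
def cp (x : ℝ) : ℝ := max 0 (min 1 x)

theorem cp_nonneg (x : ℝ) : 0 ≤ cp x := le_max_left _ _

theorem cp_le (x : ℝ) : cp x ≤ 1 := max_le zero_le_one (min_le_left _ _)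

theorem cp_one {x : ℝ} (h : 1 ≤ x) : cp x = 1 := by
  unfold cp
  rw [min_eq_left h, max_eq_right zero_le_one]

theorem cp_zero {x : ℝ} (h : x ≤ 0) : cp x = 0 := by
  unfold cp
  rw [min_eq_right (h.trans zero_le_one), max_eq_left h]

theorem cp_cont : Continuous cp := by
  unfold cp
  fun_prop

open Classical in
/-- the first homotopy: the other coordinates are scaled -/
def gz (T : Finset V) (z : V → ℝ) (v : V) : ℝ := if v ∈ T then z v else cp (4 * mx T z - 1) * z v

open Classical in
/-- the retraction -/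
def rz (T : Finset V) (z : V → ℝ) (v : V) : ℝ :=
  if v ∈ T then (z v + max 0 (1 / 4 - mx T z)) / max (1 / 4) (mx T z) else cp (4 * mx T z - 1) * z v

/-- the homotopy -/
def hz (T : Finset V) (t : ℝ) (z : V → ℝ) (v : V) : ℝ :=
  (1 - cp (2 * t)) * rz T z v + cp (2 * t) * ((1 - cp (2 * t - 1)) * gz T z v + cp (2 * t - 1) * z v)

omit [Fintype V] in
theorem gz_cont (T : Finset V) (v : V) : Continuous fun z => gz T z v := by
  unfold gz
  have h1 := mx_cont T
  have h2 := cp_cont
  by_cases h : v ∈ T
  · simp only [if_pos h]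
    exact continuous_apply v
  · simp only [if_neg h]
    exact (h2.comp ((continuous_const.mul h1).sub continuous_const)).mul (continuous_apply v)

omit [Fintype V] in
theorem rz_cont (T : Finset V) (v : V) : Continuous fun z => rz T z v := by
  unfold rz
  have h1 := mx_cont T
  have h2 := cp_cont
  by_cases h : v ∈ T
  · simp only [if_pos h]
    refine ((continuous_apply v).add (continuous_const.max (continuous_const.sub h1))).div
      (continuous_const.max h1) fun z => ?_
    have : (0 : ℝ) < max (1 / 4) (mx T z) := lt_of_lt_of_le (by norm_num) (le_max_left _ _)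
    exact this.ne'
  · simp only [if_neg h]
    exact (h2.comp ((continuous_const.mul h1).sub continuous_const)).mul (continuous_apply v)

omit [Fintype V] in
theorem hz_cont (T : Finset V) (v : V) : Continuous fun p : ℝ × (V → ℝ) => hz T p.1 p.2 v := by
  unfold hz
  have h1 : Continuous fun p : ℝ × (V → ℝ) => cp (2 * p.1) := cp_cont.comp (continuous_const.mul continuous_fst)
  have h2 : Continuous fun p : ℝ × (V → ℝ) => cp (2 * p.1 - 1) :=
    cp_cont.comp ((continuous_const.mul continuous_fst).sub continuous_const)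
  have h3 : Continuous fun p : ℝ × (V → ℝ) => rz T p.2 v := (rz_cont T v).comp continuous_snd
  have h4 : Continuous fun p : ℝ × (V → ℝ) => gz T p.2 v := (gz_cont T v).comp continuous_snd
  have h5 : Continuous fun p : ℝ × (V → ℝ) => p.2 v := (continuous_apply v).comp continuous_snd
  exact ((continuous_const.sub h1).mul h3).add (h1.mul (((continuous_const.sub h2).mul h4).add (h2.mul h5)))

omit [Fintype V] in
theorem gz_mem (T : Finset V) {z : V → ℝ} (hz : ∀ v, 0 ≤ z v ∧ z v ≤ 1) (v : V) : 0 ≤ gz T z v ∧ gz T z v ≤ 1 := by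
  unfold gz
  split_ifs
  · exact hz v
  · exact ⟨mul_nonneg (cp_nonneg _) (hz v).1, mul_le_one₀ (cp_le _) (hz v).1 (hz v).2⟩

omit [Fintype V] in
theorem rz_mem (T : Finset V) {z : V → ℝ} (hz : ∀ v, 0 ≤ z v ∧ z v ≤ 1) (v : V) : 0 ≤ rz T z v ∧ rz T z v ≤ 1 := by
  unfold rz
  split_ifs with h
  · have h1 : (0 : ℝ) < max (1 / 4) (mx T z) := lt_of_lt_of_le (by norm_num) (le_max_left _ _)
    refine ⟨div_nonneg (add_nonneg (hz v).1 (le_max_left _ _)) h1.le, (div_le_one h1).2 ?_⟩
    have h2 := le_mx (z := z) h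
    rcases le_total (mx T z) (1 / 4) with h3 | h3
    · rw [max_eq_left h3, max_eq_right (by linarith)]
      linarith
    · rw [max_eq_right h3, max_eq_left (by linarith)]
      linarith
  · exact ⟨mul_nonneg (cp_nonneg _) (hz v).1, mul_le_one₀ (cp_le _) (hz v).1 (hz v).2⟩

theorem conv_mem {a x y : ℝ} (ha : 0 ≤ a ∧ a ≤ 1) (hx : 0 ≤ x ∧ x ≤ 1) (hy : 0 ≤ y ∧ y ≤ 1) :
    0 ≤ (1 - a) * x + a * y ∧ (1 - a) * x + a * y ≤ 1 := by
  constructor
  · exact add_nonneg (mul_nonneg (by linarith [ha.2]) hx.1) (mul_nonneg ha.1 hy.1)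
  · nlinarith [mul_nonneg (sub_nonneg.2 ha.2) (sub_nonneg.2 hx.2), mul_nonneg ha.1 (sub_nonneg.2 hy.2)]

variable {G}

omit [Fintype V] in
theorem hz_mem {T : Finset V} (hT : G.IsClique (T : Set V)) (t : ℝ) {z : V → ℝ} (hk : z ∈ Kz G) : hz T t z ∈ Kz G := by
  constructor
  · intro v
    exact conv_mem ⟨cp_nonneg _, cp_le _⟩ (rz_mem T hk.1 v)
      (conv_mem ⟨cp_nonneg _, cp_le _⟩ (gz_mem T hk.1 v) (hk.1 v))
  · by_cases hM : 1 / 4 ≤ mx T z
    · -- the support does not grow
      have key : ∀ v, z v = 0 → hz T t z v = 0 := by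
        intro v hv
        have h1 : gz T z v = 0 := by
          unfold gz
          rw [hv, mul_zero, ite_self]
        have h2 : rz T z v = 0 := by
          unfold rz
          rw [hv, mul_zero, zero_add, max_eq_left (by linarith), zero_div, ite_self]
        unfold hz
        rw [h1, h2, hv]
        ring
      exact hk.2.subset fun v hv hv' => hv (key v hv')
    · have h0 : cp (4 * mx T z - 1) = 0 := cp_zero (by linarith)
      rcases le_total t (1 / 2) with ht | ht
      · have key : ∀ v, v ∉ T → hz T t z v = 0 := by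
          intro v hv
          have h1 : gz T z v = 0 := by
            unfold gz
            rw [if_neg hv, h0, zero_mul]
          have h2 : rz T z v = 0 := by
            unfold rz
            rw [if_neg hv, h0, zero_mul]
          have h3 : cp (2 * t - 1) = 0 := cp_zero (by linarith)
          unfold hz
          rw [h1, h2, h3]
          ring
        exact hT.subset fun v hv => by
          by_contra h
          exact hv (key v h)
      · have key : ∀ v, z v = 0 → hz T t z v = 0 := by
          intro v hv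
          have h1 : gz T z v = 0 := by
            unfold gz
            rw [hv, mul_zero, ite_self]
          have h3 : cp (2 * t) = 1 := cp_one (by linarith)
          unfold hz
          rw [h1, h3, hv]
          ring
        exact hk.2.subset fun v hv hv' => hv (key v hv')

omit [Fintype V] in
/-- at the end the homotopy is the identity -/
theorem hz_one (T : Finset V) {t : ℝ} (ht : 1 ≤ t) (z : V → ℝ) : hz T t z = z := by
  funext v
  unfold hz
  rw [cp_one (by linarith), cp_one (by linarith)]
  ring

omit [Fintype V] in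
/-- the homotopy fixes the points of the mirrors -/
theorem hz_fix (T : Finset V) (t : ℝ) {z : V → ℝ} (hz' : ∀ v, 0 ≤ z v ∧ z v ≤ 1) {v : V} (hv : v ∈ T) (h : z v = 1) :
    hz T t z = z := by
  have hM : mx T z = 1 := le_antisymm (mx_le hz').2 (h ▸ le_mx hv)
  funext u
  have h0 : cp (4 * (1 : ℝ) - 1) = 1 := cp_one (by norm_num)
  have h1 : gz T z u = z u := by
    unfold gz
    rw [hM, h0, one_mul, ite_self]
  have h2 : rz T z u = z u := by
    unfold rz
    rw [hM, h0, one_mul, max_eq_left (by norm_num), max_eq_right (by norm_num), add_zero, div_one, ite_self]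
  unfold hz
  rw [h1, h2]
  ring

omit [Fintype V] in
/-- the retraction maps to the mirrors -/
theorem hz_zero {T : Finset V} (hT : T.Nonempty) (z : V → ℝ) : ∃ v ∈ T, hz T 0 z v = 1 := by
  obtain ⟨v, hv, h⟩ := mx_ex hT z
  refine ⟨v, hv, ?_⟩
  have h1 : cp (2 * 0) = 0 := cp_zero (by norm_num)
  unfold hz
  rw [h1, zero_mul, add_zero, sub_zero, one_mul]
  unfold rz
  rw [if_pos hv, ← h]
  rcases le_total (mx T z) (1 / 4) with h3 | h3
  · rw [max_eq_left h3, max_eq_right (by linarith)]
    field_simp
    ring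
  · rw [max_eq_right h3, max_eq_left (by linarith), add_zero, div_self]
    linarith

variable (G)

/-- the homotopy of a chamber -/
def hK (w : W G) (t : ℝ) (z : Kz G) : Kz G := ⟨hz (T G w) t z.1, hz_mem (T_clique G w) t z.2⟩

theorem hK_cont (w : W G) : Continuous fun p : ℝ × Kz G => hK G w p.1 p.2 :=
  Continuous.subtype_mk (continuous_pi fun v =>
    (hz_cont (T G w) v).comp (continuous_fst.prodMk (continuous_subtype_val.comp continuous_snd))) _

omit [Fintype V] in
theorem sc_mem (t : ℝ) {z : V → ℝ} (hk : z ∈ Kz G) : (fun v => cp t * z v) ∈ Kz G := by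
  refine ⟨fun v => ⟨mul_nonneg (cp_nonneg _) (hk.1 v).1, mul_le_one₀ (cp_le _) (hk.1 v).1 (hk.1 v).2⟩,
    fun u hu v hv huv => hk.2 ?_ ?_ huv⟩
  · exact right_ne_zero_of_mul hu
  · exact right_ne_zero_of_mul hv

/-- scaling a point of the chamber -/
def sc (t : ℝ) (z : Kz G) : Kz G := ⟨fun v => cp t * z.1 v, sc_mem G t z.2⟩

omit [Fintype V] in
theorem sc_cont : Continuous fun p : ℝ × Kz G => sc G p.1 p.2 := by
  refine Continuous.subtype_mk (continuous_pi fun v => ?_) _
  have h1 : Continuous fun p : ℝ × Kz G => cp p.1 := cp_cont.comp continuous_fst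
  have h2 : Continuous fun p : ℝ × Kz G => p.2.1 v :=
    (continuous_apply v).comp (continuous_subtype_val.comp continuous_snd)
  exact h1.mul h2

/-! ### The contraction -/

/-- the times of the steps -/
def tm (m : ℕ) : ℝ := 1 - 1 / (m + 2)

theorem tm_lt (m : ℕ) : tm m < tm (m + 1) := by
  unfold tm
  push_cast
  have h : (0 : ℝ) < m + 2 := by positivity
  have := one_div_lt_one_div_of_lt h (show (m : ℝ) + 2 < m + 1 + 2 by linarith)
  linarith

theorem tm_ge (m : ℕ) : 1 / 2 ≤ tm m := by
  unfold tm
  have h : (0 : ℝ) < 2 := by norm_num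
  have := one_div_le_one_div_of_le h (show (2 : ℝ) ≤ m + 2 by
    have : (0 : ℝ) ≤ m := Nat.cast_nonneg m
    linarith)
  linarith

theorem tm_le (m : ℕ) : tm m ≤ 1 := by
  unfold tm
  have : (0 : ℝ) ≤ 1 / (m + 2) := by positivity
  linarith

open Classical in
/-- the next chamber -/
def nx (w : W G) (z : Kz G) : W G :=
  if h : ∃ v ∈ T G w, (hK G w 0 z).1 v = 1 then w * s G h.choose else w

/-- The path of the point `[w, z]`, for `w` of length `m`. -/
def P : ℕ → W G → Kz G → ℝ → U G
  | 0, w, z, t => q G w (sc G (2 * t) z)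
  | m + 1, w, z, t => if tm m ≤ t then q G w (hK G w ((t - tm m) / (tm (m + 1) - tm m)) z)
      else P m (nx G w z) (hK G w 0 z) t

theorem P_succ (m : ℕ) (w : W G) (z : Kz G) (t : ℝ) : P G (m + 1) w z t = if tm m ≤ t then
    q G w (hK G w ((t - tm m) / (tm (m + 1) - tm m)) z) else P G m (nx G w z) (hK G w 0 z) t := rfl

theorem T_ne {w : W G} {m : ℕ} (h : l G w = m + 1) : (T G w).Nonempty := by
  obtain ⟨t, ht⟩ := l_desc G (w := w) (by
    rintro rfl
    rw [l_one] at h
    exact absurd h (Nat.succ_ne_zero m).symm)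
  exact ⟨t, (mem_T G).2 ht⟩

theorem nx_spec {w : W G} {m : ℕ} (h : l G w = m + 1) (z : Kz G) : ∃ v ∈ T G w, (hK G w 0 z).1 v = 1 ∧
    nx G w z = w * s G v ∧ l G (nx G w z) = m := by
  have h1 : ∃ v ∈ T G w, (hK G w 0 z).1 v = 1 := hz_zero (T_ne G h) z.1
  refine ⟨h1.choose, h1.choose_spec.1, h1.choose_spec.2, dif_pos h1, ?_⟩
  rw [nx, dif_pos h1]
  have := (mem_T G).1 h1.choose_spec.1
  omega

omit [Fintype V] in
/-- `[w, z] = [w s, z]` if `z` is in the mirror -/
theorem q_mir (w : W G) (z : Kz G) {v : V} (h : z.1 v = 1) : q G (w * s G v) z = q G w z := by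
  rw [eq_comm, q_eq]
  refine ⟨rfl, ?_⟩
  rw [inv_mul_cancel_left]
  exact s_mem G h

theorem P_late {m : ℕ} {w : W G} (z : Kz G) {t : ℝ} (ht : tm m ≤ t) : P G m w z t = q G w z := by
  cases m with
  | zero =>
    show q G w (sc G (2 * t) z) = q G w z
    congr 1
    refine Subtype.ext (funext fun v => ?_)
    show cp (2 * t) * z.1 v = z.1 v
    rw [cp_one, one_mul]
    have := tm_ge 0
    linarith
  | succ m =>
    have h1 := tm_lt m
    rw [P_succ, if_pos (by linarith)]
    congr 1
    refine Subtype.ext ?_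
    show hz _ _ _ = _
    refine hz_one _ ?_ _
    rw [le_div_iff₀ (by linarith)]
    linarith

/-- the path of a point of a mirror, seen from the two sides -/
theorem P_mir (m : ℕ) : ∀ (w : W G) (z : Kz G) (v : V) (t : ℝ), l G w = m + 1 → l G (w * s G v) + 1 = l G w →
    z.1 v = 1 → P G (m + 1) w z t = P G m (w * s G v) z t := by
  induction m with
  | zero =>
    intro w z v t hw hv hz1
    have hwv : w * s G v = 1 := l_zero G (by omega)
    have hfix : ∀ t, hK G w t z = z := fun t => Subtype.ext (hz_fix _ t z.2.1 ((mem_T G).2 hv) hz1)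
    rw [P_succ]
    split_ifs with ht
    · rw [hfix, P_late G z ht, q_mir G w z hz1]
    · obtain ⟨u, _, _, h3, h4⟩ := nx_spec G hw z
      rw [hfix, l_zero G h4, hwv]
  | succ m ih =>
    intro w z v t hw hv hz1
    have hfix : ∀ t, hK G w t z = z := fun t => Subtype.ext (hz_fix _ t z.2.1 ((mem_T G).2 hv) hz1)
    rw [P_succ]
    split_ifs with ht
    · rw [hfix, P_late G z ht, q_mir G w z hz1]
    · obtain ⟨u, h1, h2, h3, h4⟩ := nx_spec G hw z
      rw [hfix] at h2
      rw [hfix, h3]
      by_cases huv : u = v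
      · rw [huv]
      · have h5 := (mem_T G).1 h1
        obtain ⟨h6, h7⟩ := l_two G huv h5 hv
        obtain ⟨-, h8⟩ := l_two G (Ne.symm huv) hv h5
        rw [ih (w * s G u) z v t (by omega) h7 hz1, ih (w * s G v) z u t (by omega) h8 h2, mul_assoc, mul_assoc,
          s_comm G h6]

/-- the path -/
def PP (w : W G) (z : Kz G) (t : ℝ) : U G := P G (l G w) w z t

theorem PP_mir (w : W G) (z : Kz G) (v : V) (t : ℝ) (h : z.1 v = 1) : PP G (w * s G v) z t = PP G w z t := by
  have key : ∀ w : W G, l G (w * s G v) + 1 = l G w → PP G (w * s G v) z t = PP G w z t := by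
    intro w hw
    unfold PP
    rw [← hw, P_mir G _ w z v t hw.symm hw h]
  rcases l_mul G w v with h1 | h1
  · have h2 := key (w * s G v) (by rw [mul_assoc, s_mul_self, mul_one, h1])
    rw [mul_assoc, s_mul_self, mul_one] at h2
    exact h2.symm
  · exact key w h1

theorem PP_H (z : Kz G) (t : ℝ) {p : W G} (hp : p ∈ H G {v | z.1 v = 1}) : ∀ w, PP G (w * p) z t = PP G w z t := by
  unfold H at hp
  induction hp using Subgroup.closure_induction with
  | mem x hx =>
    obtain ⟨v, hv, rfl⟩ := hx
    exact fun w => PP_mir G w z v t hv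
  | one => intro w; rw [mul_one]
  | mul x y _ _ hx hy => intro w; rw [← mul_assoc, hy, hx]
  | inv x _ hx => intro w; rw [← hx (w * x⁻¹), inv_mul_cancel_right]

theorem PP_q {w w' : W G} {z z' : Kz G} (h : q G w z = q G w' z') (t : ℝ) : PP G w z t = PP G w' z' t := by
  obtain ⟨rfl, h2⟩ := (q_eq G).1 h
  have := PP_H G z t h2 w
  rw [mul_inv_cancel_left] at this
  exact this.symm

/-- The contraction. -/
def F (x : U G) (t : ℝ) : U G := Quotient.lift (s := st G) (fun y => PP G y.1 y.2 t)
  (fun a b h => PP_q G (w := a.1) (w' := b.1) (z := a.2) (z' := b.2) (Quotient.sound (s := st G) h) t) x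

theorem F_q (w : W G) (z : Kz G) (t : ℝ) : F G (q G w z) t = PP G w z t := rfl

theorem P_cont (m : ℕ) : ∀ w : W G, l G w = m → Continuous fun p : Kz G × ℝ => P G m w p.1 p.2 := by
  induction m with
  | zero =>
    intro w _
    show Continuous fun p : Kz G × ℝ => q G w (sc G (2 * p.2) p.1)
    exact (q_cont G w).comp ((sc_cont G).comp ((continuous_const.mul continuous_snd).prodMk continuous_fst))
  | succ m ih =>
    intro w hw
    have hd : tm (m + 1) - tm m ≠ 0 := by
      have := tm_lt m
      intro h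
      linarith
    -- the late part
    have h1 : Continuous fun p : Kz G × ℝ => q G w (hK G w ((p.2 - tm m) / (tm (m + 1) - tm m)) p.1) :=
      (q_cont G w).comp ((hK_cont G w).comp (((continuous_snd.sub continuous_const).div_const _).prodMk continuous_fst))
    have h0 : Continuous fun p : Kz G × ℝ => hK G w 0 p.1 := (hK_cont G w).comp (continuous_const.prodMk continuous_fst)
    -- the early part
    have h2 : Continuous fun p : Kz G × ℝ => P G m (nx G w p.1) (hK G w 0 p.1) p.2 := by
      have h3 : ∀ v ∈ T G w, Continuous fun p : Kz G × ℝ => P G m (w * s G v) (hK G w 0 p.1) p.2 := fun v hv =>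
        (ih (w * s G v) (by have := (mem_T G).1 hv; omega)).comp (h0.prodMk continuous_snd)
      let f : T G w → Set (Kz G × ℝ) := fun v => {p | (hK G w 0 p.1).1 v.1 = 1}
      refine (locallyFinite_of_finite f).continuous ?_ (fun v => ?_) (fun v => ?_)
      · refine eq_univ_of_forall fun p => ?_
        obtain ⟨v, h4, h5, -⟩ := nx_spec G hw p.1
        exact mem_iUnion.2 ⟨⟨v, h4⟩, h5⟩
      · exact isClosed_eq ((continuous_apply v.1).comp (continuous_subtype_val.comp h0)) continuous_const
      · refine (h3 v.1 v.2).continuousOn.congr fun p hp => ?_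
        obtain ⟨u, h4, h5, h6, h7⟩ := nx_spec G hw p.1
        have h8 : l G (w * s G v.1) = m := by have := (mem_T G).1 v.2; omega
        have h9 : PP G (nx G w p.1) (hK G w 0 p.1) p.2 = PP G (w * s G v.1) (hK G w 0 p.1) p.2 := by
          rw [h6, PP_mir G w _ u _ h5, PP_mir G w _ v.1 _ hp]
        unfold PP at h9
        rw [h7, h8] at h9
        exact h9
    have h3 : (fun p : Kz G × ℝ => P G (m + 1) w p.1 p.2) = fun p => if tm m ≤ p.2 then
        q G w (hK G w ((p.2 - tm m) / (tm (m + 1) - tm m)) p.1) else P G m (nx G w p.1) (hK G w 0 p.1) p.2 := rfl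
    rw [h3]
    refine continuous_if_le continuous_const continuous_snd h1.continuousOn h2.continuousOn fun p hp => ?_
    obtain ⟨u, h4, h5, h6, h7⟩ := nx_spec G hw p.1
    rw [P_late G _ hp.le, ← hp, sub_self, zero_div, h6, q_mir G w _ h5]

theorem F_cont : Continuous fun p : U G × unitInterval => F G p.1 p.2 := by
  refine (qq_quot G).continuous_lift_prod_left (g := fun p : U G × unitInterval => F G p.1 p.2) ?_
  have h1 : ∀ w : W G, Continuous fun p : Kz G × unitInterval => F G (q G w p.1) p.2 := fun w =>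
    (P_cont G (l G w) w rfl).comp (continuous_fst.prodMk (continuous_subtype_val.comp continuous_snd))
  have h2 : Continuous fun p : (Σ _ : W G, Kz G × unitInterval) => F G (q G p.1 p.2.1) p.2.2 :=
    continuous_sigma fun w => h1 w
  exact h2.comp (Homeomorph.sigmaProdDistrib (X := fun _ : W G => Kz G) (Y := unitInterval)).continuous

theorem F_one (x : U G) : F G x 1 = x := by
  induction x using q_ind with
  | h w z => exact P_late G z (tm_le _)

/-- the base point -/
def z0 : Kz G := ⟨fun _ => 0, fun _ => ⟨le_rfl, zero_le_one⟩, fun _ h => absurd rfl h⟩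

theorem F_zero (x : U G) : F G x 0 = q G 1 (z0 G) := by
  have key : ∀ m (w : W G) (z : Kz G), l G w = m → P G m w z 0 = q G 1 (z0 G) := by
    intro m
    induction m with
    | zero =>
      intro w z hw
      rw [l_zero G hw]
      show q G 1 (sc G (2 * 0) z) = _
      congr 1
      refine Subtype.ext (funext fun v => ?_)
      show cp (2 * 0) * z.1 v = 0
      rw [cp_zero (by norm_num), zero_mul]
    | succ m ih =>
      intro w z hw
      have := tm_ge m
      rw [P_succ, if_neg (by linarith)]
      obtain ⟨u, -, -, -, h7⟩ := nx_spec G hw z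
      exact ih _ _ h7
  induction x using q_ind with
  | h w z => exact key _ w z rfl

/-- **The universal covering space is contractible.** -/
theorem U_contractible : ContractibleSpace (U G) := by
  rw [contractible_iff_id_nullhomotopic]
  refine ⟨q G 1 (z0 G), ContinuousMap.Homotopic.symm ⟨?_⟩⟩
  refine ⟨⟨fun p => F G p.2 p.1, (F_cont G).comp continuous_swap⟩, fun x => ?_, fun x => ?_⟩
  · exact F_zero G x
  · exact F_one G x

end Pool.Agent.H831.Cov
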