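import Pool.Agent.H831.Cov2
import Pool.Agent.H944.FS12
import Mathlib.Topology.Homotopy.Lifting

/-!
# The real moment-angle complex is aspherical, part 3: the statement
-/

set_option autoImplicit false

noncomputable section

namespace Pool.Agent.H831.Cov

open Pool.Agent.N496.LT.Lt Pool.Agent.W907.SG Set Topology

/-- `M` is aspherical with fundamental group `G`: there is a contractible space `X` with an action of `G` and a
regular covering map `X → M` whose fibers are the orbits of the (free) action of `G`, and the fundamental group of
`M` is isomorphic to `G`. -/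
def Asph (M G : Type) [TopologicalSpace M] [Group G] : Prop :=
  (∃ (X : Type) (_ : TopologicalSpace X) (_ : MulAction G X) (π : X → M),
    ContractibleSpace X ∧ IsQuotientCoveringMap π G) ∧
  ∀ x : M, Nonempty (FundamentalGroup M x ≃* G)

theorem asph_of {M G X : Type} [TopologicalSpace M] [Group G] [TopologicalSpace X] [MulAction G X] {π : X → M}
    (hX : ContractibleSpace X) (hπ : IsQuotientCoveringMap π G) : Asph M G := by
  refine ⟨⟨X, inferInstance, inferInstance, π, hX, hπ⟩, fun x => ?_⟩
  obtain ⟨e, he⟩ := hπ.surjective x
  have : SimplyConnectedSpace X := inferInstance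
  exact ⟨(hπ.fundamentalGroupEquiv (x := x) ⟨e, he⟩).trans (MulEquiv.inv' G).symm⟩

/-- **The real moment-angle complex of a graph (of its flag complex) is aspherical, and its fundamental group is
the commutator subgroup of the right-angled Coxeter group.** -/
theorem MA_asph {n : ℕ} (S : SimpleGraph (Fin n)) : Asph (Pool.Agent.H944.FS.MA S) (Gam S) :=
  asph_of (M := Pool.Agent.H944.FS.MA S) (π := pr S) (U_contractible S) (pr_cov S)

end Pool.Agent.H831.Cov
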