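import Pool.Agent.H831.Cov3

/-!
# The real moment-angle complex is aspherical, part 4: products
-/

set_option autoImplicit false

noncomputable section

namespace Pool.Agent.H831.Cov

open Set Topology

/-- the product action -/
@[reducible] def prodAct (G H X Y : Type) [Group G] [Group H] [MulAction G X] [MulAction H Y] :
    MulAction (G × H) (X × Y) where
  smul g x := (g.1 • x.1, g.2 • x.2)
  one_smul x := by
    show ((1 : G) • x.1, (1 : H) • x.2) = x
    rw [one_smul, one_smul]
  mul_smul g h x := by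
    show ((g.1 * h.1) • x.1, (g.2 * h.2) • x.2) = (g.1 • h.1 • x.1, g.2 • h.2 • x.2)
    rw [mul_smul, mul_smul]

theorem prod_cov {G H X Y M N : Type} [Group G] [Group H] [TopologicalSpace X] [TopologicalSpace Y]
    [TopologicalSpace M] [TopologicalSpace N] [MulAction G X] [MulAction H Y] {π : X → M} {ρ : Y → N}
    (h1 : IsQuotientCoveringMap π G) (h2 : IsQuotientCoveringMap ρ H) :
    letI := prodAct G H X Y
    IsQuotientCoveringMap (Prod.map π ρ) (G × H) := by
  let := prodAct G H X Y
  exact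
  { toIsQuotientMap := (h1.isOpenQuotientMap.prodMap h2.isOpenQuotientMap).isQuotientMap
    toContinuousConstSMul := ⟨fun g => by
      have := h1.toContinuousConstSMul
      have := h2.toContinuousConstSMul
      exact ((continuous_const_smul g.1).comp continuous_fst).prodMk ((continuous_const_smul g.2).comp continuous_snd)⟩
    apply_eq_iff_mem_orbit := by
      intro a b
      constructor
      · intro h
        obtain ⟨g, hg⟩ := h1.apply_eq_iff_mem_orbit.1 (congrArg Prod.fst h)
        obtain ⟨k, hk⟩ := h2.apply_eq_iff_mem_orbit.1 (congrArg Prod.snd h)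
        exact ⟨(g, k), Prod.ext hg hk⟩
      · rintro ⟨g, hg⟩
        exact Prod.ext (h1.apply_eq_iff_mem_orbit.2 ⟨g.1, congrArg Prod.fst hg⟩)
          (h2.apply_eq_iff_mem_orbit.2 ⟨g.2, congrArg Prod.snd hg⟩)
    disjoint := by
      rintro ⟨x, y⟩
      obtain ⟨A, hA, hA'⟩ := h1.disjoint x
      obtain ⟨B, hB, hB'⟩ := h2.disjoint y
      refine ⟨A ×ˢ B, prod_mem_nhds hA hB, ?_⟩
      rintro g ⟨_, ⟨⟨a, b⟩, ⟨ha, hb⟩, rfl⟩, hx, hy⟩
      exact Prod.ext (hA' g.1 ⟨g.1 • a, ⟨a, ha, rfl⟩, hx⟩) (hB' g.2 ⟨g.2 • b, ⟨b, hb, rfl⟩, hy⟩) }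

theorem Asph.prod {M N G H : Type} [TopologicalSpace M] [TopologicalSpace N] [Group G] [Group H] (h1 : Asph M G)
    (h2 : Asph N H) : Asph (M × N) (G × H) := by
  obtain ⟨⟨X, _, _, π, a1, a2⟩, -⟩ := h1
  obtain ⟨⟨Y, _, _, ρ, b1, b2⟩, -⟩ := h2
  let := prodAct G H X Y
  exact asph_of inferInstance (prod_cov a2 b2)

/-- `M` is a closed connected topological manifold of dimension `m`. -/
structure Mfd (m : ℕ) (M : Type) [TopologicalSpace M] : Prop where
  charted : Nonempty (ChartedSpace (EuclideanSpace ℝ (Fin m)) M)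
  t2 : T2Space M
  sc : SecondCountableTopology M
  compact : CompactSpace M
  connected : ConnectedSpace M

theorem Mfd.prod {a b : ℕ} {M N : Type} [TopologicalSpace M] [TopologicalSpace N] (h1 : Mfd a M) (h2 : Mfd b N) :
    Mfd (a + b) (M × N) := by
  obtain ⟨⟨c1⟩, _, _, _, _⟩ := h1
  obtain ⟨⟨c2⟩, _, _, _, _⟩ := h2
  refine ⟨⟨?_⟩, inferInstance, inferInstance, inferInstance, inferInstance⟩
  let φ : (EuclideanSpace ℝ (Fin a) × EuclideanSpace ℝ (Fin b)) ≃ₜ EuclideanSpace ℝ (Fin (a + b)) :=
    (EuclideanSpace.finAddEquivProd (𝕜 := ℝ) (n := a) (m := b)).symm.toHomeomorph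
  let e : M × N → OpenPartialHomeomorph (M × N) (EuclideanSpace ℝ (Fin (a + b))) := fun x =>
    ((chartAt (EuclideanSpace ℝ (Fin a)) x.1).prod (chartAt (EuclideanSpace ℝ (Fin b)) x.2)).trans
      φ.toOpenPartialHomeomorph
  refine { atlas := range e, chartAt := e, mem_chart_source := fun x => ?_, chart_mem_atlas := fun x => mem_range_self x }
  simp only [e, OpenPartialHomeomorph.trans_source, Homeomorph.toOpenPartialHomeomorph_source, preimage_univ,
    inter_univ, OpenPartialHomeomorph.prod_source]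
  exact ⟨mem_chart_source _ x.1, mem_chart_source _ x.2⟩

/-- If the flag complex of `S` is homeomorphic to the sphere of dimension `m - 1`, then its real moment-angle complex is
a connected closed topological manifold of dimension `m`. -/
theorem MA_mfd {n m : ℕ} (S : SimpleGraph (Fin n)) (h : Pool.Agent.H944.FS.Emb m (Pool.Agent.H944.FS.cl S)) :
    Mfd m (Pool.Agent.H944.FS.MA S) := by
  obtain ⟨h1, h2, h3⟩ := Pool.Agent.H944.FS.MA_manifold S h
  exact ⟨h1, inferInstance, inferInstance, h2, h3⟩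

end Pool.Agent.H831.Cov
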