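import Pool.Agent.H944.FS8

/-!
# Checking a list of flips, one column of bits for each vertex
-/

set_option autoImplicit false

noncomputable section

namespace Pool.Agent.H831.FX

open Pool.Agent.H944.FS

/-- binary trees of columns -/
inductive Tr
  /-- the column of a vertex -/
  | l : ℕ → Tr
  /-- two subtrees -/
  | b : Tr → Tr → Tr

/-- the places of the vertices of a flip -/
inductive Pt
  /-- a vertex of the old face, with the number of the new facet without this vertex -/
  | a : ℕ → Pt
  /-- a vertex of the new face, with the number of the old facet without this vertex -/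
  | b : ℕ → Pt
  /-- only the left subtree -/
  | l : Pt → Pt
  /-- only the right subtree -/
  | r : Pt → Pt
  /-- both subtrees -/
  | n : Pt → Pt → Pt

/-! ### The meaning -/

/-- the number of leaves -/
def sz : Tr → ℕ
  | .l _ => 1
  | .b t u => sz t + sz u

/-- the column of the vertex `i` -/
def col : Tr → ℕ → ℕ
  | .l c, i => if i = 0 then c else 0
  | .b t u, i => if i < sz t then col t i else col u (i - sz t)

/-- what happens at the vertex `i` -/
def op : Pt → Tr → ℕ → Option (Bool × ℕ)
  | .a q, .l _, i => if i = 0 then some (true, q) else none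
  | .b p, .l _, i => if i = 0 then some (false, p) else none
  | .l x, .b t _, i => if i < sz t then op x t i else none
  | .r y, .b t u, i => if i < sz t then none else op y u (i - sz t)
  | .n x y, .b t u, i => if i < sz t then op x t i else op y u (i - sz t)
  | _, _, _ => none

/-- the shapes agree -/
def Ok : Pt → Tr → Prop
  | .a _, .l _ => True
  | .b _, .l _ => True
  | .l x, .b t _ => Ok x t
  | .r y, .b _ u => Ok y u
  | .n x y, .b t u => Ok x t ∧ Ok y u
  | _, _ => False

theorem col_zero : ∀ (t : Tr) (i : ℕ), sz t ≤ i → col t i = 0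
  | .l c, i, h => by
    have h' : 1 ≤ i := h
    show (if i = 0 then c else 0) = 0
    rw [if_neg (by omega)]
  | .b t u, i, h => by
    have h' : sz t + sz u ≤ i := h
    show (if i < sz t then col t i else col u (i - sz t)) = 0
    rw [if_neg (by omega)]
    exact col_zero u _ (by omega)

theorem op_none : ∀ (x : Pt) (t : Tr) (i : ℕ), sz t ≤ i → op x t i = none
  | .a q, .l _, i, h => by
    have h' : 1 ≤ i := h
    show (if i = 0 then some (true, q) else none) = none
    rw [if_neg (by omega)]
  | .b p, .l _, i, h => by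
    have h' : 1 ≤ i := h
    show (if i = 0 then some (false, p) else none) = none
    rw [if_neg (by omega)]
  | .l x, .b t u, i, h => by
    have h' : sz t + sz u ≤ i := h
    show (if i < sz t then op x t i else none) = none
    rw [if_neg (by omega)]
  | .r y, .b t u, i, h => by
    have h' : sz t + sz u ≤ i := h
    show (if i < sz t then none else op y u (i - sz t)) = none
    rw [if_neg (by omega)]
    exact op_none y u _ (by omega)
  | .n x y, .b t u, i, h => by
    have h' : sz t + sz u ≤ i := h
    show (if i < sz t then op x t i else op y u (i - sz t)) = none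
    rw [if_neg (by omega)]
    exact op_none y u _ (by omega)
  | .a _, .b _ _, _, _ => rfl
  | .b _, .b _ _, _, _ => rfl
  | .l _, .l _, _, _ => rfl
  | .r _, .l _, _, _ => rfl
  | .n _ _, .l _, _, _ => rfl

/-! ### The functions -/

/-- computes the intersections of the columns, checks the old facets and computes the new columns -/
def chk (P R : ℕ) (x : Pt) : Tr → (Tr → ℕ → ℕ → Bool) → ℕ → ℕ → Bool :=
  Pt.rec (motive := fun _ => Tr → (Tr → ℕ → ℕ → Bool) → ℕ → ℕ → Bool)
    (fun q t k ka kb => Tr.rec (motive := fun _ => Bool)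
      (fun c => k (Tr.l (Nat.xor c (Nat.xor R (Nat.pow 2 q)))) (Nat.land ka c) kb) (fun _ _ _ _ => false) t)
    (fun p t k ka kb => Tr.rec (motive := fun _ => Bool)
      (fun c => bc (Nat.beq (Nat.land P c) (Nat.xor P (Nat.pow 2 p)))
        (k (Tr.l (Nat.xor c (Nat.xor R (Nat.pow 2 p)))) ka (Nat.land kb c)) false)
      (fun _ _ _ _ => false) t)
    (fun _ ih t k ka kb => Tr.rec (motive := fun _ => Bool) (fun _ => false)
      (fun t u _ _ => ih t (fun t' => k (Tr.b t' u)) ka kb) t)
    (fun _ ih t k ka kb => Tr.rec (motive := fun _ => Bool) (fun _ => false)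
      (fun t u _ _ => ih u (fun u' => k (Tr.b t u')) ka kb) t)
    (fun _ _ ih1 ih2 t k ka kb => Tr.rec (motive := fun _ => Bool) (fun _ => false)
      (fun t u _ _ => ih1 t (fun t' => ih2 u (fun u' => k (Tr.b t' u'))) ka kb) t)
    x

/-- the new columns -/
def upd (R : ℕ) (x : Pt) : Tr → Tr :=
  Pt.rec (motive := fun _ => Tr → Tr)
    (fun q t => Tr.rec (motive := fun _ => Tr) (fun c => Tr.l (Nat.xor c (Nat.xor R (Nat.pow 2 q))))
      (fun t u _ _ => Tr.b t u) t)
    (fun p t => Tr.rec (motive := fun _ => Tr) (fun c => Tr.l (Nat.xor c (Nat.xor R (Nat.pow 2 p))))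
      (fun t u _ _ => Tr.b t u) t)
    (fun _ ih t => Tr.rec (motive := fun _ => Tr) (fun c => Tr.l c) (fun t u _ _ => Tr.b (ih t) u) t)
    (fun _ ih t => Tr.rec (motive := fun _ => Tr) (fun c => Tr.l c) (fun t u _ _ => Tr.b t (ih u)) t)
    (fun _ _ ih1 ih2 t => Tr.rec (motive := fun _ => Tr) (fun c => Tr.l c) (fun t u _ _ => Tr.b (ih1 t) (ih2 u)) t)
    x

/-- one flip -/
def st (k1 : ℕ) (K : Tr → ℕ → Bool) (t : Tr) (occ : ℕ) (x : Pt) (P Q n : ℕ) : Bool :=
  bc (Nat.beq n k1) (bc (Nat.beq P 0) false (bc (Nat.beq Q 0) false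
    (bc (Nat.beq (Nat.land (Nat.xor occ P) Q) 0)
      (chk P (Nat.xor P Q) x t (fun t' ka kb => bc (Nat.beq ka P) (bc (Nat.beq kb 0)
        (K t' (Nat.lor (Nat.xor occ P) Q)) false) false) occ occ) false))) false

/-- reads the places of a flip from a number, with the given depth `d` of the tree, and collects the numbers of the
old and of the new facets; a number of a facet is the intersection with the mask `lm`, and `lw` bits are used for it
and for the kind -/
def dec (lm lw d : ℕ) : (Pt → ℕ → ℕ → ℕ → ℕ → Bool) → ℕ → ℕ → ℕ → ℕ → Bool :=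
  Nat.rec (motive := fun _ => (Pt → ℕ → ℕ → ℕ → ℕ → Bool) → ℕ → ℕ → ℕ → ℕ → Bool)
    (fun k e P Q n => bc (Nat.beq (Nat.land e 1) 0)
      ((fun q => bc (Nat.beq (Nat.land Q (Nat.pow 2 q)) 0)
        (k (Pt.a q) (Nat.shiftRight e lw) P (Nat.lor Q (Nat.pow 2 q)) (Nat.succ n)) false)
        (Nat.land (Nat.shiftRight e 1) lm))
      ((fun p => bc (Nat.beq (Nat.land P (Nat.pow 2 p)) 0)
        (k (Pt.b p) (Nat.shiftRight e lw) (Nat.lor P (Nat.pow 2 p)) Q (Nat.succ n)) false)
        (Nat.land (Nat.shiftRight e 1) lm)))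
    (fun _ ih k e P Q n => bc (Nat.beq (Nat.land e 1) 0)
      (ih (fun x => ih (fun y => k (Pt.n x y))) (Nat.shiftRight e 1) P Q n)
      (bc (Nat.beq (Nat.land e 2) 0) (ih (fun x => k (Pt.l x)) (Nat.shiftRight e 2) P Q n)
        (ih (fun x => k (Pt.r x)) (Nat.shiftRight e 2) P Q n)))
    d

/-- several flips, encoded in one number -/
def rp (lm lw d k1 : ℕ) (K : Tr → ℕ → Bool) (m : ℕ) : ℕ → Tr → ℕ → Bool :=
  Nat.rec (motive := fun _ => ℕ → Tr → ℕ → Bool) (fun _ t occ => K t occ)
    (fun _ ih e t occ => dec lm lw d (fun x e => st k1 (ih e) t occ x) e 0 0 0) m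

/-- lists of flips -/
inductive Lw
  /-- the end -/
  | n : Lw
  /-- the given number of flips -/
  | c : ℕ → ℕ → Lw → Lw

/-- all the flips -/
def go (lm lw d k1 : ℕ) (K : Tr → ℕ → Bool) (L : Lw) : Tr → ℕ → Bool :=
  Lw.rec (motive := fun _ => Tr → ℕ → Bool) K (fun m e _ ih t occ => rp lm lw d k1 ih m e t occ) L

/-- equality of trees -/
def eqT (t : Tr) : Tr → Bool :=
  Tr.rec (motive := fun _ => Tr → Bool)
    (fun c u => Tr.rec (motive := fun _ => Bool) (fun c' => Nat.beq c c') (fun _ _ _ _ => false) u)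
    (fun _ _ ih1 ih2 u => Tr.rec (motive := fun _ => Bool) (fun _ => false)
      (fun u1 u2 _ _ => bc (ih1 u1) (ih2 u2) false) u) t

/-- the tree of the sets of the facets whose label has the given binary digits (most significant digit first) -/
def oh (B : List ℕ) : ℕ → Tr :=
  List.rec (motive := fun _ => ℕ → Tr) (fun m => Tr.l m)
    (fun b _ ih m => Tr.b (ih (Nat.xor m (Nat.land m b))) (ih (Nat.land m b))) B

/-- the union of two trees -/
def mg (t : Tr) : Tr → Tr :=
  Tr.rec (motive := fun _ => Tr → Tr)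
    (fun c u => Tr.rec (motive := fun _ => Tr) (fun c' => Tr.l (Nat.lor c c')) (fun _ _ _ _ => Tr.l c) u)
    (fun _ _ ih1 ih2 u => Tr.rec (motive := fun _ => Tr) (fun c => Tr.l c)
      (fun u1 u2 _ _ => Tr.b (ih1 u1) (ih2 u2)) u) t

/-! ### Their properties -/

theorem bT {c t : Bool} (h : bc c t false = true) : c = true ∧ t = true := by
  cases c
  · exact Bool.noConfusion h
  · exact ⟨rfl, h⟩

theorem bF {c t : Bool} (h : bc c false t = true) : c = false ∧ t = true := by
  cases c
  · exact ⟨rfl, h⟩
  · exact Bool.noConfusion h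

theorem beqF {a b : ℕ} (h : Nat.beq a b = false) : a ≠ b := by
  intro e
  rw [beq_iff.2 e] at h
  exact Bool.noConfusion h

theorem tb_lor {a b i : ℕ} : (Nat.lor a b).testBit i = (a.testBit i || b.testBit i) := Nat.testBit_or a b i

theorem tb_land {a b i : ℕ} : (Nat.land a b).testBit i = (a.testBit i && b.testBit i) := Nat.testBit_and a b i

theorem tb_xor {a b i : ℕ} : (Nat.xor a b).testBit i = (a.testBit i ^^ b.testBit i) := Nat.testBit_xor a b i

theorem tb_pow {j i : ℕ} : (Nat.pow 2 j).testBit i = decide (j = i) := Nat.testBit_two_pow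

theorem disj_of {a b : ℕ} (h : Nat.land a b = 0) {i : ℕ} (ha : a.testBit i = true) : b.testBit i = false := by
  have h1 : (Nat.land a b).testBit i = false := by rw [h, Nat.zero_testBit]
  rw [tb_land, ha, Bool.true_and] at h1
  exact h1

theorem count_congr' (p q : ℕ → Bool) (n : ℕ) (h : ∀ i < n, p i = q i) :
    Nat.count (fun i => p i = true) n = Nat.count (fun i => q i = true) n := by
  induction n with
  | zero => rfl
  | succ n ih =>
    rw [Nat.count_succ, Nat.count_succ, ih fun i hi => h i (by omega), h n (by omega)]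

theorem count_false (p : ℕ → Bool) (n : ℕ) (h : ∀ i < n, p i = false) : Nat.count (fun i => p i = true) n = 0 := by
  induction n with
  | zero => rfl
  | succ n ih =>
    rw [Nat.count_succ, ih fun i hi => h i (by omega), h n (by omega)]
    rfl

/-- the number of the places -/
def ct (x : Pt) (t : Tr) : ℕ := Nat.count (fun i => (op x t i).isSome = true) (sz t)

theorem op_l {x : Pt} {t u : Tr} {i : ℕ} : op (.l x) (.b t u) i = if i < sz t then op x t i else none := rfl

theorem op_r {y : Pt} {t u : Tr} {i : ℕ} :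
    op (.r y) (.b t u) i = if i < sz t then none else op y u (i - sz t) := rfl

theorem op_n {x y : Pt} {t u : Tr} {i : ℕ} :
    op (.n x y) (.b t u) i = if i < sz t then op x t i else op y u (i - sz t) := rfl

theorem ct_l {x : Pt} {t u : Tr} : ct (.l x) (.b t u) = ct x t := by
  unfold ct
  have e : sz (.b t u) = sz t + sz u := rfl
  rw [e, Nat.count_add]
  rw [count_false (fun k => (op (.l x) (.b t u) (sz t + k)).isSome) (sz u) (by
    intro i _
    rw [op_l, if_neg (by omega)]
    rfl)]
  rw [count_congr' (fun i => (op (.l x) (.b t u) i).isSome) (fun i => (op x t i).isSome) (sz t) (by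
    intro i hi
    rw [op_l, if_pos hi])]
  rfl

theorem ct_r {y : Pt} {t u : Tr} : ct (.r y) (.b t u) = ct y u := by
  unfold ct
  have e : sz (.b t u) = sz t + sz u := rfl
  rw [e, Nat.count_add]
  rw [count_false (fun i => (op (.r y) (.b t u) i).isSome) (sz t) (by
    intro i hi
    rw [op_r, if_pos hi]
    rfl)]
  rw [count_congr' (fun k => (op (.r y) (.b t u) (sz t + k)).isSome) (fun i => (op y u i).isSome) (sz u) (by
    intro i hi
    rw [op_r, if_neg (by omega), Nat.add_sub_cancel_left]), zero_add]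

theorem ct_n {x y : Pt} {t u : Tr} : ct (.n x y) (.b t u) = ct x t + ct y u := by
  unfold ct
  have e : sz (.b t u) = sz t + sz u := rfl
  rw [e, Nat.count_add]
  rw [count_congr' (fun i => (op (.n x y) (.b t u) i).isSome) (fun i => (op x t i).isSome) (sz t) (by
    intro i hi
    rw [op_n, if_pos hi])]
  rw [count_congr' (fun k => (op (.n x y) (.b t u) (sz t + k)).isSome) (fun i => (op y u i).isSome) (sz u) (by
    intro i hi
    rw [op_n, if_neg (by omega), Nat.add_sub_cancel_left])]

/-- The result of `pq`: `s` is the kind, the numbers `P` are extended by the numbers at the places of this kind. -/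
structure Ad (x : Pt) (t : Tr) (s : Bool) (P P' : ℕ) : Prop where
  mem : ∀ p, P'.testBit p = true ↔ P.testBit p = true ∨ ∃ i, op x t i = some (s, p)
  new : ∀ i p, op x t i = some (s, p) → P.testBit p = false
  inj : ∀ i j p, op x t i = some (s, p) → op x t j = some (s, p) → i = j

theorem Ad.of_l {x : Pt} {t u : Tr} {s : Bool} {P P' : ℕ} (h : Ad x t s P P') : Ad (.l x) (.b t u) s P P' := by
  have key : ∀ i p, op (.l x) (.b t u) i = some (s, p) ↔ op x t i = some (s, p) := by
    intro i p
    rw [op_l]
    split_ifs with h1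
    · rfl
    · rw [op_none x t i (by omega)]
      simp
  refine ⟨fun p => ?_, fun i p h1 => h.new i p ((key i p).1 h1), fun i j p h1 h2 =>
    h.inj i j p ((key i p).1 h1) ((key j p).1 h2)⟩
  rw [h.mem p]
  simp only [key]

theorem Ad.of_r {y : Pt} {t u : Tr} {s : Bool} {P P' : ℕ} (h : Ad y u s P P') : Ad (.r y) (.b t u) s P P' := by
  have key : ∀ i p, op (.r y) (.b t u) i = some (s, p) ↔ sz t ≤ i ∧ op y u (i - sz t) = some (s, p) := by
    intro i p
    rw [op_r]
    split_ifs with h1
    · simp
      omega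
    · simp
      omega
  refine ⟨fun p => ?_, fun i p h1 => h.new _ p ((key i p).1 h1).2, fun i j p h1 h2 => ?_⟩
  · rw [h.mem p]
    refine or_congr Iff.rfl ⟨?_, ?_⟩
    · rintro ⟨i, hi⟩
      exact ⟨sz t + i, (key _ _).2 ⟨by omega, by rw [Nat.add_sub_cancel_left]; exact hi⟩⟩
    · rintro ⟨i, hi⟩
      exact ⟨_, ((key _ _).1 hi).2⟩
  · have h3 := (key i p).1 h1
    have h4 := (key j p).1 h2
    have := h.inj _ _ p h3.2 h4.2
    omega

theorem Ad.of_n {x y : Pt} {t u : Tr} {s : Bool} {P P' P'' : ℕ} (h : Ad x t s P P') (h' : Ad y u s P' P'') :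
    Ad (.n x y) (.b t u) s P P'' := by
  have key : ∀ i p, op (.n x y) (.b t u) i = some (s, p) ↔
      op x t i = some (s, p) ∨ (sz t ≤ i ∧ op y u (i - sz t) = some (s, p)) := by
    intro i p
    rw [op_n]
    split_ifs with h1
    · constructor
      · exact Or.inl
      · rintro (h | h)
        · exact h
        · omega
    · rw [op_none x t i (by omega)]
      simp
      omega
  have hP : ∀ i p, op x t i = some (s, p) → P'.testBit p = true := fun i p hi => (h.mem p).2 (Or.inr ⟨i, hi⟩)
  refine ⟨fun p => ?_, fun i p h1 => ?_, fun i j p h1 h2 => ?_⟩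
  · rw [h'.mem p, h.mem p, or_assoc]
    refine or_congr Iff.rfl ⟨?_, ?_⟩
    · rintro (⟨i, hi⟩ | ⟨i, hi⟩)
      · exact ⟨i, (key _ _).2 (Or.inl hi)⟩
      · exact ⟨sz t + i, (key _ _).2 (Or.inr ⟨by omega, by rw [Nat.add_sub_cancel_left]; exact hi⟩)⟩
    · rintro ⟨i, hi⟩
      rcases (key _ _).1 hi with hi | hi
      · exact Or.inl ⟨i, hi⟩
      · exact Or.inr ⟨_, hi.2⟩
  · rcases (key _ _).1 h1 with hi | hi
    · exact h.new i p hi
    · have h3 := h'.new _ p hi.2
      by_contra h4
      rw [Bool.not_eq_false] at h4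
      rw [(h.mem p).2 (Or.inl h4)] at h3
      exact Bool.noConfusion h3
  · rcases (key _ _).1 h1 with hi | hi <;> rcases (key _ _).1 h2 with hj | hj
    · exact h.inj i j p hi hj
    · have h3 := h'.new _ p hj.2
      rw [hP i p hi] at h3
      exact Bool.noConfusion h3
    · have h3 := h'.new _ p hi.2
      rw [hP j p hj] at h3
      exact Bool.noConfusion h3
    · have := h'.inj _ _ p hi.2 hj.2
      omega

/-- nothing happens for the other kind -/
theorem Ad.nil {x : Pt} {t : Tr} {s : Bool} {P : ℕ} (h : ∀ i p, op x t i ≠ some (s, p)) : Ad x t s P P :=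
  ⟨fun p => by
    constructor
    · exact Or.inl
    · rintro (h1 | ⟨i, hi⟩)
      · exact h1
      · exact absurd hi (h i p), fun i p hi => absurd hi (h i p), fun i _ p hi => absurd hi (h i p)⟩

theorem Ad.one {x : Pt} {c : ℕ} {s : Bool} {P p : ℕ} (hx : ∀ i, op x (.l c) i = if i = 0 then some (s, p) else none)
    (h : Nat.land P (Nat.pow 2 p) = 0) : Ad x (.l c) s P (Nat.lor P (Nat.pow 2 p)) := by
  have key : ∀ i p', op x (.l c) i = some (s, p') ↔ i = 0 ∧ p' = p := by
    intro i p'
    rw [hx]
    split_ifs with h1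
    · simp [h1, eq_comm]
    · simp [h1]
  refine ⟨fun p' => ?_, fun i p' h1 => ?_, fun i j p' h1 h2 => ?_⟩
  · rw [tb_lor, tb_pow, Bool.or_eq_true, decide_eq_true_iff]
    refine or_congr Iff.rfl ⟨fun e => ⟨0, (key _ _).2 ⟨rfl, e.symm⟩⟩, ?_⟩
    rintro ⟨i, hi⟩
    exact ((key _ _).1 hi).2.symm
  · rw [((key _ _).1 h1).2]
    exact land_pow.1 h
  · rw [((key _ _).1 h1).1, ((key _ _).1 h2).1]

theorem Ad.a_nil {q c P : ℕ} : Ad (.a q) (.l c) false P P := Ad.nil fun i p hi => by
  have hi' : (if i = 0 then some (true, q) else none) = some (false, p) := hi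
  split_ifs at hi' <;> simp at hi'

theorem Ad.b_nil {q c P : ℕ} : Ad (.b q) (.l c) true P P := Ad.nil fun i p hi => by
  have hi' : (if i = 0 then some (false, q) else none) = some (true, p) := hi
  split_ifs at hi' <;> simp at hi'

theorem dec_spec (lm lw d : ℕ) : ∀ (k : Pt → ℕ → ℕ → ℕ → ℕ → Bool) (e P Q n : ℕ), dec lm lw d k e P Q n = true →
    ∃ x e' P' Q' n', k x e' P' Q' n' = true ∧
      ∀ t, Ok x t → n' = n + ct x t ∧ Ad x t false P P' ∧ Ad x t true Q Q' := by
  induction d with
  | zero =>
    intro k e P Q n h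
    obtain ⟨q, hq⟩ : ∃ q, q = Nat.land (Nat.shiftRight e 1) lm := ⟨_, rfl⟩
    have h' : bc (Nat.beq (Nat.land e 1) 0)
      (bc (Nat.beq (Nat.land Q (Nat.pow 2 q)) 0)
        (k (Pt.a q) (Nat.shiftRight e lw) P (Nat.lor Q (Nat.pow 2 q)) (Nat.succ n)) false)
      (bc (Nat.beq (Nat.land P (Nat.pow 2 q)) 0)
        (k (Pt.b q) (Nat.shiftRight e lw) (Nat.lor P (Nat.pow 2 q)) Q (Nat.succ n)) false) = true := by
      rw [hq]
      exact h
    cases hc : Nat.beq (Nat.land e 1) 0
    · rw [hc] at h'
      obtain ⟨h1, h2⟩ := bT h'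
      refine ⟨_, _, _, _, _, h2, fun t ht => ?_⟩
      cases t with
      | l c => exact ⟨rfl, Ad.one (fun i => rfl) (beq_iff.1 h1), Ad.b_nil⟩
      | b t u => exact ht.elim
    · rw [hc] at h'
      obtain ⟨h1, h2⟩ := bT h'
      refine ⟨_, _, _, _, _, h2, fun t ht => ?_⟩
      cases t with
      | l c => exact ⟨rfl, Ad.a_nil, Ad.one (fun i => rfl) (beq_iff.1 h1)⟩
      | b t u => exact ht.elim
  | succ d ih =>
    intro k e P Q n h
    have h' : bc (Nat.beq (Nat.land e 1) 0)
      (dec lm lw d (fun x => dec lm lw d (fun y => k (Pt.n x y))) (Nat.shiftRight e 1) P Q n)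
      (bc (Nat.beq (Nat.land e 2) 0) (dec lm lw d (fun x => k (Pt.l x)) (Nat.shiftRight e 2) P Q n)
        (dec lm lw d (fun x => k (Pt.r x)) (Nat.shiftRight e 2) P Q n)) = true := h
    cases hc : Nat.beq (Nat.land e 1) 0
    · rw [hc] at h'
      cases hc2 : Nat.beq (Nat.land e 2) 0
      · rw [hc2] at h'
        obtain ⟨x, e', P', Q', n', h1, h2⟩ := ih _ _ _ _ _ h'
        refine ⟨_, _, _, _, _, h1, fun t ht => ?_⟩
        cases t with
        | l c => exact ht.elim
        | b t u =>
          obtain ⟨g1, g2, g3⟩ := h2 u ht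
          exact ⟨by rw [ct_r]; exact g1, g2.of_r, g3.of_r⟩
      · rw [hc2] at h'
        obtain ⟨x, e', P', Q', n', h1, h2⟩ := ih _ _ _ _ _ h'
        refine ⟨_, _, _, _, _, h1, fun t ht => ?_⟩
        cases t with
        | l c => exact ht.elim
        | b t u =>
          obtain ⟨g1, g2, g3⟩ := h2 t ht
          exact ⟨by rw [ct_l]; exact g1, g2.of_l, g3.of_l⟩
    · rw [hc] at h'
      obtain ⟨x, e', P', Q', n', h1, h2⟩ := ih _ _ _ _ _ h'
      obtain ⟨y, e'', P'', Q'', n'', h3, h4⟩ := ih _ _ _ _ _ h1
      refine ⟨_, _, _, _, _, h3, fun t ht => ?_⟩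
      cases t with
      | l c => exact ht.elim
      | b t u =>
        obtain ⟨g1, g2, g3⟩ := h2 t ht.1
        obtain ⟨k1, k2, k3⟩ := h4 u ht.2
        exact ⟨by rw [ct_n, k1, g1, Nat.add_assoc], g2.of_n k2, g3.of_n k3⟩

/-- the intersection of the columns of the given kind -/
def In (x : Pt) (t : Tr) (s : Bool) (c c' : ℕ) : Prop :=
  ∀ p, c'.testBit p = true ↔ c.testBit p = true ∧ ∀ i q, op x t i = some (s, q) → (col t i).testBit p = true

theorem col_b {t u : Tr} {i : ℕ} : col (.b t u) i = if i < sz t then col t i else col u (i - sz t) := rfl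

theorem op_lt {x : Pt} {t : Tr} {i : ℕ} {q : Bool × ℕ} (h : op x t i = some q) : i < sz t := by
  by_contra h'
  rw [op_none x t i (not_lt.1 h')] at h
  simp at h

theorem In.of_l {x : Pt} {t u : Tr} {s : Bool} {c c' : ℕ} (h : In x t s c c') : In (.l x) (.b t u) s c c' := by
  intro p
  rw [h p]
  refine and_congr Iff.rfl ⟨fun h1 i q h2 => ?_, fun h1 i q h2 => ?_⟩
  · rw [op_l] at h2
    split_ifs at h2 with h3
    rw [col_b, if_pos h3]
    exact h1 i q h2
  · have h3 := op_lt h2
    have h4 := h1 i q (by rw [op_l, if_pos h3]; exact h2)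
    rw [col_b, if_pos h3] at h4
    exact h4

theorem In.of_r {y : Pt} {t u : Tr} {s : Bool} {c c' : ℕ} (h : In y u s c c') : In (.r y) (.b t u) s c c' := by
  intro p
  rw [h p]
  refine and_congr Iff.rfl ⟨fun h1 i q h2 => ?_, fun h1 i q h2 => ?_⟩
  · rw [op_r] at h2
    split_ifs at h2 with h3
    rw [col_b, if_neg h3]
    exact h1 _ q h2
  · have h4 := h1 (sz t + i) q (by rw [op_r, if_neg (by omega), Nat.add_sub_cancel_left]; exact h2)
    rw [col_b, if_neg (by omega), Nat.add_sub_cancel_left] at h4
    exact h4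

theorem In.of_n {x y : Pt} {t u : Tr} {s : Bool} {c c' c'' : ℕ} (h : In x t s c c') (h' : In y u s c' c'') :
    In (.n x y) (.b t u) s c c'' := by
  intro p
  rw [h' p, h p, and_assoc]
  refine and_congr Iff.rfl ⟨fun h1 i q h2 => ?_, fun h1 => ⟨fun i q h2 => ?_, fun i q h2 => ?_⟩⟩
  · rw [op_n] at h2
    split_ifs at h2 with h3
    · rw [col_b, if_pos h3]
      exact h1.1 _ q h2
    · rw [col_b, if_neg h3]
      exact h1.2 _ q h2
  · have h3 := op_lt h2
    have h4 := h1 i q (by rw [op_n, if_pos h3]; exact h2)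
    rw [col_b, if_pos h3] at h4
    exact h4
  · have h4 := h1 (sz t + i) q (by rw [op_n, if_neg (by omega), Nat.add_sub_cancel_left]; exact h2)
    rw [col_b, if_neg (by omega), Nat.add_sub_cancel_left] at h4
    exact h4

theorem In.nil {x : Pt} {t : Tr} {s : Bool} {c : ℕ} (h : ∀ i p, op x t i ≠ some (s, p)) : In x t s c c := by
  intro p
  constructor
  · exact fun h1 => ⟨h1, fun i q hi => absurd hi (h i q)⟩
  · exact fun h1 => h1.1

theorem In.one {x : Pt} {c0 : ℕ} {s : Bool} {c p0 : ℕ}
    (hx : ∀ i, op x (.l c0) i = if i = 0 then some (s, p0) else none) : In x (.l c0) s c (Nat.land c c0) := by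
  intro p
  rw [tb_land, Bool.and_eq_true]
  refine and_congr Iff.rfl ⟨fun h1 i q h2 => ?_, fun h1 => ?_⟩
  · rw [hx] at h2
    split_ifs at h2 with h3
    subst h3
    exact h1
  · exact h1 0 p0 (by rw [hx]; rfl)

theorem chk_spec (P R : ℕ) : ∀ (x : Pt) (t : Tr) (k : Tr → ℕ → ℕ → Bool) (ka kb : ℕ), chk P R x t k ka kb = true →
    Ok x t ∧ ∃ ka' kb', k (upd R x t) ka' kb' = true ∧ In x t true ka ka' ∧ In x t false kb kb' ∧
      ∀ i p, op x t i = some (false, p) → Nat.land P (col t i) = Nat.xor P (Nat.pow 2 p)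
  | .a q, .l c, k, ka, kb, h => by
    have h' : k (upd R (.a q) (.l c)) (Nat.land ka c) kb = true := h
    have hn : ∀ i p, op (.a q) (.l c) i ≠ some (false, p) := by
      intro i p hi
      have hi' : (if i = 0 then some (true, q) else none) = some (false, p) := hi
      split_ifs at hi' <;> simp at hi'
    exact ⟨trivial, _, _, h', In.one (p0 := q) (fun i => rfl), In.nil hn, fun i p hi => absurd hi (hn i p)⟩
  | .b q, .l c, k, ka, kb, h => by
    have h' : bc (Nat.beq (Nat.land P c) (Nat.xor P (Nat.pow 2 q))) (k (upd R (.b q) (.l c)) ka (Nat.land kb c))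
      false = true := h
    obtain ⟨h1, h2⟩ := bT h'
    have hn : ∀ i p, op (.b q) (.l c) i ≠ some (true, p) := by
      intro i p hi
      have hi' : (if i = 0 then some (false, q) else none) = some (true, p) := hi
      split_ifs at hi' <;> simp at hi'
    refine ⟨trivial, _, _, h2, In.nil hn, In.one (p0 := q) (fun i => rfl), fun i p hi => ?_⟩
    have hi' : (if i = 0 then some (false, q) else none) = some (false, p) := hi
    split_ifs at hi' with h3
    have e : q = p := by simpa using hi'
    subst h3 e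
    exact beq_iff.1 h1
  | .l x, .b t u, k, ka, kb, h => by
    obtain ⟨ho, ka', kb', h1, h2, h3, h4⟩ := chk_spec P R x t (fun t' => k (Tr.b t' u)) ka kb h
    refine ⟨ho, ka', kb', h1, h2.of_l, h3.of_l, fun i p hi => ?_⟩
    rw [op_l] at hi
    split_ifs at hi with h5
    rw [col_b, if_pos h5]
    exact h4 i p hi
  | .r y, .b t u, k, ka, kb, h => by
    obtain ⟨ho, ka', kb', h1, h2, h3, h4⟩ := chk_spec P R y u (fun u' => k (Tr.b t u')) ka kb h
    refine ⟨ho, ka', kb', h1, h2.of_r, h3.of_r, fun i p hi => ?_⟩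
    rw [op_r] at hi
    split_ifs at hi with h5
    rw [col_b, if_neg h5]
    exact h4 _ p hi
  | .n x y, .b t u, k, ka, kb, h => by
    obtain ⟨ho, ka', kb', h1, h2, h3, h4⟩ :=
      chk_spec P R x t (fun t' => chk P R y u (fun u' => k (Tr.b t' u'))) ka kb h
    obtain ⟨ho', ka'', kb'', g1, g2, g3, g4⟩ := chk_spec P R y u (fun u' => k (Tr.b (upd R x t) u')) ka' kb' h1
    refine ⟨⟨ho, ho'⟩, ka'', kb'', g1, h2.of_n g2, h3.of_n g3, fun i p hi => ?_⟩
    rw [op_n] at hi
    split_ifs at hi with h5
    · rw [col_b, if_pos h5]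
      exact h4 i p hi
    · rw [col_b, if_neg h5]
      exact g4 _ p hi
  | .a _, .b _ _, _, _, _, h => Bool.noConfusion (show false = true from h)
  | .b _, .b _ _, _, _, _, h => Bool.noConfusion (show false = true from h)
  | .l _, .l _, _, _, _, h => Bool.noConfusion (show false = true from h)
  | .r _, .l _, _, _, _, h => Bool.noConfusion (show false = true from h)
  | .n _ _, .l _, _, _, _, h => Bool.noConfusion (show false = true from h)

/-- the new column -/
def ua (P Q : ℕ) : Option (Bool × ℕ) → ℕ → ℕ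
  | none, c => c
  | some (true, q), c => Nat.xor c (Nat.xor P (Nat.xor Q (Nat.pow 2 q)))
  | some (false, p), c => Nat.xor c (Nat.xor Q (Nat.xor P (Nat.pow 2 p)))

theorem upd_spec (P Q : ℕ) : ∀ (x : Pt) (t : Tr), Ok x t → sz (upd (Nat.xor P Q) x t) = sz t ∧
    ∀ i, col (upd (Nat.xor P Q) x t) i = ua P Q (op x t i) (col t i)
  | .a q, .l c, _ => by
    refine ⟨rfl, fun i => ?_⟩
    show (if i = 0 then _ else 0) = ua P Q (if i = 0 then some (true, q) else none) (if i = 0 then c else 0)
    split_ifs
    · show (c ^^^ ((P ^^^ Q) ^^^ 2 ^ q)) = c ^^^ (P ^^^ (Q ^^^ 2 ^ q))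
      rw [Nat.xor_assoc P Q]
    · rfl
  | .b q, .l c, _ => by
    refine ⟨rfl, fun i => ?_⟩
    show (if i = 0 then _ else 0) = ua P Q (if i = 0 then some (false, q) else none) (if i = 0 then c else 0)
    split_ifs
    · show (c ^^^ ((P ^^^ Q) ^^^ 2 ^ q)) = c ^^^ (Q ^^^ (P ^^^ 2 ^ q))
      rw [Nat.xor_comm P Q, Nat.xor_assoc Q P]
    · rfl
  | .l x, .b t u, ho => by
    obtain ⟨h1, h2⟩ := upd_spec P Q x t ho
    have e : upd (Nat.xor P Q) (.l x) (.b t u) = .b (upd (Nat.xor P Q) x t) u := rfl
    rw [e]
    refine ⟨?_, fun i => ?_⟩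
    · show sz (upd (Nat.xor P Q) x t) + sz u = sz t + sz u
      rw [h1]
    · rw [col_b, col_b, op_l, h1]
      split_ifs with h3
      · exact h2 i
      · rfl
  | .r y, .b t u, ho => by
    obtain ⟨h1, h2⟩ := upd_spec P Q y u ho
    have e : upd (Nat.xor P Q) (.r y) (.b t u) = .b t (upd (Nat.xor P Q) y u) := rfl
    rw [e]
    refine ⟨?_, fun i => ?_⟩
    · show sz t + sz (upd (Nat.xor P Q) y u) = sz t + sz u
      rw [h1]
    · rw [col_b, col_b, op_r]
      split_ifs with h3
      · rfl
      · exact h2 _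
  | .n x y, .b t u, ho => by
    obtain ⟨h1, h2⟩ := upd_spec P Q x t ho.1
    obtain ⟨g1, g2⟩ := upd_spec P Q y u ho.2
    have e : upd (Nat.xor P Q) (.n x y) (.b t u) = .b (upd (Nat.xor P Q) x t) (upd (Nat.xor P Q) y u) := rfl
    rw [e]
    refine ⟨?_, fun i => ?_⟩
    · show sz (upd (Nat.xor P Q) x t) + sz (upd (Nat.xor P Q) y u) = sz t + sz u
      rw [h1, g1]
    · rw [col_b, col_b, op_n, h1]
      split_ifs with h3
      · exact h2 i
      · exact g2 _
  | .a _, .b _ _, ho => ho.elim
  | .b _, .b _ _, ho => ho.elim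
  | .l _, .l _, ho => ho.elim
  | .r _, .l _, ho => ho.elim
  | .n _ _, .l _, ho => ho.elim

/-! ### The state -/

/-- the complex whose facets are given by the bits of the columns -/
def XT (m : ℕ) (t : Tr) : Set (Finset (Fin m)) := {S | ∃ p, ∀ i ∈ S, (col t i).testBit p = true}

/-- the state of the computation -/
structure Gs (M k : ℕ) (t : Tr) (occ : ℕ) : Prop where
  hsz : sz t ≤ M
  hocc : ∀ i p, (col t i).testBit p = true → occ.testBit p = true
  hgood : Good k (XT (M + 1) t)

/-- the simplices of a sphere have at most the right number of vertices -/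
theorem card_le {V : Type} [Fintype V] [LinearOrder V] {k : ℕ} {X : Set (Finset V)} (h : Good k X) {T : Finset V}
    (hT : T ∈ X) : T.card ≤ k := by
  obtain ⟨S, hTS, hS⟩ := (Set.toFinite X).exists_le_maximal hT
  have h1 : up X S = {S} := by
    ext R
    constructor
    · rintro ⟨h1, h2⟩
      exact le_antisymm (hS.2 h1 h2) h2
    · intro h1
      rw [Set.mem_singleton_iff] at h1
      subst h1
      exact ⟨hS.1, Finset.Subset.refl _⟩
  have h2 := h.hs S hS.1 S.card
  rw [h1, rb_single, if_pos rfl] at h2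
  have h3 : S.card = k := by
    by_contra h'
    rw [if_neg h'] at h2
    exact one_ne_zero h2
  rw [← h3]
  exact Finset.card_le_card hTS

theorem xor3 {a b c d : Bool} : (a ^^ (b ^^ (c ^^ d))) = (((a ^^ b) ^^ c) ^^ d) := by
  cases a <;> cases b <;> cases c <;> cases d <;> rfl

open Classical in
theorem st_core {M k : ℕ} {t : Tr} {occ : ℕ} (hG : Gs M k t occ) {x : Pt} (ho : Ok x t) {P Q : ℕ}
    (hP : Ad x t false 0 P) (hQ : Ad x t true 0 Q) (hct : ct x t = k + 1) (hP0 : P ≠ 0) (hQ0 : Q ≠ 0)
    (hfree : Nat.land (Nat.xor occ P) Q = 0) (hka : In x t true occ P) (hkb : In x t false occ 0)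
    (hland : ∀ i p, op x t i = some (false, p) → Nat.land P (col t i) = Nat.xor P (Nat.pow 2 p)) :
    Gs M k (upd (Nat.xor P Q) x t) (Nat.lor (Nat.xor occ P) Q) := by
  obtain ⟨hsz, hocc, hgood⟩ := hG
  obtain ⟨hsz', hcol'⟩ := upd_spec P Q x t ho
  -- bits of `P` and `Q`
  have bP : ∀ p, P.testBit p = true ↔ ∃ i, op x t i = some (false, p) := by
    intro p
    rw [hP.mem p, Nat.zero_testBit]
    simp
  have bQ : ∀ p, Q.testBit p = true ↔ ∃ i, op x t i = some (true, p) := by
    intro p
    rw [hQ.mem p, Nat.zero_testBit]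
    simp
  have aP : ∀ p, P.testBit p = true → ∀ i q, op x t i = some (true, q) → (col t i).testBit p = true := fun p hp =>
    ((hka p).1 hp).2
  have oP : ∀ p, P.testBit p = true → occ.testBit p = true := fun p hp => ((hka p).1 hp).1
  have cP : ∀ i p, op x t i = some (false, p) → ∀ p', P.testBit p' = true → ((col t i).testBit p' = true ↔ p' ≠ p) := by
    intro i p hi p' hp'
    have h1 := congrArg (fun n => n.testBit p') (hland i p hi)
    simp only [tb_land, tb_xor, tb_pow, hp', Bool.true_and, Bool.true_xor] at h1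
    rw [h1, Bool.not_eq_true', decide_eq_false_iff_not]
    exact ⟨fun h => Ne.symm h, fun h => Ne.symm h⟩
  have bne : ∀ p, occ.testBit p = true → ∃ i q, op x t i = some (false, q) ∧ (col t i).testBit p = false := by
    intro p hp
    by_contra h
    push Not at h
    have h1 := (hkb p).2 ⟨hp, fun i q hi => by
      have := h i q hi
      cases hc : (col t i).testBit p
      · exact absurd hc this
      · rfl⟩
    rw [Nat.zero_testBit] at h1
    exact Bool.noConfusion h1
  -- the sets
  obtain ⟨L, hL⟩ : ∃ L : ℕ → Finset (Fin (M + 1)), ∀ p i, i ∈ L p ↔ (col t i).testBit p = true :=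
    ⟨fun p => Finset.univ.filter fun i : Fin (M + 1) => (col t i).testBit p = true, fun p i => by simp⟩
  obtain ⟨α, hα⟩ : ∃ α : Finset (Fin (M + 1)), ∀ i, i ∈ α ↔ ∃ q, op x t i = some (true, q) :=
    ⟨Finset.univ.filter fun i : Fin (M + 1) => ∃ q, op x t i = some (true, q), fun i => by simp⟩
  obtain ⟨β, hβ⟩ : ∃ β : Finset (Fin (M + 1)), ∀ i, i ∈ β ↔ ∃ q, op x t i = some (false, q) :=
    ⟨Finset.univ.filter fun i : Fin (M + 1) => ∃ q, op x t i = some (false, q), fun i => by simp⟩
  have hLX : ∀ p, L p ∈ XT (M + 1) t := fun p => ⟨p, fun i hi => (hL p i).1 hi⟩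
  have hXL : ∀ T, T ∈ XT (M + 1) t ↔ ∃ p, T ⊆ L p := by
    intro T
    constructor
    · rintro ⟨p, hp⟩
      exact ⟨p, fun i hi => (hL p i).2 (hp i hi)⟩
    · rintro ⟨p, hp⟩
      exact ⟨p, fun i hi => (hL p i).1 (hp hi)⟩
  have hfin : ∀ {i : ℕ} {q : Bool × ℕ}, op x t i = some q → i < M + 1 := fun h => by
    have := op_lt h
    omega
  have hdisj : Disjoint α β := by
    rw [Finset.disjoint_left]
    intro i h1 h2
    obtain ⟨q, h1⟩ := (hα i).1 h1
    obtain ⟨p, h2⟩ := (hβ i).1 h2
    rw [h1] at h2
    simp at h2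
  have hab : ∀ i : Fin (M + 1), i ∈ α ∪ β ↔ (op x t i).isSome = true := by
    intro i
    rw [Finset.mem_union, hα, hβ]
    constructor
    · rintro (⟨q, h⟩ | ⟨q, h⟩) <;> rw [h] <;> rfl
    · intro h
      obtain ⟨⟨s, q⟩, h⟩ := Option.isSome_iff_exists.1 h
      cases s
      · exact Or.inr ⟨q, h⟩
      · exact Or.inl ⟨q, h⟩
  have hcard : (α ∪ β).card = k + 1 := by
    rw [← hct]
    unfold ct
    rw [Nat.count_eq_card_filter_range]
    refine Finset.card_bij (fun i _ => (i : ℕ)) ?_ ?_ ?_
    · intro i hi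
      rw [hab] at hi
      rw [Finset.mem_filter, Finset.mem_range]
      obtain ⟨q, h⟩ := Option.isSome_iff_exists.1 hi
      exact ⟨op_lt h, hi⟩
    · intro i _ j _ h
      exact Fin.ext h
    · intro i hi
      rw [Finset.mem_filter, Finset.mem_range] at hi
      exact ⟨⟨i, by omega⟩, (hab _).2 hi.2, rfl⟩
  -- the old facets
  have ex : ∀ v p, op x t v = some (false, p) → ∀ i : Fin (M + 1), i ∈ L p ↔ i ∈ α ∪ β ∧ (i : ℕ) ≠ v := by
    intro v p hv
    have hp : P.testBit p = true := (bP p).2 ⟨v, hv⟩
    have h1 : (α ∪ β).erase ⟨v, hfin hv⟩ ⊆ L p := by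
      intro i hi
      obtain ⟨h1, h2⟩ := Finset.mem_erase.1 hi
      rw [hL]
      rcases Finset.mem_union.1 h2 with h3 | h3
      · obtain ⟨q, h3⟩ := (hα i).1 h3
        exact aP p hp i q h3
      · obtain ⟨q, h3⟩ := (hβ i).1 h3
        refine (cP i q h3 p hp).2 fun e => ?_
        subst e
        exact h1 (Fin.ext (hP.inj _ _ _ h3 hv))
    have h2 : (α ∪ β).erase ⟨v, hfin hv⟩ = L p := by
      refine Finset.eq_of_subset_of_card_le h1 ?_
      rw [Finset.card_erase_of_mem ((hab _).2 (by show (op x t v).isSome = true; rw [hv]; rfl)), hcard]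
      exact card_le hgood (hLX p)
    intro i
    rw [← h2, Finset.mem_erase]
    exact ⟨fun h => ⟨h.2, fun e => h.1 (Fin.ext e)⟩, fun h => ⟨fun e => h.2 (congrArg Fin.val e), h.1⟩⟩
  have cP0 : ∀ p, P.testBit p = true → ∀ i, op x t i = none → (col t i).testBit p = false := by
    intro p hp i hi
    obtain ⟨v, hv⟩ := (bP p).1 hp
    by_contra h
    rw [Bool.not_eq_false] at h
    have hiM : i < sz t := by
      by_contra h'
      rw [col_zero t i (not_lt.1 h'), Nat.zero_testBit] at h
      exact Bool.noConfusion h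
    have h1 := (ex v p hv ⟨i, by omega⟩).1 ((hL p _).2 h)
    have h2 := (hab _).1 h1.1
    have h3 : (op x t i).isSome = true := h2
    rw [hi] at h3
    exact Bool.noConfusion h3
  have free : ∀ p, Q.testBit p = true → P.testBit p = false → occ.testBit p = false := by
    intro p hq hp
    have h1 : Nat.land Q (Nat.xor occ P) = 0 := by
      have e : Nat.land Q (Nat.xor occ P) = Nat.land (Nat.xor occ P) Q := Nat.and_comm _ _
      rw [e]
      exact hfree
    have h2 := disj_of h1 hq
    rw [tb_xor, hp, Bool.xor_false] at h2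
    exact h2
  have cfree : ∀ p, Q.testBit p = true → P.testBit p = false → ∀ i, (col t i).testBit p = false := by
    intro p hq hp i
    by_contra h
    rw [Bool.not_eq_false] at h
    have := hocc i p h
    rw [free p hq hp] at this
    exact Bool.noConfusion this
  -- the new columns
  have A : ∀ p, P.testBit p = false → Q.testBit p = false → ∀ i, (col (upd (Nat.xor P Q) x t) i).testBit p = (col t i).testBit p := by
    intro p hp hq i
    rw [hcol' i]
    cases h : op x t i with
    | none => rfl
    | some o =>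
      obtain ⟨s, q⟩ := o
      cases s
      · have h1 : q ≠ p := by
          rintro rfl
          rw [(bP q).2 ⟨i, h⟩] at hp
          exact Bool.noConfusion hp
        show (Nat.xor _ (Nat.xor Q (Nat.xor P (Nat.pow 2 q)))).testBit p = _
        rw [tb_xor, tb_xor, tb_xor, tb_pow, hp, hq, decide_eq_false h1]
        simp
      · have h1 : q ≠ p := by
          rintro rfl
          rw [(bQ q).2 ⟨i, h⟩] at hq
          exact Bool.noConfusion hq
        show (Nat.xor _ (Nat.xor P (Nat.xor Q (Nat.pow 2 q)))).testBit p = _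
        rw [tb_xor, tb_xor, tb_xor, tb_pow, hp, hq, decide_eq_false h1]
        simp
  have B : ∀ p, P.testBit p = true → Q.testBit p = false → ∀ i, (col (upd (Nat.xor P Q) x t) i).testBit p = false := by
    intro p hp hq i
    rw [hcol' i]
    cases h : op x t i with
    | none => exact cP0 p hp i h
    | some o =>
      obtain ⟨s, q⟩ := o
      cases s
      · show (Nat.xor _ (Nat.xor Q (Nat.xor P (Nat.pow 2 q)))).testBit p = _
        rw [tb_xor, tb_xor, tb_xor, tb_pow, hp, hq]
        by_cases h1 : q = p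
        · have h2 : (col t i).testBit p = false := by
            by_contra h3
            rw [Bool.not_eq_false] at h3
            exact (cP i q h p hp).1 h3 h1.symm
          rw [h2, decide_eq_true h1]
          rfl
        · rw [(cP i q h p hp).2 (Ne.symm h1), decide_eq_false h1]
          rfl
      · have h1 : q ≠ p := by
          rintro rfl
          rw [(bQ q).2 ⟨i, h⟩] at hq
          exact Bool.noConfusion hq
        show (Nat.xor _ (Nat.xor P (Nat.xor Q (Nat.pow 2 q)))).testBit p = _
        rw [tb_xor, tb_xor, tb_xor, tb_pow, hp, hq, decide_eq_false h1, aP p hp i q h]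
        rfl
  have C : ∀ j p, op x t j = some (true, p) → ∀ i, (col (upd (Nat.xor P Q) x t) i).testBit p = true ↔
      (op x t i).isSome = true ∧ i ≠ j := by
    intro j p hj i
    have hq : Q.testBit p = true := (bQ p).2 ⟨j, hj⟩
    rw [hcol' i]
    cases h : op x t i with
    | none =>
      have h1 : (col t i).testBit p = false := by
        cases hp : P.testBit p
        · exact cfree p hq hp i
        · exact cP0 p hp i h
      show (col t i).testBit p = true ↔ _
      rw [h1]
      simp
    | some o =>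
      obtain ⟨s, q⟩ := o
      cases s
      · show (Nat.xor _ (Nat.xor Q (Nat.xor P (Nat.pow 2 q)))).testBit p = true ↔ _
        rw [tb_xor, tb_xor, tb_xor, tb_pow, hq]
        have hij : i ≠ j := by
          rintro rfl
          rw [h] at hj
          simp at hj
        have e : ((col t i).testBit p ^^ (true ^^ (P.testBit p ^^ decide (q = p)))) = true := by
          cases hp : P.testBit p
          · have h1 : q ≠ p := by
              rintro rfl
              rw [(bP q).2 ⟨i, h⟩] at hp
              exact Bool.noConfusion hp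
            rw [cfree p hq hp i, decide_eq_false h1]
            rfl
          · by_cases h1 : q = p
            · have h2 : (col t i).testBit p = false := by
                by_contra h3
                rw [Bool.not_eq_false] at h3
                exact (cP i q h p hp).1 h3 h1.symm
              rw [h2, decide_eq_true h1]
              rfl
            · rw [(cP i q h p hp).2 (Ne.symm h1), decide_eq_false h1]
              rfl
        rw [e]
        exact ⟨fun _ => ⟨rfl, hij⟩, fun _ => rfl⟩
      · show (Nat.xor _ (Nat.xor P (Nat.xor Q (Nat.pow 2 q)))).testBit p = true ↔ _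
        rw [tb_xor, tb_xor, tb_xor, tb_pow, hq]
        have hij : q = p ↔ i = j := by
          constructor
          · rintro rfl
            exact hQ.inj _ _ _ h hj
          · rintro rfl
            rw [h] at hj
            simpa using hj
        have e : ((col t i).testBit p ^^ (P.testBit p ^^ (true ^^ decide (q = p)))) = !decide (q = p) := by
          cases hp : P.testBit p
          · rw [cfree p hq hp i]
            cases decide (q = p) <;> rfl
          · rw [aP p hp i q h]
            cases decide (q = p) <;> rfl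
        rw [e, Bool.not_eq_true', decide_eq_false_iff_not, hij]
        exact ⟨fun h => ⟨rfl, h⟩, fun h => h.2⟩
  refine ⟨by rw [hsz']; exact hsz, fun i p hi => ?_, ?_⟩
  · rw [tb_lor, tb_xor]
    cases hq : Q.testBit p
    · cases hp : P.testBit p
      · rw [A p hp hq i] at hi
        rw [hocc i p hi]
        rfl
      · rw [B p hp hq i] at hi
        exact Bool.noConfusion hi
    · simp
  · -- the flip
    obtain ⟨p0, hp0⟩ := Nat.exists_testBit_of_ne_zero hP0
    obtain ⟨v0, hv0⟩ := (bP p0).1 hp0
    obtain ⟨q0, hq0⟩ := Nat.exists_testBit_of_ne_zero hQ0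
    obtain ⟨u0, hu0⟩ := (bQ q0).1 hq0
    have hαL : ∀ p, P.testBit p = true → α ⊆ L p := by
      intro p hp i hi
      obtain ⟨q, hi⟩ := (hα i).1 hi
      exact (hL p i).2 (aP p hp i q hi)
    have hLα : ∀ p, α ⊆ L p → P.testBit p = true := by
      intro p hp
      refine (hka p).2 ⟨?_, ?_⟩
      · have h1 : (⟨u0, hfin hu0⟩ : Fin (M + 1)) ∈ α := (hα _).2 ⟨q0, hu0⟩
        exact hocc u0 p ((hL p _).1 (hp h1))
      · intro i q hi
        have h1 : (⟨i, hfin hi⟩ : Fin (M + 1)) ∈ α := (hα _).2 ⟨q, hi⟩
        exact (hL p _).1 (hp h1)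
    have hflip : Flip (XT (M + 1) t) α β := by
      constructor
      · exact ⟨⟨u0, hfin hu0⟩, (hα _).2 ⟨q0, hu0⟩⟩
      · exact hdisj
      · exact (hXL _).2 ⟨p0, hαL p0 hp0⟩
      · intro R hR
        constructor
        · intro h1
          obtain ⟨p, hp⟩ := (hXL _).1 h1
          have hpP := hLα p (Finset.subset_union_left.trans hp)
          obtain ⟨v, hv⟩ := (bP p).1 hpP
          refine lt_of_le_of_ne (fun i hi => ?_) fun e => ?_
          · have h2 := (ex v p hv i).1 (hp (Finset.mem_union_right _ hi))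
            rcases Finset.mem_union.1 h2.1 with h3 | h3
            · exact absurd hi (Finset.disjoint_left.1 hR h3)
            · exact h3
          · have h2 : (⟨v, hfin hv⟩ : Fin (M + 1)) ∈ R := by
              rw [e]
              exact (hβ _).2 ⟨p, hv⟩
            exact ((ex v p hv _).1 (hp (Finset.mem_union_right _ h2))).2 rfl
        · intro h1
          obtain ⟨v, hv, hvR⟩ := Finset.exists_of_ssubset h1
          obtain ⟨p, hp⟩ := (hβ v).1 hv
          refine (hXL _).2 ⟨p, fun i hi => (ex v p hp i).2 ?_⟩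
          rcases Finset.mem_union.1 hi with h2 | h2
          · refine ⟨Finset.mem_union_left _ h2, fun e => ?_⟩
            have : i = v := Fin.ext e
            subst this
            exact Finset.disjoint_left.1 hdisj h2 hv
          · refine ⟨Finset.mem_union_right _ (h1.1 h2), fun e => ?_⟩
            have : i = v := Fin.ext e
            subst this
            exact hvR h2
      · intro h1
        obtain ⟨p, hp⟩ := (hXL _).1 h1
        have h2 : occ.testBit p = true := by
          have h3 : (⟨v0, hfin hv0⟩ : Fin (M + 1)) ∈ β := (hβ _).2 ⟨p0, hv0⟩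
          exact hocc v0 p ((hL p _).1 (hp h3))
        obtain ⟨i, q, h3, h4⟩ := bne p h2
        have h5 := (hL p _).1 (hp ((hβ ⟨i, hfin h3⟩).2 ⟨q, h3⟩))
        have h6 : (col t i).testBit p = true := h5
        rw [h4] at h6
        exact Bool.noConfusion h6
    have hnew : XT (M + 1) (upd (Nat.xor P Q) x t) = flip (XT (M + 1) t) α β := by
      ext T
      constructor
      · rintro ⟨p, hp⟩
        cases hq : Q.testBit p
        · cases hpP : P.testBit p
          · have h1 : T ⊆ L p := fun i hi => by
              rw [hL, ← A p hpP hq i]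
              exact hp i hi
            refine ⟨fun h2 => ?_, Or.inl ((hXL _).2 ⟨p, h1⟩)⟩
            rw [hLα p (h2.trans h1)] at hpP
            exact Bool.noConfusion hpP
          · have h1 : T = ∅ := by
              rw [← Finset.subset_empty]
              intro i hi
              have := hp i hi
              rw [B p hpP hq i] at this
              exact Bool.noConfusion this
            subst h1
            refine ⟨fun h2 => ?_, Or.inr (Finset.empty_subset _)⟩
            have := h2 ((hα ⟨u0, hfin hu0⟩).2 ⟨q0, hu0⟩)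
            exact absurd this (Finset.notMem_empty _)
        · obtain ⟨j, hj⟩ := (bQ p).1 hq
          refine ⟨fun h2 => ?_, Or.inr fun i hi => (hab i).2 ((C j p hj i).1 (hp i hi)).1⟩
          have h3 := hp _ (h2 ((hα ⟨j, hfin hj⟩).2 ⟨p, hj⟩))
          exact ((C j p hj _).1 h3).2 rfl
      · rintro ⟨h1, h2⟩
        have key : T ⊆ α ∪ β → T ∈ XT (M + 1) (upd (Nat.xor P Q) x t) := by
          intro h3
          obtain ⟨j, hj, hjT⟩ := Finset.not_subset.1 h1
          obtain ⟨q, hq⟩ := (hα j).1 hj
          refine ⟨q, fun i hi => (C j q hq i).2 ⟨(hab i).1 (h3 hi), fun e => ?_⟩⟩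
          have : i = j := Fin.ext e
          subst this
          exact hjT hi
        rcases h2 with h2 | h2
        · obtain ⟨p, hp⟩ := (hXL _).1 h2
          cases hpP : P.testBit p
          · cases hq : Q.testBit p
            · refine ⟨p, fun i hi => ?_⟩
              rw [A p hpP hq i]
              exact (hL p i).1 (hp hi)
            · apply key
              intro i hi
              have h3 := (hL p i).1 (hp hi)
              rw [cfree p hq hpP i] at h3
              exact Bool.noConfusion h3
          · obtain ⟨v, hv⟩ := (bP p).1 hpP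
            exact key fun i hi => ((ex v p hv i).1 (hp hi)).1
        · exact key h2
    rw [hnew]
    refine hgood.flip hflip (v := Fin.last M) ?_ ?_
    · rintro T ⟨p, hp⟩ h2
      have h3 := hp _ h2
      rw [Fin.val_last, col_zero t M hsz, Nat.zero_testBit] at h3
      exact Bool.noConfusion h3
    · intro h2
      obtain ⟨p, h2⟩ := (hβ _).1 h2
      rw [Fin.val_last, op_none x t M hsz] at h2
      simp at h2

theorem st_spec {M k : ℕ} {t : Tr} {occ : ℕ} (hG : Gs M k t occ) (x : Pt) (P Q n : ℕ) (K : Tr → ℕ → Bool)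
    (hx : Ok x t → n = 0 + ct x t ∧ Ad x t false 0 P ∧ Ad x t true 0 Q)
    (h : st (k + 1) K t occ x P Q n = true) : ∃ t' occ', K t' occ' = true ∧ Gs M k t' occ' := by
  obtain ⟨h4, h1⟩ := bT h
  obtain ⟨h5, h1⟩ := bF h1
  obtain ⟨h6, h1⟩ := bF h1
  obtain ⟨h7, h1⟩ := bT h1
  obtain ⟨hok, ka, kb, h8, h9, h10, h11⟩ := chk_spec P (Nat.xor P Q) x t _ _ _ h1
  obtain ⟨h3, hP, hQ⟩ := hx hok
  obtain ⟨h12, h8⟩ := bT h8
  obtain ⟨h13, h8⟩ := bT h8
  have e1 := beq_iff.1 h12
  have e2 := beq_iff.1 h13
  subst e1 e2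
  have e3 := beq_iff.1 h4
  rw [h3, Nat.zero_add] at e3
  exact ⟨_, _, h8, st_core hG hok hP hQ e3 (beqF h5) (beqF h6) (beq_iff.1 h7) h9 h10 h11⟩

theorem rp_spec {M k : ℕ} (lm lw d : ℕ) (K : Tr → ℕ → Bool) (m : ℕ) : ∀ (e : ℕ) (t : Tr) (occ : ℕ), Gs M k t occ →
    rp lm lw d (k + 1) K m e t occ = true → ∃ t' occ', K t' occ' = true ∧ Gs M k t' occ' := by
  induction m with
  | zero => exact fun e t occ hG h => ⟨t, occ, h, hG⟩
  | succ m ih =>
    intro e t occ hG h
    have h' : dec lm lw d (fun x e => st (k + 1) (rp lm lw d (k + 1) K m e) t occ x) e 0 0 0 = true := h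
    obtain ⟨x, e', P, Q, n, h1, hx⟩ := dec_spec lm lw d _ _ _ _ _ h'
    obtain ⟨t', occ', h2, h3⟩ := st_spec hG x P Q n _ (hx t) h1
    exact ih e' t' occ' h3 h2

theorem go_spec {M k : ℕ} (lm lw d : ℕ) (K : Tr → ℕ → Bool) (L : Lw) : ∀ (t : Tr) (occ : ℕ), Gs M k t occ →
    go lm lw d (k + 1) K L t occ = true → ∃ t' occ', K t' occ' = true ∧ Gs M k t' occ' := by
  induction L with
  | n => exact fun t occ hG h => ⟨t, occ, h, hG⟩
  | c m e L ih =>
    intro t occ hG h
    obtain ⟨t', occ', h1, h2⟩ := rp_spec lm lw d _ m e t occ hG h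
    exact ih t' occ' h2 h1

theorem eqT_iff : ∀ (t u : Tr), eqT t u = true → t = u
  | .l c, .l c', h => by
    have h' : Nat.beq c c' = true := h
    rw [beq_iff.1 h']
  | .b t u, .b t' u', h => by
    have h' : bc (eqT t t') (eqT u u') false = true := h
    obtain ⟨h1, h2⟩ := bT h'
    rw [eqT_iff t t' h1, eqT_iff u u' h2]
  | .l _, .b _ _, h => Bool.noConfusion (show false = true from h)
  | .b _ _, .l _, h => Bool.noConfusion (show false = true from h)

theorem Gs.go {M k : ℕ} {t : Tr} {occ : ℕ} (hG : Gs M k t occ) {lm lw d : ℕ} {L : Lw} {t' : Tr} {occ' : ℕ}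
    (h : go lm lw d (k + 1) (fun t occ => bc (Nat.beq occ occ') (eqT t t') false) L t occ = true) : Gs M k t' occ' := by
  obtain ⟨t1, o1, h1, h2⟩ := go_spec lm lw d _ L t occ hG h
  obtain ⟨h3, h4⟩ := bT h1
  rw [beq_iff.1 h3, eqT_iff _ _ h4] at h2
  exact h2

/-- the start: the boundary of the simplex with `k + 1` vertices -/
theorem Gs.start {M k : ℕ} {t : Tr} (h1 : k + 1 ≤ sz t) (h2 : sz t ≤ M)
    (h3 : ∀ i < sz t, col t i = if i < k + 1 then Nat.xor (2 ^ (k + 1) - 1) (Nat.pow 2 i) else 0) :
    Gs M k t (2 ^ (k + 1) - 1) := by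
  classical
  have hbit : ∀ i p, (col t i).testBit p = true ↔ i < k + 1 ∧ p < k + 1 ∧ p ≠ i := by
    intro i p
    by_cases hi : i < sz t
    · rw [h3 i hi]
      split_ifs with h4
      · rw [tb_xor, tb_pow, Nat.testBit_two_pow_sub_one]
        by_cases h5 : p < k + 1
        · rw [decide_eq_true h5, Bool.true_xor, Bool.not_eq_true', decide_eq_false_iff_not]
          exact ⟨fun h => ⟨h4, h5, Ne.symm h⟩, fun h => Ne.symm h.2.2⟩
        · rw [decide_eq_false h5, Bool.false_xor, decide_eq_true_iff]
          omega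
      · rw [Nat.zero_testBit]
        constructor
        · exact fun h => Bool.noConfusion h
        · intro h
          omega
    · rw [col_zero t i (not_lt.1 hi), Nat.zero_testBit]
      constructor
      · exact fun h => Bool.noConfusion h
      · intro h
        omega
  refine ⟨h2, fun i p h => ?_, ?_⟩
  · rw [Nat.testBit_two_pow_sub_one, decide_eq_true_iff]
    exact ((hbit i p).1 h).2.1
  · obtain ⟨Ω, hΩ⟩ : ∃ Ω : Finset (Fin (M + 1)), ∀ i, i ∈ Ω ↔ (i : ℕ) < k + 1 :=
      ⟨Finset.univ.filter fun i : Fin (M + 1) => (i : ℕ) < k + 1, fun i => by simp⟩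
    have hc : Ω.card = k + 1 := by
      have e : Ω = Finset.univ.image (Fin.castLE (show k + 1 ≤ M + 1 by omega)) := by
        ext i
        rw [hΩ, Finset.mem_image]
        constructor
        · exact fun h => ⟨⟨i, h⟩, Finset.mem_univ _, rfl⟩
        · rintro ⟨j, -, rfl⟩
          exact j.2
      rw [e, Finset.card_image_of_injective _ (Fin.castLE_injective _), Finset.card_univ, Fintype.card_fin]
    have hX : XT (M + 1) t = bdS Ω := by
      ext T
      constructor
      · rintro ⟨p, hp⟩
        by_cases hpk : p < k + 1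
        · show T ⊂ Ω
          refine lt_of_le_of_ne (fun i hi => (hΩ i).2 ((hbit i p).1 (hp i hi)).1) fun e => ?_
          have h4 : (⟨p, by omega⟩ : Fin (M + 1)) ∈ T := by
            rw [e, hΩ]
            exact hpk
          exact ((hbit _ p).1 (hp _ h4)).2.2 rfl
        · have h4 : T = ∅ := by
            rw [← Finset.subset_empty]
            intro i hi
            exact absurd ((hbit i p).1 (hp i hi)).2.1 hpk
          subst h4
          show ∅ ⊂ Ω
          rw [Finset.empty_ssubset, ← Finset.card_pos, hc]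
          omega
      · intro hT
        have hT' : T ⊂ Ω := hT
        obtain ⟨v, hv, hvT⟩ := Finset.exists_of_ssubset hT'
        refine ⟨v, fun i hi => (hbit i v).2 ⟨(hΩ i).1 (hT'.1 hi), (hΩ v).1 hv, fun e => ?_⟩⟩
        have : v = i := Fin.ext e
        subst this
        exact hvT hi
    rw [hX]
    exact Good_bdS _ k hc

/-! ### The test of membership -/

/-- the intersection of the columns of the vertices in the set `s` -/
def an (t : Tr) : ℕ → ℕ → ℕ :=
  Tr.rec (motive := fun _ => ℕ → ℕ → ℕ)
    (fun c s acc => Bool.rec (motive := fun _ => ℕ) (Nat.land acc c) acc (Nat.beq (Nat.land s 1) 0))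
    (fun t _ ih1 ih2 s acc => Bool.rec (motive := fun _ => ℕ)
      (ih2 (Nat.shiftRight s (sz t)) (ih1 (Nat.land s (Nat.sub (Nat.pow 2 (sz t)) 1)) acc)) acc (Nat.beq s 0)) t

theorem an_spec : ∀ (t : Tr) (s acc p : ℕ), s < 2 ^ sz t → ((an t s acc).testBit p = true ↔ acc.testBit p = true ∧
    ∀ i, s.testBit i = true → (col t i).testBit p = true)
  | .l c, s, acc, p, hs => by
    have hs' : s < 2 := hs
    have e : an (.l c) s acc = Bool.rec (motive := fun _ => ℕ) (Nat.land acc c) acc (Nat.beq (Nat.land s 1) 0) := rfl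
    rw [e]
    have h01 : s = 0 ∨ s = 1 := by omega
    rcases h01 with rfl | rfl
    · show acc.testBit p = true ↔ _
      simp
    · show (Nat.land acc c).testBit p = true ↔ _
      rw [tb_land, Bool.and_eq_true]
      refine and_congr Iff.rfl ⟨fun h i hi => ?_, fun h => h 0 (by decide)⟩
      have : i = 0 := by
        by_contra h'
        rw [Nat.testBit_lt_two_pow (Nat.one_lt_two_pow h')] at hi
        exact Bool.noConfusion hi
      subst this
      exact h
  | .b t u, s, acc, p, hs => by
    have hs' : s < 2 ^ (sz t + sz u) := hs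
    have e : an (.b t u) s acc = Bool.rec (motive := fun _ => ℕ)
      (an u (Nat.shiftRight s (sz t)) (an t (Nat.land s (Nat.sub (Nat.pow 2 (sz t)) 1)) acc)) acc (Nat.beq s 0) := rfl
    rw [e]
    cases h0 : Nat.beq s 0
    · show (an u (Nat.shiftRight s (sz t)) (an t (Nat.land s (Nat.sub (Nat.pow 2 (sz t)) 1)) acc)).testBit p = true ↔ _
      have e1 : Nat.shiftRight s (sz t) = s >>> sz t := rfl
      have e2 : Nat.land s (Nat.sub (Nat.pow 2 (sz t)) 1) = s &&& (2 ^ sz t - 1) := rfl
      rw [e1, e2]
      rw [an_spec u _ _ p (by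
        rw [Nat.shiftRight_eq_div_pow]
        apply Nat.div_lt_of_lt_mul
        rw [← pow_add]
        exact hs'), an_spec t _ _ p (by
        rw [Nat.and_two_pow_sub_one_eq_mod]
        exact Nat.mod_lt _ (by positivity)), and_assoc]
      refine and_congr Iff.rfl ⟨?_, fun h => ⟨fun i hi => ?_, fun i hi => ?_⟩⟩
      · rintro ⟨g1, g2⟩ i hi
        rw [col_b]
        split_ifs with h1
        · apply g1
          rw [Nat.testBit_and, hi, Nat.testBit_two_pow_sub_one, decide_eq_true h1]
          rfl
        · apply g2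
          rw [Nat.testBit_shiftRight]
          rw [show sz t + (i - sz t) = i by omega]
          exact hi
      · rw [Nat.testBit_and, Nat.testBit_two_pow_sub_one, Bool.and_eq_true, decide_eq_true_iff] at hi
        have := h i hi.1
        rw [col_b, if_pos hi.2] at this
        exact this
      · rw [Nat.testBit_shiftRight] at hi
        have := h _ hi
        rw [col_b, if_neg (by omega), Nat.add_sub_cancel_left] at this
        exact this
    · show acc.testBit p = true ↔ _
      rw [beq_iff.1 h0]
      simp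

/-- the test of membership -/
def tT (t : Tr) (occ s : ℕ) : Bool :=
  bc (Nat.ble (Nat.pow 2 (sz t)) s) false (bc (Nat.beq (an t s occ) 0) false true)

theorem tT_spec {M : ℕ} {t : Tr} {occ s : ℕ} (h : tT t occ s = true) : ms (M + 1) s ∈ XT (M + 1) t := by
  obtain ⟨h1, h2⟩ := bF h
  obtain ⟨h3, -⟩ := bF h2
  have hs : s < 2 ^ sz t := by
    by_contra h'
    have h1' : Nat.ble (2 ^ sz t) s = false := h1
    rw [ble_of (not_lt.1 h')] at h1'
    exact Bool.noConfusion h1'
  obtain ⟨p, hp⟩ := Nat.exists_testBit_of_ne_zero (beqF h3)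
  exact ⟨p, fun i hi => ((an_spec t s occ p hs).1 hp).2 i (mem_ms.1 hi)⟩

/-! ### The cliques -/

/-- `s ∪ T` belongs to the complex for all cliques `T` in `cand`; the function `t` tests the membership and all the
elements of `cand` are smaller than `w` -/
def ck2 (w : ℕ) (row : ℕ → ℕ) (t : ℕ → Bool) (n : ℕ) : ℕ → ℕ → Bool :=
  Nat.rec (motive := fun _ => ℕ → ℕ → Bool) (fun s cand => bc (t s) (Nat.beq cand 0) false)
    (fun _ ih s cand => bc (t s) (Nat.rec (motive := fun _ => Bool) true
      (fun j ih2 => bc (Nat.beq (Nat.land cand (Nat.pow 2 j)) 0) ih2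
        (bc (ih (Nat.lor s (Nat.pow 2 j)) (Nat.land (Nat.land cand (row j)) (Nat.sub (Nat.pow 2 j) 1))) ih2 false)) w)
      false) n

theorem ck2_spec {m w : ℕ} {row : ℕ → ℕ} {t : ℕ → Bool} {X : Set (Finset (Fin m))}
    (ht : ∀ s, t s = true → ms m s ∈ X) (n : ℕ) : ∀ s cand, cand < 2 ^ w → ck2 w row t n s cand = true →
    ∀ T : Finset (Fin m), T ⊆ ms m cand → (GR m row).IsClique (T : Set (Fin m)) → ms m s ∪ T ∈ X := by
  induction n with
  | zero =>
    intro s cand _ h T hT _
    obtain ⟨h1, h2⟩ := bT h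
    rw [beq_iff.1 h2, ms_zero, Finset.subset_empty] at hT
    rw [hT, Finset.union_empty]
    exact ht _ h1
  | succ n ih =>
    intro s cand hc h T hT hcl
    obtain ⟨h1, h2⟩ := bT h
    have loop : ∀ w' : ℕ, (Nat.rec (motive := fun _ => Bool) true
      (fun j ih2 => bc (Nat.beq (Nat.land cand (Nat.pow 2 j)) 0) ih2
        (bc (ck2 w row t n (Nat.lor s (Nat.pow 2 j)) (Nat.land (Nat.land cand (row j)) (Nat.sub (Nat.pow 2 j) 1))) ih2
          false)) w' : Bool) = true → ∀ j < w', cand.testBit j = true →
      ck2 w row t n (Nat.lor s (Nat.pow 2 j)) (Nat.land (Nat.land cand (row j)) (Nat.sub (Nat.pow 2 j) 1)) = true := by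
      intro w'
      induction w' with
      | zero =>
        intro _ j hj
        omega
      | succ w' ihw =>
        intro h3 j hj hb
        have h3' : bc (Nat.beq (Nat.land cand (Nat.pow 2 w')) 0) (Nat.rec (motive := fun _ => Bool) true
          (fun j ih2 => bc (Nat.beq (Nat.land cand (Nat.pow 2 j)) 0) ih2
            (bc (ck2 w row t n (Nat.lor s (Nat.pow 2 j)) (Nat.land (Nat.land cand (row j)) (Nat.sub (Nat.pow 2 j) 1)))
              ih2 false)) w' : Bool) (bc (ck2 w row t n (Nat.lor s (Nat.pow 2 w'))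
              (Nat.land (Nat.land cand (row w')) (Nat.sub (Nat.pow 2 w') 1))) (Nat.rec (motive := fun _ => Bool) true
          (fun j ih2 => bc (Nat.beq (Nat.land cand (Nat.pow 2 j)) 0) ih2
            (bc (ck2 w row t n (Nat.lor s (Nat.pow 2 j)) (Nat.land (Nat.land cand (row j)) (Nat.sub (Nat.pow 2 j) 1)))
              ih2 false)) w' : Bool) false) = true := h3
        by_cases e : j = w'
        · subst e
          cases h4 : Nat.beq (Nat.land cand (Nat.pow 2 j)) 0
          · rw [h4] at h3'
            exact (bT h3').1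
          · have := land_pow.1 (beq_iff.1 h4)
            rw [hb] at this
            exact Bool.noConfusion this
        · refine ihw ?_ j (by omega) hb
          cases h4 : Nat.beq (Nat.land cand (Nat.pow 2 w')) 0
          · rw [h4] at h3'
            exact (bT h3').2
          · rw [h4] at h3'
            exact h3'
    rcases T.eq_empty_or_nonempty with rfl | hne
    · rw [Finset.union_empty]
      exact ht _ h1
    · obtain ⟨v, hv⟩ : ∃ v, v = T.max' hne := ⟨_, rfl⟩
      have hvT : v ∈ T := hv ▸ Finset.max'_mem T hne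
      have hvc := mem_ms.1 (hT hvT)
      have hvw : (v : ℕ) < w := by
        by_contra h'
        rw [Nat.testBit_lt_two_pow (hc.trans_le (Nat.pow_le_pow_right (by norm_num) (not_lt.1 h')))] at hvc
        exact Bool.noConfusion hvc
      have h3 := loop w h2 v hvw hvc
      have hc' : Nat.land (Nat.land cand (row v)) (Nat.sub (Nat.pow 2 v) 1) < 2 ^ w := by
        refine lt_of_le_of_lt ?_ hc
        exact Nat.and_le_left.trans Nat.and_le_left
      have h4 := ih _ _ hc' h3 (T.erase v) ?_ ?_
      · rw [ms_or, ms_pow] at h4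
        have e : ms m s ∪ {v} ∪ T.erase v = ms m s ∪ T := by
          ext u
          simp only [Finset.mem_union, Finset.mem_singleton, Finset.mem_erase]
          constructor
          · rintro ((h | h) | h)
            · exact Or.inl h
            · exact Or.inr (h ▸ hvT)
            · exact Or.inr h.2
          · rintro (h | h)
            · exact Or.inl (Or.inl h)
            · by_cases e : u = v
              · exact Or.inl (Or.inr e)
              · exact Or.inr ⟨e, h⟩
        rw [e] at h4
        exact h4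
      · intro u hu
        obtain ⟨h5, h6⟩ := Finset.mem_erase.1 hu
        have h7 : u < v := lt_of_le_of_ne (hv ▸ Finset.le_max' T u h6) h5
        have h8 := hcl hvT h6 (Ne.symm h5)
        rw [mem_ms]
        show ((cand &&& row v) &&& (2 ^ (v : ℕ) - 1)).testBit u = true
        rw [Nat.testBit_and, Nat.testBit_and, mem_ms.1 (hT h6), h8.2.1, Nat.testBit_two_pow_sub_one,
          decide_eq_true_iff.2 (show (u : ℕ) < v from h7)]
        rfl
      · exact hcl.subset (Finset.coe_subset.2 (Finset.erase_subset _ _))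

end Pool.Agent.H831.FX
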