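import Pool.Agent.H831.FX

/-!
# The form of the certificates
-/

set_option autoImplicit false

noncomputable section

namespace Pool.Agent.H831.FX

open Module Pool.Agent.W907.SG
open Pool.Agent.H944.FS
open Pool.Agent.N496.LT.Lt (Sph Dbl)

/-- The form of the certificates: `rows` are the rows of the adjacency matrix of the graph, `jt` and `jf` are the two
lifts of the vertices, `U` is the list of the undoubled vertices, `zl` is the list of the simplices of the cycle with
their coefficients, `κ` is the list of the colours. -/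
theorem cert {d p : ℕ} [Fact p.Prime] (M w : ℕ) {t : Tr} {occ : ℕ} (hG : Gs M (2 * d + 1) t occ)
    (rows : List ℕ) (m : ℕ) (jt jf κ : List ℕ) (Um : ℕ) (zl : List (ℕ × ℤ)) (used : ℕ)
    (c0 : Nat.ble (Nat.pow 2 w) used = false)
    (c1 : ck2 w (fun i => rows.getD i 0) (tT t occ) (d + 1) 0 used = true)
    (c2 : ∀ i < M + 1, used.testBit i = false → rows.getD i 0 = 0)
    (c3 : ∀ v < m, jt.getD v 0 < M + 1 ∧ jf.getD v 0 < M + 1 ∧ used.testBit (jt.getD v 0) = true ∧
      used.testBit (jf.getD v 0) = true ∧ κ.getD v 0 < d + 1)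
    (c4 : ∀ v < m, ∀ w < m, v ≠ w → jt.getD v 0 ≠ jt.getD w 0 ∧ jt.getD v 0 ≠ jf.getD w 0 ∧ jf.getD v 0 ≠ jt.getD w 0 ∧
      jf.getD v 0 ≠ jf.getD w 0)
    (c5 : ∀ v < m, Um.testBit v = true → jt.getD v 0 = jf.getD v 0)
    (c6 : ∀ v < m, Um.testBit v = false → jt.getD v 0 ≠ jf.getD v 0 ∧
      (rows.getD (jt.getD v 0) 0).testBit (jf.getD v 0) = false)
    (c7 : ∀ v < m, ∀ w < m, Um.testBit v = true → Um.testBit w = true → v ≠ w →
      (rows.getD (jt.getD v 0) 0).testBit (jt.getD w 0) = true)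
    (c8 : ∀ q ∈ zl, q.1 < 2 ^ m ∧ ((List.range m).filter fun i => q.1.testBit i).length = d + 1 ∧
      ∀ v < m, ∀ w < m, q.1.testBit v = true → q.1.testBit w = true → v ≠ w →
        (rows.getD (jt.getD v 0) 0).testBit (jt.getD w 0) = true ∧
        (rows.getD (jt.getD v 0) 0).testBit (jf.getD w 0) = true ∧
        (rows.getD (jf.getD v 0) 0).testBit (jt.getD w 0) = true ∧
        (rows.getD (jf.getD v 0) 0).testBit (jf.getD w 0) = true)
    (c9 : ∀ r ∈ zl.flatMap (fl m), (p : ℤ) ∣ fs (zl.flatMap (fl m)) r.1)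
    (c10 : ∃ q ∈ zl, ¬ (p : ℤ) ∣ fs zl q.1)
    (c11 : ∀ v < m, ∀ w < m, κ.getD v 0 = κ.getD w 0 → (rows.getD (jt.getD v 0) 0).testBit (jt.getD w 0) = false ∧
        (rows.getD (jt.getD v 0) 0).testBit (jf.getD w 0) = false ∧
        (rows.getD (jf.getD v 0) 0).testBit (jt.getD w 0) = false ∧
        (rows.getD (jf.getD v 0) 0).testBit (jf.getD w 0) = false) :
    ∃ (N : ℕ) (H : SimpleGraph (Fin N)), Good (2 * d + 1) (cl H) ∧ ∃ (Z : Dbl (ZMod p) H d) (κ' : Fin Z.n → Fin (d + 1)),
      Z.U.card = (ms m Um).card ∧ ∀ v w a b, H.Adj (Z.j v a) (Z.j w b) → κ' v ≠ κ' w := by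
  obtain ⟨-, -, e4⟩ := hG
  obtain ⟨row, hrow⟩ : ∃ row : ℕ → ℕ, row = fun i => rows.getD i 0 := ⟨_, rfl⟩
  have hr : ∀ i, rows.getD i 0 = row i := fun i => by rw [hrow]
  rw [← hrow] at c1
  simp only [hr] at c2 c6 c7 c8 c11
  have ht : ∀ s, tT t occ s = true → ms (M + 1) s ∈ XT (M + 1) t := fun s hs => tT_spec hs
  have hw : used < 2 ^ w := by
    by_contra h'
    have c0' : Nat.ble (2 ^ w) used = false := c0
    rw [ble_of (not_lt.1 h')] at c0'
    exact Bool.noConfusion c0'
  -- all the subsets of the used vertices which are cliques belong to `X`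
  have hcl : ∀ T : Finset (Fin (M + 1)), T ⊆ ms (M + 1) used → (GR (M + 1) row).IsClique (T : Set (Fin (M + 1))) →
      T ∈ XT (M + 1) t := by
    intro T hT hT2
    have := ck2_spec ht _ _ _ hw c1 T hT hT2
    rwa [ms_zero, Finset.empty_union] at this
  -- membership of the vertices
  have hv1 : ∀ i : Fin (M + 1), used.testBit i = true → {i} ∈ XT (M + 1) t := by
    intro i hi
    exact hcl {i} (by rw [Finset.singleton_subset_iff]; exact mem_ms.2 hi) (by simp)
  have hemp : ∅ ∈ XT (M + 1) t := by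
    apply hcl ∅ (Finset.empty_subset _)
    simp
  have hA : ∀ T : Finset (Fin (M + 1)), (GR (M + 1) row).IsClique (T : Set (Fin (M + 1))) →
      (∀ u ∈ T, {u} ∈ XT (M + 1) t) → T ∈ XT (M + 1) t := by
    intro T hT hT2
    by_cases h1 : T ⊆ ms (M + 1) used
    · exact hcl T h1 hT
    · obtain ⟨x, hx, hx2⟩ := Finset.not_subset.1 h1
      have h2 : used.testBit x = false := by
        rw [mem_ms, Bool.not_eq_true] at hx2
        exact hx2
      have h3 := c2 x x.2 h2
      have h4 : T = {x} := by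
        rw [Finset.eq_singleton_iff_unique_mem]
        refine ⟨hx, fun y hy => ?_⟩
        by_contra h5
        have h6 := hT hx hy (Ne.symm h5)
        have h7 := h6.2.1
        rw [h3, Nat.zero_testBit] at h7
        exact Bool.noConfusion h7
      rw [h4]
      exact hT2 x hx
  let jj : Fin m → Bool → Fin (M + 1) := fun v a =>
    if a = true then ⟨jt.getD v 0, (c3 v v.2).1⟩ else ⟨jf.getD v 0, (c3 v v.2).2.1⟩
  have jT : ∀ v : Fin m, jj v true = ⟨jt.getD v 0, (c3 v v.2).1⟩ := fun v => if_pos rfl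
  have jF : ∀ v : Fin m, jj v false = ⟨jf.getD v 0, (c3 v v.2).2.1⟩ := fun v => if_neg (by simp)
  -- the cycle
  have hzlt : ∀ q ∈ zl, q.1 < 2 ^ m := fun q hq => (c8 q hq).1
  have hcard : ∀ q ∈ zl, (ms m q.1).card = d + 1 := by
    intro q hq
    rw [← (c8 q hq).2.1]
    have h1 : (ms m q.1).card = ((Finset.range m).filter fun i => q.1.testBit i = true).card := by
      refine Finset.card_bij (fun u _ => (u : ℕ)) ?_ ?_ ?_
      · intro u hu
        rw [Finset.mem_filter, Finset.mem_range]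
        exact ⟨u.2, mem_ms.1 hu⟩
      · intro u _ w _ h
        exact Fin.ext h
      · intro i hi
        rw [Finset.mem_filter, Finset.mem_range] at hi
        exact ⟨⟨i, hi.1⟩, mem_ms.2 hi.2, rfl⟩
    have h2 : (Finset.range m).filter (fun i => q.1.testBit i = true) =
        ((List.range m).filter fun i => q.1.testBit i).toFinset := by
      ext i
      simp
    rw [h1, h2, List.toFinset_card_of_nodup (List.nodup_range.filter _)]
  refine final (M + 1) (XT (M + 1) t) e4 (GR (M + 1) row) hA m jj ?_ ?_ (ms m Um) ?_ ?_ ?_ (zc p m zl) ?_ ?_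
    (zc_cyc p m zl hzlt c9) ?_ (fun v => ⟨κ.getD v 0, (c3 v v.2).2.2.2.2⟩) ?_
  · intro v a
    cases a
    · rw [jF]
      exact hv1 _ (c3 v v.2).2.2.2.1
    · rw [jT]
      exact hv1 _ (c3 v v.2).2.2.1
  · intro v w hvw a b
    have h1 := c4 v v.2 w w.2 fun e => hvw (Fin.ext e)
    cases a <;> cases b
    · rw [jF, jF]; exact fun e => h1.2.2.2 (congrArg Fin.val e)
    · rw [jF, jT]; exact fun e => h1.2.2.1 (congrArg Fin.val e)
    · rw [jT, jF]; exact fun e => h1.2.1 (congrArg Fin.val e)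
    · rw [jT, jT]; exact fun e => h1.1 (congrArg Fin.val e)
  · intro v hv
    rw [jT, jF]
    exact Fin.ext (c5 v v.2 (mem_ms.1 hv))
  · intro v hv
    rw [mem_ms, Bool.not_eq_true] at hv
    have h1 := c6 v v.2 hv
    rw [jT, jF]
    refine ⟨fun e => h1.1 (congrArg Fin.val e), fun e => ?_⟩
    have h2 := e.2.1
    have h3 : (row (jt.getD v 0)).testBit (jf.getD v 0) = true := h2
    rw [h1.2] at h3
    exact Bool.noConfusion h3
  · intro v hv w hw hvw
    have hne : (v : ℕ) ≠ w := fun e => hvw (Fin.ext e)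
    have h1 := c7 v v.2 w w.2 (mem_ms.1 hv) (mem_ms.1 hw) hne
    have h2 := c7 w w.2 v v.2 (mem_ms.1 hw) (mem_ms.1 hv) (Ne.symm hne)
    rw [jT, jT]
    exact ⟨fun e => (c4 v v.2 w w.2 hne).1 (congrArg Fin.val e), h1, h2⟩
  · obtain ⟨q, hq, hq2⟩ := c10
    intro e
    have e2 : zc p m zl (ms m q.1) = 0 := by rw [e]; rfl
    apply hq2
    rw [← CharP.intCast_eq_zero_iff (ZMod p) p]
    refine Eq.trans ?_ e2
    unfold fs zc
    have key : ∀ l : List (ℕ × ℤ), (∀ s ∈ l, s.1 < 2 ^ m) →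
        (((l.map fun s => if s.1 = q.1 then s.2 else 0).sum : ℤ) : ZMod p) =
        (l.map fun s => if ms m s.1 = ms m q.1 then (s.2 : ZMod p) else 0).sum := by
      intro l
      induction l with
      | nil => intro _; simp
      | cons s l ih =>
        intro hl
        rw [List.map_cons, List.sum_cons, List.map_cons, List.sum_cons, Int.cast_add,
          ih fun s hs => hl s (List.mem_cons_of_mem _ hs)]
        congr 1
        by_cases h2 : s.1 = q.1
        · rw [if_pos h2, if_pos (by rw [h2])]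
        · rw [if_neg h2, if_neg fun h3 => h2 (ms_inj (hl s List.mem_cons_self) (hzlt q hq) h3), Int.cast_zero]
    exact key _ hzlt
  · intro σ hσ
    obtain ⟨q, hq, rfl⟩ := zc_mem hσ
    exact hcard q hq
  · intro σ hσ v hv w hw hvw a b
    obtain ⟨q, hq, rfl⟩ := zc_mem hσ
    have hne : (v : ℕ) ≠ w := fun e => hvw (Fin.ext e)
    obtain ⟨g1, g2, g3, g4⟩ := (c8 q hq).2.2 v v.2 w w.2 (mem_ms.1 hv) (mem_ms.1 hw) hne
    obtain ⟨k1, k2, k3, k4⟩ := (c8 q hq).2.2 w w.2 v v.2 (mem_ms.1 hw) (mem_ms.1 hv) (Ne.symm hne)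
    have h1 := c4 v v.2 w w.2 hne
    cases a <;> cases b
    · rw [jF, jF]; exact ⟨fun e => h1.2.2.2 (congrArg Fin.val e), g4, k4⟩
    · rw [jF, jT]; exact ⟨fun e => h1.2.2.1 (congrArg Fin.val e), g3, k2⟩
    · rw [jT, jF]; exact ⟨fun e => h1.2.1 (congrArg Fin.val e), g2, k3⟩
    · rw [jT, jT]; exact ⟨fun e => h1.1 (congrArg Fin.val e), g1, k1⟩
  · intro v w a b hadj e
    have e' : κ.getD v 0 = κ.getD w 0 := congrArg Fin.val e
    obtain ⟨g1, g2, g3, g4⟩ := c11 v v.2 w w.2 e'
    have h2 := hadj.2.1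
    cases a <;> cases b
    · rw [jF, jF] at h2
      have h3 : (row (jf.getD v 0)).testBit (jf.getD w 0) = true := h2
      rw [g4] at h3; exact Bool.noConfusion h3
    · rw [jF, jT] at h2
      have h3 : (row (jf.getD v 0)).testBit (jt.getD w 0) = true := h2
      rw [g3] at h3; exact Bool.noConfusion h3
    · rw [jT, jF] at h2
      have h3 : (row (jt.getD v 0)).testBit (jf.getD w 0) = true := h2
      rw [g2] at h3; exact Bool.noConfusion h3
    · rw [jT, jT] at h2
      have h3 : (row (jt.getD v 0)).testBit (jt.getD w 0) = true := h2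
      rw [g1] at h3; exact Bool.noConfusion h3

end Pool.Agent.H831.FX
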