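import Pool.Agent.H831.Sg6

/-!
# The torsion of the singular homology of the coverings
-/

set_option autoImplicit false

open CategoryTheory AlgebraicTopology Limits

noncomputable section

namespace Pool.Agent.H831.Sg

open Pool.Agent.N496.LT.Lt Pool.Agent.H831.Res Pool.Agent.H831.Kun

/-- a group with a surjective map from the cycles, the kernel of which are the boundaries -/
theorem hq_of {A2 A1 A0 H : Type} [AddCommGroup A2] [AddCommGroup A1] [AddCommGroup A0] [AddCommGroup H]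
    (d2 : A2 →+ A1) (d1 : A1 →+ A0) (c : d1.ker →+ H) (hc : Function.Surjective c)
    (hk : ∀ z, c z = 0 ↔ ∃ y, d2 y = z.1) : Nonempty (Hq d2 d1 ≃+ H) := by
  have e : d2.range.addSubgroupOf d1.ker = c.ker := by
    ext z
    rw [AddMonoidHom.mem_ker, hk]
    exact Iff.rfl
  have f1 : Hq d2 d1 ≃+ d1.ker ⧸ c.ker := QuotientAddGroup.quotientAddEquivOfEq e
  exact ⟨f1.trans (QuotientAddGroup.quotientKerEquivOfSurjective c hc)⟩

/-- **Integral singular homology** (Mathlib's). -/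
def SH (n : ℕ) (Y : Type) [TopologicalSpace Y] : ModuleCat.{0} ℤ :=
  ((singularHomologyFunctor (ModuleCat.{0} ℤ) n).obj (ModuleCat.of ℤ ℤ)).obj (TopCat.of Y)

theorem sh_iso (n : ℕ) (Y : Type) [TopologicalSpace Y] :
    Nonempty (Hq (bdr (TS Y) (n + 1)) (bdr (TS Y) n) ≃+ SH (n + 1) Y) := by
  let T := TS Y
  let S := (Fc.obj T).sc' (n + 2) (n + 1) n
  -- the homology of the complex `Fc`
  let e1 : SH (n + 1) Y ≅ (Fc.obj T).homology (n + 1) :=
    (HomologicalComplex.homologyFunctor _ _ (n + 1)).mapIso (isoS.app (TopCat.of Y))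
  let e2 : (Fc.obj T).homology (n + 1) ≅ S.homology :=
    (Fc.obj T).homologyIsoSc' (n + 2) (n + 1) n (by simp) (by simp)
  let e3 : S.homology ≅ ModuleCat.of ℤ (LinearMap.ker S.g.hom ⧸ LinearMap.range S.moduleCatToCycles) :=
    S.moduleCatHomologyIso
  let e : (LinearMap.ker S.g.hom ⧸ LinearMap.range S.moduleCatToCycles) ≃ₗ[ℤ] SH (n + 1) Y :=
    (e1 ≪≫ e2 ≪≫ e3).symm.toLinearEquiv
  let c0 : LinearMap.ker S.g.hom →ₗ[ℤ] (LinearMap.ker S.g.hom ⧸ LinearMap.range S.moduleCatToCycles) :=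
    Submodule.mkQ _
  have hc0 : Function.Surjective c0 := Submodule.mkQ_surjective _
  let i : (bdr T n).ker →+ LinearMap.ker S.g.hom :=
  { toFun := fun z => ⟨z.1, z.2⟩
    map_zero' := rfl
    map_add' := fun _ _ => rfl }
  refine hq_of _ _ ((e.toAddEquiv.toAddMonoidHom.comp c0.toAddMonoidHom).comp i) ?_ ?_
  · intro x
    obtain ⟨y, rfl⟩ := e.surjective x
    obtain ⟨z, rfl⟩ := hc0 y
    exact ⟨⟨z.1, z.2⟩, rfl⟩
  · intro z
    have h1 : e (c0 (i z)) = 0 ↔ c0 (i z) = 0 := e.map_eq_zero_iff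
    refine h1.trans ?_
    have h2 : c0 (i z) = 0 ↔ i z ∈ LinearMap.range S.moduleCatToCycles := Submodule.Quotient.mk_eq_zero _
    refine h2.trans ?_
    constructor
    · rintro ⟨y, hy⟩
      exact ⟨y, congrArg Subtype.val hy⟩
    · rintro ⟨y, hy⟩
      exact ⟨y, Subtype.ext hy⟩

/-- the order of the torsion subgroup -/
def tor (A : Type) [AddCommGroup A] : ℕ := Nat.card (AddCommGroup.torsion A)

theorem tor_congr {A B : Type} [AddCommGroup A] [AddCommGroup B] (e : A ≃+ B) : tor A = tor B := by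
  refine Nat.card_congr (e.toEquiv.subtypeEquiv fun a => ?_)
  show IsOfFinAddOrder a ↔ IsOfFinAddOrder (e a)
  exact (Function.Injective.isOfFinAddOrder_iff (f := e.toAddMonoidHom) e.injective).symm

theorem tors_eq {G : Type} [Group G] (C : BCx G) (n : ℕ) :
    C.tors (n + 1) = tor (Hq (chD C (n + 1)) (chD C n)) := by
  let f : C.TCy (n + 1) → AddCommGroup.torsion (Hq (chD C (n + 1)) (chD C n)) := fun v =>
    ⟨QuotientAddGroup.mk ⟨⟨v.1, v.2.1⟩, Subtype.ext v.2.2.1⟩, by
      obtain ⟨m, hm, u, hu, hu'⟩ := v.2.2.2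
      show IsOfFinAddOrder _
      rw [isOfFinAddOrder_iff_nsmul_eq_zero]
      refine ⟨m, hm, ?_⟩
      rw [← QuotientAddGroup.mk_nsmul, QuotientAddGroup.eq_zero_iff]
      exact ⟨⟨u, hu⟩, Subtype.ext hu'⟩⟩
  have hf : ∀ v w : C.TCy (n + 1), f v = f w ↔ ∃ u, C.IsCh (n + 2) u ∧ C.bd u = v.1 - w.1 := by
    intro v w
    rw [← Subtype.coe_inj]
    show (QuotientAddGroup.mk _ : Hq (chD C (n + 1)) (chD C n)) = QuotientAddGroup.mk _ ↔ _
    rw [eq_comm, QuotientAddGroup.eq]
    constructor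
    · rintro ⟨y, hy⟩
      refine ⟨y.1, y.2, ?_⟩
      have h1 := congrArg Subtype.val hy
      have h2 : C.bd y.1 = -w.1 + v.1 := h1
      rw [h2]
      abel
    · rintro ⟨u, hu, hu'⟩
      refine ⟨⟨u, hu⟩, Subtype.ext ?_⟩
      show C.bd u = -w.1 + v.1
      rw [hu']
      abel
  refine Nat.card_congr (Equiv.ofBijective (Quot.lift f fun v w h => (hf v w).2 h) ⟨?_, ?_⟩)
  · rintro ⟨v⟩ ⟨w⟩ h
    exact Quot.sound ((hf v w).1 h)
  · rintro ⟨x, hx⟩
    obtain ⟨z, rfl⟩ := QuotientAddGroup.mk_surjective x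
    have h1 : IsOfFinAddOrder (QuotientAddGroup.mk z : Hq (chD C (n + 1)) (chD C n)) := hx
    rw [isOfFinAddOrder_iff_nsmul_eq_zero] at h1
    obtain ⟨m, hm, h2⟩ := h1
    rw [← QuotientAddGroup.mk_nsmul, QuotientAddGroup.eq_zero_iff] at h2
    obtain ⟨y, hy⟩ := h2
    refine ⟨Quot.mk _ ⟨z.1.1, z.1.2, congrArg Subtype.val z.2, m, hm, y.1, y.2, congrArg Subtype.val hy⟩, ?_⟩
    rfl

/-- **The torsion of the integral singular homology of the coverings.** Let `X` be a contractible space with a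
covering space action of `G`, `C` a free resolution of `ℤ` over `ℤ[G]` and `K` a normal subgroup of `G`. Then the
order of the torsion subgroup of the singular homology group `H_{n+1}(X / K; ℤ)` is the order of the torsion subgroup
of the homology of the complex `C` reduced to `ℤ[G / K]`. -/
theorem tors_sing {G X M : Type} [Group G] [TopologicalSpace X] [TopologicalSpace M] [MulAction G X]
    [ContractibleSpace X] {π : X → M} (h : IsQuotientCoveringMap π G) (C : BCx G) (hC : IsRes C) (K : Subgroup G)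
    [K.Normal] (n : ℕ) : (C.quot K).tors (n + 1) = tor (SH (n + 1) (XK K X)) := by
  have := h.toContinuousConstSMul
  have hf : ∀ (g : G) (x : X), g • x = x → g = 1 := fun g x hx =>
    h.isCancelSMul.right_cancel' g 1 x (by rw [hx, one_smul])
  obtain ⟨e1⟩ := Qd.iso (quotC C K hC) (quotS K hf h) (AddMonoidHom.id ℤ) (AddMonoidHom.id ℤ) (fun _ _ => rfl)
    (fun _ _ => rfl) (fun _ => rfl) (fun _ => rfl) n
  obtain ⟨e2⟩ := sh_iso n (XK K X)
  rw [tors_eq]
  exact tor_congr (e1.trans e2)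

end Pool.Agent.H831.Sg
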