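import Pool.Agent.H831.Cov4
import Pool.Agent.H831.Sg7
import Pool.Agent.H944.FS11
import Pool.Graph.R_pool_sql_team_seeded_63374d34.N496.LT.L2

/-!
# Torsion growth: the final statements
-/

set_option autoImplicit false

open Filter Topology

noncomputable section

namespace Pool.Agent.H831.Fin

open Pool.Agent.N496.LT Pool.Agent.N496.LT.Lt Pool.Agent.H831.Kun Pool.Agent.H831.Sg Pool.Agent.H831.Cov
open Pool.Agent.H944.FS (Good cl MA Good_Sub Sph_of)

/-! ### The homology of a contractible space -/

theorem tor_one {Y : Type} [TopologicalSpace Y] [ContractibleSpace Y] (n : ℕ) : tor (SH (n + 1) Y) = 1 := by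
  obtain ⟨e⟩ := sh_iso n Y
  rw [← tor_congr e]
  have h1 : Subsingleton (Hq (bdr (TS Y) (n + 1)) (bdr (TS Y) n)) := by
    refine ⟨fun a b => ?_⟩
    obtain ⟨x, rfl⟩ := QuotientAddGroup.mk_surjective a
    obtain ⟨y, rfl⟩ := QuotientAddGroup.mk_surjective b
    rw [QuotientAddGroup.eq]
    obtain ⟨z, hz⟩ := (contr_exact Y).2.1 n (-x + y).1 (-x + y).2
    exact ⟨z, hz⟩
  unfold tor
  rw [Nat.card_eq_one_iff_unique]
  exact ⟨⟨fun a b => Subtype.ext (Subsingleton.elim _ _)⟩, ⟨0⟩⟩

/-- the quotient by the trivial group -/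
theorem contr_bot {G X M : Type} [Group G] [TopologicalSpace X] [TopologicalSpace M] [MulAction G X]
    [ContractibleSpace X] {π : X → M} (h : IsQuotientCoveringMap π G) : ContractibleSpace (XK (⊥ : Subgroup G) X) := by
  have h1 : IsQuotientCoveringMap (pK (⊥ : Subgroup G) : X → XK (⊥ : Subgroup G) X) (⊥ : Subgroup G) := cov_K _ h
  have h2 : Function.Injective (pK (⊥ : Subgroup G) : X → XK (⊥ : Subgroup G) X) := by
    intro x y hxy
    obtain ⟨⟨g, hg⟩, hg'⟩ := h1.apply_eq_iff_mem_orbit.1 hxy
    have h3 : g = 1 := Subgroup.mem_bot.1 hg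
    subst h3
    have h4 : (1 : G) • y = x := hg'
    rw [one_smul] at h4
    exact h4.symm
  have h3 : IsHomeomorph (pK (⊥ : Subgroup G) : X → XK (⊥ : Subgroup G) X) :=
    ⟨h1.isOpenQuotientMap.continuous, h1.isOpenQuotientMap.isOpenMap, h2, h1.surjective⟩
  exact (h3.homeomorph).symm.toHomotopyEquiv.contractibleSpace

/-! ### Strictly decreasing chains -/

theorem chain {G : Type} [Group G] (N : ℕ → Subgroup G) [hN : ∀ i, (N i).Normal] (hf : ∀ i, (N i).FiniteIndex)
    (ha : Antitone N) (hi : ⨅ i, N i = ⊥) (hb : ∀ i, N i ≠ ⊥) :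
    ∃ (L : ℕ → Subgroup G), (∀ i, (L i).Normal) ∧ L 0 = ⊤ ∧ (∀ i, (L i).FiniteIndex) ∧ StrictAnti L ∧ ⨅ i, L i = ⊥ := by
  -- the chain starting with the whole group
  let N' : ℕ → Subgroup G := fun i => Nat.casesOn i ⊤ N
  have h0 : N' 0 = ⊤ := rfl
  have hs : ∀ i, N' (i + 1) = N i := fun i => rfl
  have hne : ∀ i, N' i ≠ ⊥ := by
    intro i
    cases i with
    | zero =>
      intro e
      exact hb 0 (le_bot_iff.1 (le_top.trans_eq e))
    | succ i => exact hb i
  have ha' : Antitone N' := by
    refine antitone_nat_of_succ_le fun i => ?_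
    cases i with
    | zero => exact le_top
    | succ i => exact ha (Nat.le_succ i)
  have hi' : ⨅ i, N' i = ⊥ := le_bot_iff.1 ((le_iInf fun i => iInf_le N' (i + 1)).trans_eq hi)
  have hstep : ∀ i, ∃ j, i < j ∧ N' j < N' i := by
    intro i
    by_contra h
    push Not at h
    have h1 : ∀ j, N' i ≤ N' j := by
      intro j
      rcases le_or_gt j i with hj | hj
      · exact ha' hj
      · have h2 := h j hj
        have h3 := ha' hj.le
        by_contra h4
        exact h2 (lt_of_le_of_ne h3 fun e => h4 e.ge)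
    exact hne i (le_bot_iff.1 ((le_iInf h1).trans_eq hi'))
  choose s hs1 hs2 using hstep
  let φ : ℕ → ℕ := fun k => s^[k] 0
  have hφ : ∀ k, φ (k + 1) = s (φ k) := fun k => Function.iterate_succ_apply' s k 0
  have hφm : StrictMono φ := strictMono_nat_of_lt_succ fun k => by rw [hφ]; exact hs1 _
  refine ⟨fun k => N' (φ k), fun k => ?_, h0, fun k => ?_, ?_, ?_⟩
  · show (N' (φ k)).Normal
    cases φ k with
    | zero => exact (inferInstance : (⊤ : Subgroup G).Normal)
    | succ i => exact hN i
  · show (N' (φ k)).FiniteIndex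
    cases φ k with
    | zero => exact (inferInstance : (⊤ : Subgroup G).FiniteIndex)
    | succ i => exact hf i
  · exact strictAnti_nat_of_succ_lt fun k => by rw [hφ]; exact hs2 _
  · refine le_bot_iff.1 ((le_iInf fun i => ?_).trans_eq hi')
    exact (iInf_le (fun k => N' (φ k)) i).trans (ha' (hφm.id_le i))

theorem prod_bot {A B : Type} [Group A] [Group B] (L : ℕ → Subgroup A) (K : ℕ → Subgroup B) (h1 : ⨅ i, L i = ⊥)
    (h2 : ⨅ i, K i = ⊥) : ⨅ i, (L i).prod (K i) = ⊥ := by
  rw [eq_bot_iff]
  intro x hx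
  rw [Subgroup.mem_iInf] at hx
  rw [Subgroup.mem_bot]
  refine Prod.ext ?_ ?_
  · have : x.1 ∈ ⨅ i, L i := by
      rw [Subgroup.mem_iInf]
      exact fun i => (Subgroup.mem_prod.1 (hx i)).1
    rw [h1, Subgroup.mem_bot] at this
    exact this
  · have : x.2 ∈ ⨅ i, K i := by
      rw [Subgroup.mem_iInf]
      exact fun i => (Subgroup.mem_prod.1 (hx i)).2
    rw [h2, Subgroup.mem_bot] at this
    exact this

theorem prod_anti {A B : Type} [Group A] [Group B] (L : ℕ → Subgroup A) (K : ℕ → Subgroup B) (h1 : StrictAnti L)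
    (h2 : StrictAnti K) : StrictAnti fun i => (L i).prod (K i) := by
  intro i j hij
  refine lt_of_le_of_ne (Subgroup.prod_mono (h1 hij).le (h2 hij).le) fun e => ?_
  refine (h1 hij).not_ge fun x hx => ?_
  have e' : (L j).prod (K j) = (L i).prod (K i) := e
  have h3 : (x, (1 : B)) ∈ (L j).prod (K j) := by
    rw [e']
    exact Subgroup.mem_prod.2 ⟨hx, (K i).one_mem⟩
  exact (Subgroup.mem_prod.1 h3).1

/-! ### The statements -/

/-- `M` is a closed connected aspherical topological manifold of dimension `m`, and `π : X → M` is its universal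
covering: `X` is contractible, the group `G` acts on `X` by deck transformations, `M` is the orbit space, and `G` is
isomorphic to the fundamental group of `M`. -/
structure UCov (m : ℕ) {M X : Type} [TopologicalSpace M] [TopologicalSpace X] (G : Type) [Group G] [MulAction G X]
    (π : X → M) : Prop where
  mfd : Mfd m M
  contractible : ContractibleSpace X
  covering : IsQuotientCoveringMap π G
  pi1 : ∀ x : M, Nonempty (FundamentalGroup M x ≃* G)

/-- A strictly decreasing sequence of normal subgroups of finite index of `G`, the first of which is `G`, with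
trivial intersection. -/
structure Chn {G : Type} [Group G] (K : ℕ → Subgroup G) : Prop where
  normal : ∀ i, (K i).Normal
  zero : K 0 = ⊤
  finiteIndex : ∀ i, (K i).FiniteIndex
  anti : StrictAnti K
  inf : ⨅ i, K i = ⊥

/-- `log |tors H_n(X / K; ℤ)| / [G : K]` -/
def rate {G : Type} [Group G] (X : Type) [TopologicalSpace X] [MulAction G X] (K : Subgroup G) (n : ℕ) : ℝ :=
  Real.log (tor (SH n (XK K X))) / K.index

theorem Chn.prod {A B : Type} [Group A] [Group B] {L : ℕ → Subgroup A} {K : ℕ → Subgroup B} (h1 : Chn L)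
    (h2 : Chn K) : Chn fun i => (L i).prod (K i) where
  normal i := by
    have := h1.normal i
    have := h2.normal i
    exact inferInstance
  zero := by
    show (L 0).prod (K 0) = ⊤
    rw [h1.zero, h2.zero, Subgroup.top_prod_top]
  finiteIndex i := by
    have := h1.finiteIndex i
    have := h2.finiteIndex i
    refine ⟨?_⟩
    rw [Subgroup.index_prod]
    exact mul_ne_zero (Subgroup.FiniteIndex.index_ne_zero) (Subgroup.FiniteIndex.index_ne_zero)
  anti := prod_anti L K h1.anti h2.anti
  inf := prod_bot L K h1.inf h2.inf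

theorem UCov.prod {a b : ℕ} {M X N Y : Type} [TopologicalSpace M] [TopologicalSpace X] [TopologicalSpace N]
    [TopologicalSpace Y] {G H : Type} [Group G] [Group H] [MulAction G X] [MulAction H Y] {π : X → M} {ρ : Y → N}
    (h1 : UCov a G π) (h2 : UCov b H ρ) :
    letI := prodAct G H X Y
    UCov (a + b) (G × H) (Prod.map π ρ) := by
  let := prodAct G H X Y
  have := h1.contractible
  have := h2.contractible
  have h3 := prod_cov h1.covering h2.covering
  exact ⟨h1.mfd.prod h2.mfd, inferInstance, h3, (asph_of inferInstance h3).2⟩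

/-- the universal covering of the real moment-angle complex -/
theorem UCov_MA {n m : ℕ} (S : SimpleGraph (Fin n)) (h : Good m (cl S)) :
    UCov m (M := MA S) (Gam S) (pr S) :=
  ⟨MA_mfd S h.emb, U_contractible S, pr_cov S, (MA_asph S).2⟩

end Pool.Agent.H831.Fin
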