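import Pool.Agent.H831.Fin

/-!
# Torsion growth: the final theorems, for a flag sphere with a doubled cycle
-/

set_option autoImplicit false

open Filter Topology

noncomputable section

namespace Pool.Agent.H831.Fin

open Pool.Agent.N496.LT.Lt Pool.Agent.H831.Kun Pool.Agent.H831.Sg Pool.Agent.H831.Cov
open Pool.Agent.H944.FS (Good PLSph cl MA Good_Sub Sph_of)

/-- the input: a flag triangulation of the sphere with a coloured doubled cycle -/
def Inp (p : ℕ) [Fact p.Prime] (d : ℕ) : Prop :=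
  ∃ (N : ℕ) (H : SimpleGraph (Fin N)), Good (2 * d + 1) (cl H) ∧
    ∃ (Z : Dbl (ZMod p) H d) (κ' : Fin Z.n → Fin (d + 1)), ∀ v w a b, H.Adj (Z.j v a) (Z.j w b) → κ' v ≠ κ' w

/-- a chain of normal subgroups -/
structure Ch0 {G : Type} [Group G] (K : ℕ → Subgroup G) : Prop where
  normal : ∀ i, (K i).Normal
  finiteIndex : ∀ i, (K i).FiniteIndex
  anti : Antitone K
  inf : ⨅ i, K i = ⊥

theorem lt3 {p : ℕ} [Fact p.Prime] (hp : p ≠ 2) {d : ℕ} (hd : 1 ≤ d) (h : Inp p d) :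
    ∃ (n : ℕ) (S : SimpleGraph (Fin n)), Good (2 * d + 1) (cl S) ∧ (∃ L : ℕ → Subgroup (Gam S), Ch0 L) ∧
      (davis S).cube.toFree.DetL2Acyclic ∧ (davis S).cube.toFree.l2torsion = 0 ∧ ∃ c : ℝ, 0 < c ∧
      ∀ (K : ℕ → Subgroup (Gam S)) (_ : ∀ i, (K i).Normal), Ch0 K → ∀ᶠ i in atTop, c ≤
        Real.log (((davis S).cube.quot ((K i).prod ((K i).prod (K i)))).tors (3 * d + 1)) /
          ((K i).prod ((K i).prod (K i))).index := by
  obtain ⟨N, H, hG, Z, κ', hκ⟩ := h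
  obtain ⟨hS, f, hf1, hf2, hf3⟩ := Sph_of H d hG
  obtain ⟨n, S, hsub, -, ⟨L, hL1, hL2, hL3, hL4⟩, -, hdet, ht0, hrate⟩ :=
    Pool.Agent.N496.LT.main3S' d N H hd hS f hf1 hf2 hf3 p hp Z.to κ' hκ
  let c : ℝ := 2 ^ n / 2 ^ Z.to.U.card / 2
  have hc0 : 0 < c := by positivity
  have hc1 : c < 2 ^ n / 2 ^ Z.to.U.card := half_lt_self (by positivity)
  have hp1 : (1 : ℝ) < p := by exact_mod_cast (Fact.out (p := p.Prime)).one_lt
  refine ⟨n, S, Good_Sub hG (sub_of hsub), ⟨L, hL1, hL2, hL3, hL4⟩, hdet, ht0, c ^ 3 * Real.log p,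
    mul_pos (pow_pos hc0 3) (Real.log_pos hp1), ?_⟩
  intro K hK hK'
  have h1 := @hrate K hK hK'.finiteIndex hK'.anti hK'.inf c hc0 hc1
  refine h1.mono fun i hi => ?_
  rw [BCx.tors_eq]
  exact hi

theorem lt2 {p : ℕ} [Fact p.Prime] (hp : p ≠ 2) {d : ℕ} (hd : 1 ≤ d) (h : Inp p d) :
    ∃ (n : ℕ) (S : SimpleGraph (Fin n)), Good (2 * d + 1) (cl S) ∧ (∃ L : ℕ → Subgroup (Gam S), Ch0 L) ∧
      ∃ c : ℝ, 0 < c ∧
      ∀ (K : ℕ → Subgroup (Gam S)) (_ : ∀ i, (K i).Normal), Ch0 K → ∀ᶠ i in atTop, ∀ m, m = 2 * d ∨ m = 2 * d + 1 →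
        c ≤ Real.log (((davis S).square.quot ((K i).prod (K i))).tors m) / ((K i).prod (K i)).index := by
  obtain ⟨N, H, hG, Z, κ', hκ⟩ := h
  obtain ⟨hS, f, hf1, hf2, hf3⟩ := Sph_of H d hG
  obtain ⟨n, S, hsub, -, ⟨L, hL1, hL2, hL3, hL4⟩, hrate⟩ :=
    Pool.Agent.N496.LT.main2S' d N H hd hS f hf1 hf2 hf3 p hp Z.to κ' hκ
  let c : ℝ := 2 ^ n / 2 ^ Z.to.U.card / 2
  have hc0 : 0 < c := by positivity
  have hc1 : c < 2 ^ n / 2 ^ Z.to.U.card := half_lt_self (by positivity)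
  have hp1 : (1 : ℝ) < p := by exact_mod_cast (Fact.out (p := p.Prime)).one_lt
  refine ⟨n, S, Good_Sub hG (sub_of hsub), ⟨L, hL1, hL2, hL3, hL4⟩, c ^ 2 * Real.log p,
    mul_pos (pow_pos hc0 2) (Real.log_pos hp1), ?_⟩
  intro K hK hK'
  have h1 := @hrate K hK hK'.finiteIndex hK'.anti hK'.inf c hc0 hc1
  refine h1.mono fun i hi m hm => ?_
  rw [BCx.tors_eq]
  exact hi m hm

section

variable {G X M : Type} [Group G] [TopologicalSpace X] [TopologicalSpace M] [MulAction G X]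

/-- the rate in terms of a resolution -/
theorem rate_eq {m : ℕ} {π : X → M} (h : UCov m G π) (C : BCx G) (hC : IsRes C) (K : Subgroup G) [K.Normal] (n : ℕ) :
    rate X K (n + 1) = Real.log ((C.quot K).tors (n + 1)) / K.index := by
  have := h.contractible
  unfold rate
  rw [tors_sing h.covering C hC K n]

theorem rate_bot {m : ℕ} {π : X → M} (h : UCov m G π) (n : ℕ) : rate X (⊥ : Subgroup G) (n + 1) = 0 := by
  have := h.contractible
  have := contr_bot h.covering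
  unfold rate
  rw [tor_one]
  simp

end

/-- a chain which does not stabilise -/
theorem chn_of {G : Type} [Group G] {P : Subgroup G → Prop} (hP : ¬ P ⊥) (L : ℕ → Subgroup G) (hL : Ch0 L)
    (h : ∀ K : ℕ → Subgroup G, Ch0 K → ∀ᶠ i in atTop, P (K i)) :
    ∃ K : ℕ → Subgroup G, Chn K ∧ ∀ᶠ i in atTop, P (K i) := by
  have hLb : ∀ i, L i ≠ ⊥ := by
    intro i hi
    have h2 : ∀ᶠ j in atTop, L j = ⊥ := by
      filter_upwards [eventually_ge_atTop i] with j hj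
      exact le_bot_iff.1 ((hL.anti hj).trans_eq hi)
    obtain ⟨j, h3, h4⟩ := (h2.and (h L hL)).exists
    rw [h3] at h4
    exact hP h4
  have := hL.normal
  obtain ⟨K, k1, k2, k3, k4, k5⟩ := chain L hL.finiteIndex hL.anti hL.inf hLb
  exact ⟨K, ⟨k1, k2, k3, k4, k5⟩, h K ⟨k1, k3, k4.antitone, k5⟩⟩

/-- **MP_98dedd_gt.** The closed aspherical manifold is the cube of the real moment-angle complex `MA S` of a flag
combinatorial sphere `S`. -/
theorem fin3 {p : ℕ} [Fact p.Prime] (hp : p ≠ 2) {d : ℕ} (hd : 1 ≤ d) (h : Inp p d) :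
    ∃ (n : ℕ) (S : SimpleGraph (Fin n)), PLSph (2 * d + 1) (cl S) ∧
    ∃ (X G : Type) (_ : TopologicalSpace X) (_ : Group G) (_ : MulAction G X) (π : X → MA S × MA S × MA S)
      (C : BCx G) (K : ℕ → Subgroup G),
      UCov (3 * (2 * d + 1)) G π ∧ IsRes C ∧ C.toFree.DetL2Acyclic ∧ C.toFree.l2torsion = 0 ∧ Chn K ∧
      ∃ c : ℝ, 0 < c ∧ ∀ᶠ i in atTop, c ≤ rate X (K i) (3 * d + 1) := by
  obtain ⟨n, S, hG, ⟨L, hL⟩, hdet, ht0, c, hc, hrate⟩ := lt3 hp hd h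
  have hU := UCov_MA S hG
  let := prodAct (Gam S) (Gam S) (U S) (U S)
  let := prodAct (Gam S) (Gam S × Gam S) (U S) (U S × U S)
  have hU3 : UCov (3 * (2 * d + 1)) (Gam S × Gam S × Gam S) (Prod.map (pr S) (Prod.map (pr S) (pr S))) := by
    have h1 := hU.prod (hU.prod hU)
    rwa [show 2 * d + 1 + (2 * d + 1 + (2 * d + 1)) = 3 * (2 * d + 1) by ring] at h1
  obtain ⟨K, hK, hK'⟩ := chn_of (P := fun K : Subgroup (Gam S) =>
    c ≤ rate (U S × U S × U S) (K.prod (K.prod K)) (3 * d + 1)) (by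
      show ¬ (c ≤ rate (U S × U S × U S) (Subgroup.prod ⊥ (Subgroup.prod ⊥ ⊥)) (3 * d + 1))
      rw [Subgroup.bot_prod_bot, Subgroup.bot_prod_bot, rate_bot hU3]
      exact not_le.2 hc) L hL (by
      intro K hK
      have h0 := hK.normal
      refine (hrate K h0 hK).mono fun i hi => ?_
      rw [rate_eq hU3 (davis S).cube (cube_res S)]
      exact hi)
  exact ⟨n, S, hG.pl, U S × U S × U S, Gam S × Gam S × Gam S, inferInstance, inferInstance,
    inferInstance, Prod.map (pr S) (Prod.map (pr S) (pr S)), (davis S).cube, _, hU3, cube_res S, hdet, ht0,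
    hK.prod (hK.prod hK), _, hc, hK'⟩

/-- **MP_228c3b_gt.** The closed aspherical manifold is the square of the real moment-angle complex `MA S` of a flag
combinatorial sphere `S`. -/
theorem fin2 {p : ℕ} [Fact p.Prime] (hp : p ≠ 2) {d : ℕ} (hd : 1 ≤ d) (h : Inp p d) :
    ∃ (n : ℕ) (S : SimpleGraph (Fin n)), PLSph (2 * d + 1) (cl S) ∧
    ∃ (X G : Type) (_ : TopologicalSpace X) (_ : Group G) (_ : MulAction G X) (π : X → MA S × MA S)
      (K : ℕ → Subgroup G),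
      UCov (2 * (2 * d + 1)) G π ∧ Chn K ∧
      ∃ c : ℝ, 0 < c ∧ ∀ᶠ i in atTop, c ≤ rate X (K i) (2 * d) ∧ c ≤ rate X (K i) (2 * d + 1) := by
  obtain ⟨n, S, hG, ⟨L, hL⟩, c, hc, hrate⟩ := lt2 hp hd h
  obtain ⟨d', rfl⟩ : ∃ d', d = d' + 1 := ⟨d - 1, by omega⟩
  have hU := UCov_MA S hG
  let := prodAct (Gam S) (Gam S) (U S) (U S)
  have hU2 : UCov (2 * (2 * (d' + 1) + 1)) (Gam S × Gam S) (Prod.map (pr S) (pr S)) := by
    have h1 := hU.prod hU
    rwa [show 2 * (d' + 1) + 1 + (2 * (d' + 1) + 1) = 2 * (2 * (d' + 1) + 1) by ring] at h1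
  obtain ⟨K, hK, hK'⟩ := chn_of (P := fun K : Subgroup (Gam S) =>
    c ≤ rate (U S × U S) (K.prod K) (2 * (d' + 1)) ∧ c ≤ rate (U S × U S) (K.prod K) (2 * (d' + 1) + 1)) (by
      show ¬ (_ ∧ (c ≤ rate (U S × U S) (Subgroup.prod ⊥ ⊥) (2 * (d' + 1) + 1)))
      rw [Subgroup.bot_prod_bot, rate_bot hU2]
      exact fun h => not_le.2 hc h.2) L hL (by
      intro K hK
      have h0 := hK.normal
      refine (hrate K h0 hK).mono fun i hi => ?_
      rw [show 2 * (d' + 1) = 2 * d' + 1 + 1 by ring, rate_eq hU2 (davis S).square (square_res S),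
        rate_eq hU2 (davis S).square (square_res S)]
      exact ⟨hi _ (Or.inl rfl), hi _ (Or.inr rfl)⟩)
  exact ⟨n, S, hG.pl, U S × U S, Gam S × Gam S, inferInstance, inferInstance,
    inferInstance, Prod.map (pr S) (pr S), _, hU2, hK.prod hK, _, hc, hK'⟩

end Pool.Agent.H831.Fin
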