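import Pool.Graph.R_seed8.TH630.Tor.Defs

/-!
# Torsion growth of closed aspherical manifolds: the definitions of the statements

`FreeCx`, `FreeCx.DetL2Acyclic`, `FreeCx.l2torsion` (the cellular `L²`-torsion) are defined in the imported library
file.
-/

set_option autoImplicit false

open CategoryTheory AlgebraicTopology
open scoped Matrix

noncomputable section

namespace Pool.Agent.H831.Stm

open Pool.Agent.TH630.Tor

/-! ### Combinatorial spheres and real moment-angle complexes -/

/-- The simplicial complex of the cliques (the flag complex) of the graph `S`. -/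
def flag {V : Type} (S : SimpleGraph V) : Set (Finset V) := {T | S.IsClique (T : Set V)}

/-- The stellar subdivision of the simplicial complex `X` at the simplex `σ` with the new vertex `v`. -/
def star {V : Type} [DecidableEq V] (X : Set (Finset V)) (σ : Finset V) (v : V) : Set (Finset V) :=
  {T | (v ∉ T ∧ T ∈ X ∧ ¬ σ ⊆ T) ∨ (v ∈ T ∧ T.erase v ∪ σ ∈ X ∧ ¬ σ ⊆ T.erase v)}

/-- `PLS m X`: the simplicial complex `X` is a combinatorial (piecewise linear) sphere of dimension `m`: it is obtained
from the boundary of the simplex with `m + 2` vertices by finitely many stellar subdivisions, inverses of stellar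
subdivisions and changes of the names of the vertices. -/
inductive PLS (m : ℕ) : ∀ {V : Type} [DecidableEq V], Set (Finset V) → Prop
  /-- the boundary of a simplex -/
  | bd {V : Type} [DecidableEq V] (Ω : Finset V) (h : Ω.card = m + 2) : PLS m {T | T ⊂ Ω}
  /-- stellar subdivision at the simplex `σ` with the new vertex `v` -/
  | sub {V : Type} [DecidableEq V] (X : Set (Finset V)) (σ : Finset V) (v : V) (hσ : σ ∈ X)
      (hne : σ.Nonempty) (hv : ∀ T ∈ X, v ∉ T) (h : PLS m X) : PLS m (star X σ v)
  /-- inverse of a stellar subdivision of a simplicial complex -/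
  | weld {V : Type} [DecidableEq V] (X : Set (Finset V)) (σ : Finset V) (v : V) (hX : ∀ S T, T ∈ X → S ⊆ T → S ∈ X)
      (hσ : σ ∈ X) (hne : σ.Nonempty) (hv : ∀ T ∈ X, v ∉ T) (h : PLS m (star X σ v)) : PLS m X
  /-- change of the names of the vertices -/
  | ren {V W : Type} [DecidableEq V] [DecidableEq W] (e : W ↪ V) (Y : Set (Finset V))
      (hY : ∀ T ∈ Y, ∃ S : Finset W, S.map e = T) (h : PLS m Y) : PLS m {S : Finset W | S.map e ∈ Y}
  /-- change of the names of the vertices -/
  | ren' {V W : Type} [DecidableEq V] [DecidableEq W] (e : W ↪ V) (Y : Set (Finset V))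
      (hY : ∀ T ∈ Y, ∃ S : Finset W, S.map e = T) (h : PLS m {S : Finset W | S.map e ∈ Y}) : PLS m Y

/-- The real moment-angle complex of the flag complex of the graph `S`: the union of the cubes
`{x | x i ∈ [-1, 1] for i ∈ T, x i = ε i for i ∉ T}` in `ℝ^n`, for the cliques `T` of `S` and all signs `ε`. -/
def RMA {n : ℕ} (S : SimpleGraph (Fin n)) : Set (Fin n → ℝ) := {x | (∀ i, |x i| ≤ 1) ∧ S.IsClique {i | |x i| < 1}}

/-! ### Closed aspherical manifolds -/

/-- `M` is a closed connected aspherical topological manifold of dimension `m` and `π : X → M` is its universal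
covering: `M` is locally homeomorphic to `ℝ^m`, Hausdorff, second countable, compact and connected, `X` is
contractible, `π` is a covering map, `M` is the orbit space of a covering space action of the group `G` on `X`, and `G`
is isomorphic to the fundamental group of `M`. -/
structure AsphMfd (m : ℕ) {M X : Type} [TopologicalSpace M] [TopologicalSpace X] (G : Type) [Group G] [MulAction G X]
    (π : X → M) : Prop where
  charted : Nonempty (ChartedSpace (EuclideanSpace ℝ (Fin m)) M)
  t2 : T2Space M
  sc : SecondCountableTopology M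
  compact : CompactSpace M
  connected : ConnectedSpace M
  contractible : ContractibleSpace X
  covering : IsQuotientCoveringMap π G
  pi1 : ∀ x : M, Nonempty (FundamentalGroup M x ≃* G)

/-- A strictly decreasing sequence `G = K 0 > K 1 > ...` of normal subgroups of finite index of `G` with trivial
intersection. -/
structure Chain {G : Type} [Group G] (K : ℕ → Subgroup G) : Prop where
  normal : ∀ i, (K i).Normal
  zero : K 0 = ⊤
  finiteIndex : ∀ i, (K i).FiniteIndex
  anti : StrictAnti K
  inf : ⨅ i, K i = ⊥

/-- The integral singular homology group `H_n(Y; ℤ)` (Mathlib's). -/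
def Hn (n : ℕ) (Y : Type) [TopologicalSpace Y] : ModuleCat.{0} ℤ :=
  ((singularHomologyFunctor (ModuleCat.{0} ℤ) n).obj (ModuleCat.of ℤ ℤ)).obj (TopCat.of Y)

/-- `log |tors H_n(X / K; ℤ)| / [G : K]`, where `X / K` is the orbit space. -/
def rate {G : Type} [Group G] (X : Type) [TopologicalSpace X] [MulAction G X] (K : Subgroup G) (n : ℕ) : ℝ :=
  Real.log (Nat.card (AddCommGroup.torsion (Hn n (MulAction.orbitRel.Quotient K X)))) / K.index

/-! ### Free resolutions -/

/-- The sum of the coefficients of the elements of the group ring. -/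
def aug {G : Type} [Group G] {r : ℕ} (v : Fin r → MonoidAlgebra ℤ G) : ℤ :=
  ∑ i, MonoidAlgebra.lift ℤ ℤ G (1 : G →* ℤ) (v i)

/-- The finite complex `C` of finitely generated free `ℤ[G]`-modules is a resolution of the trivial module `ℤ` (with
the augmentation which maps the basis elements of degree `0` to `1`). -/
structure IsResol {G : Type} [Group G] (C : FreeCx G) : Prop where
  exact : ∀ n (v : Fin (C.rank (n + 1)) → MonoidAlgebra ℤ G), v ᵥ* C.d n = 0 → ∃ u, u ᵥ* C.d (n + 1) = v
  zero : ∀ v : Fin (C.rank 0) → MonoidAlgebra ℤ G, (∃ u, u ᵥ* C.d 0 = v) ↔ aug v = 0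
  surj : ∃ v : Fin (C.rank 0) → MonoidAlgebra ℤ G, aug v = 1

end Pool.Agent.H831.Stm
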