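import Pool.Agent.H831.Fin2
import Pool.Agent.H831.Stm

/-!
# Torsion growth: the final theorems with the definitions of `Stm`
-/

set_option autoImplicit false

open Filter Topology
open scoped Matrix

noncomputable section

namespace Pool.Agent.H831.Fin

open Pool.Agent.N496.LT.Lt Pool.Agent.H831.Kun Pool.Agent.H831.Sg Pool.Agent.H831.Cov Pool.Agent.H831.Stm
open Pool.Agent.H944.FS (Good PLSph cl MA)

theorem pls_of {k : ℕ} {V : Type} [DecidableEq V] {X : Set (Finset V)} (h : PLSph (k + 1) X) : PLS k X := by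
  induction h with
  | bd Ω h => exact PLS.bd Ω h
  | sub X σ v hX hσ hne hv _ ih => exact PLS.sub X σ v hσ hne hv ih
  | weld X σ v hX hσ hne hv _ ih => exact PLS.weld X σ v hX hσ hne hv ih
  | ren e Y hY _ ih => exact PLS.ren e Y hY ih
  | ren' e Y hY _ ih => exact PLS.ren' e Y hY ih

section

variable {G : Type} [Group G] (C : BCx G)

/-- the chain with the given coefficients -/
def ex (n : ℕ) (u : Fin (C.cnt n) → MonoidAlgebra ℤ G) (i : C.ι) : MonoidAlgebra ℤ G :=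
  if h : C.deg i = n then u (Fintype.equivFin {i : C.ι // C.deg i = n} ⟨i, h⟩) else 0

theorem ex_IsCh (n : ℕ) (u : Fin (C.cnt n) → MonoidAlgebra ℤ G) : C.IsCh n (ex C n u) := fun _ h => dif_neg h

theorem ex_cel (n : ℕ) (u : Fin (C.cnt n) → MonoidAlgebra ℤ G) (a : Fin (C.cnt n)) : ex C n u (C.cel n a) = u a := by
  unfold ex BCx.cel
  rw [dif_pos ((Fintype.equivFin {i : C.ι // C.deg i = n}).symm a).2]
  congr 1
  exact Equiv.apply_symm_apply _ a

/-- the restriction -/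
def rx (n : ℕ) (v : C.ι → MonoidAlgebra ℤ G) (a : Fin (C.cnt n)) : MonoidAlgebra ℤ G := v (C.cel n a)

theorem ex_rx (n : ℕ) (v : C.ι → MonoidAlgebra ℤ G) (hv : C.IsCh n v) : ex C n (rx C n v) = v := by
  funext i
  unfold ex rx
  split_ifs with h
  · congr 1
    unfold BCx.cel
    rw [Equiv.symm_apply_apply]
  · exact (hv i h).symm

theorem rx_ex (n : ℕ) (u : Fin (C.cnt n) → MonoidAlgebra ℤ G) : rx C n (ex C n u) = u :=
  funext fun a => ex_cel C n u a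

theorem sum_cel {M : Type} [AddCommMonoid M] (n : ℕ) (f : C.ι → M) (h : ∀ i, C.deg i ≠ n → f i = 0) :
    ∑ a, f (C.cel n a) = ∑ i, f i := by
  rw [← Pool.Agent.N496.LT.sum_deg C.deg n f h]
  exact Equiv.sum_comp (Fintype.equivFin {i : C.ι // C.deg i = n}).symm fun i => f i.1

theorem bd_rx (n : ℕ) (v : C.ι → MonoidAlgebra ℤ G) (hv : C.IsCh (n + 1) v) :
    rx C (n + 1) v ᵥ* C.mD n = rx C n (C.bd v) := by
  funext b
  show ∑ a, v (C.cel (n + 1) a) * C.D (C.cel (n + 1) a) (C.cel n b) = ∑ i, v i * C.D i (C.cel n b)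
  exact sum_cel C (n + 1) (fun i => v i * C.D i (C.cel n b)) fun i hi => by rw [hv i hi, zero_mul]

theorem aug_rx (v : C.ι → MonoidAlgebra ℤ G) (hv : C.IsCh 0 v) : aug (rx C 0 v) = ep C v := by
  show ∑ a, au G (v (C.cel 0 a)) = ∑ i, au G (v i)
  exact sum_cel C 0 (fun i => au G (v i)) fun i hi => by rw [hv i hi, map_zero]

theorem rx_inj (n : ℕ) {v w : C.ι → MonoidAlgebra ℤ G} (hv : C.IsCh n v) (hw : C.IsCh n w) (h : rx C n v = rx C n w) :
    v = w := by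
  rw [← ex_rx C n v hv, h, ex_rx C n w hw]

theorem bdCh (n : ℕ) {v : C.ι → MonoidAlgebra ℤ G} (hv : C.IsCh (n + 1) v) : C.IsCh n (C.bd v) :=
  Pool.Agent.H831.Res.bd_IsCh C n hv

theorem resol_of (hC : IsRes C) : IsResol C.toFree where
  exact n v hv := by
    have h1 : C.bd (ex C (n + 1) v) = 0 := by
      apply rx_inj C n (bdCh C n (ex_IsCh C (n + 1) v)) (fun _ _ => rfl)
      rw [← bd_rx C n _ (ex_IsCh C (n + 1) v), rx_ex]
      exact hv
    obtain ⟨u, hu, hu'⟩ := hC.exact n _ (ex_IsCh C (n + 1) v) h1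
    refine ⟨rx C (n + 2) u, ?_⟩
    have h2 := bd_rx C (n + 1) u hu
    rw [hu', rx_ex] at h2
    exact h2
  zero v := by
    have h1 := hC.zero _ (ex_IsCh C 0 v)
    rw [← aug_rx C _ (ex_IsCh C 0 v), rx_ex] at h1
    refine Iff.trans ?_ h1
    constructor
    · rintro ⟨u, hu⟩
      refine ⟨ex C 1 u, ex_IsCh C 1 u, ?_⟩
      apply rx_inj C 0 (bdCh C 0 (ex_IsCh C 1 u)) (ex_IsCh C 0 v)
      rw [← bd_rx C 0 _ (ex_IsCh C 1 u), rx_ex, rx_ex]
      exact hu
    · rintro ⟨u, hu, hu'⟩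
      refine ⟨rx C 1 u, ?_⟩
      have h2 := bd_rx C 0 u hu
      rw [hu', rx_ex] at h2
      exact h2
  surj := by
    obtain ⟨v, hv, hv'⟩ := hC.surj
    exact ⟨rx C 0 v, (aug_rx C v hv).trans hv'⟩

end

theorem chain_of {G : Type} [Group G] {K : ℕ → Subgroup G} (h : Chn K) : Chain K :=
  ⟨h.normal, h.zero, h.finiteIndex, h.anti, h.inf⟩

theorem asph_of' {m : ℕ} {M X G : Type} [TopologicalSpace M] [TopologicalSpace X] [Group G] [MulAction G X] {π : X → M}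
    (h : UCov m G π) : AsphMfd m G π :=
  ⟨h.mfd.charted, h.mfd.t2, h.mfd.sc, h.mfd.compact, h.mfd.connected, h.contractible, h.covering, h.pi1⟩

/-- **MP_98dedd_gt.** -/
theorem main3 {p : ℕ} [Fact p.Prime] (hp : p ≠ 2) {d : ℕ} (hd : 1 ≤ d) (h : Inp p d) :
    ∃ (n : ℕ) (S : SimpleGraph (Fin n)), PLS (2 * d) (flag S) ∧
    ∃ (X G : Type) (_ : TopologicalSpace X) (_ : Group G) (_ : MulAction G X) (π : X → RMA S × RMA S × RMA S)
      (C : Pool.Agent.TH630.Tor.FreeCx G) (K : ℕ → Subgroup G),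
      AsphMfd (3 * (2 * d + 1)) G π ∧ IsResol C ∧ C.DetL2Acyclic ∧ C.l2torsion = 0 ∧ Chain K ∧
      ∃ c : ℝ, 0 < c ∧ ∀ᶠ i in atTop, c ≤ Stm.rate X (K i) (3 * d + 1) := by
  obtain ⟨n, S, h1, X, G, _, _, _, π, C, K, h2, h3, h4, h5, h6, c, h7, h8⟩ := fin3 hp hd h
  exact ⟨n, S, pls_of h1, X, G, inferInstance, inferInstance, inferInstance, π, C.toFree, K, asph_of' h2,
    resol_of C h3, h4, h5, chain_of h6, c, h7, h8⟩

/-- **MP_228c3b_gt.** -/
theorem main2 {p : ℕ} [Fact p.Prime] (hp : p ≠ 2) {d : ℕ} (hd : 1 ≤ d) (h : Inp p d) :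
    ∃ (n : ℕ) (S : SimpleGraph (Fin n)), PLS (2 * d) (flag S) ∧
    ∃ (X G : Type) (_ : TopologicalSpace X) (_ : Group G) (_ : MulAction G X) (π : X → RMA S × RMA S)
      (K : ℕ → Subgroup G),
      AsphMfd (2 * (2 * d + 1)) G π ∧ Chain K ∧
      ∃ c : ℝ, 0 < c ∧ ∀ᶠ i in atTop, c ≤ Stm.rate X (K i) (2 * d) ∧ c ≤ Stm.rate X (K i) (2 * d + 1) := by
  obtain ⟨n, S, h1, X, G, _, _, _, π, K, h2, h6, c, h7, h8⟩ := fin2 hp hd h
  exact ⟨n, S, pls_of h1, X, G, inferInstance, inferInstance, inferInstance, π, K, asph_of' h2, chain_of h6, c, h7, h8⟩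

end Pool.Agent.H831.Fin
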