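import Pool.Agent.H831.Res

/-!
# The product of two free resolutions is a free resolution
-/

set_option autoImplicit false

open scoped Matrix

noncomputable section

namespace Pool.Agent.H831.Kun

open Pool.Agent.N496.LT.Lt Pool.Agent.H831.Res

/-- the augmentation of the group ring -/
abbrev au (G : Type) [Group G] : MonoidAlgebra ℤ G →+* ℤ := PRES.aug G

section basic

variable {G : Type} [Group G] (C : BCx G)

/-- The augmentation: the sum of all the coefficients. -/
def ep (v : C.ι → MonoidAlgebra ℤ G) : ℤ := ∑ i, au G (v i)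

/-- The complex `C` is a free resolution of the trivial module `ℤ`. -/
structure IsRes : Prop where
  exact : ∀ n v, C.IsCh (n + 1) v → C.bd v = 0 → ∃ u, C.IsCh (n + 2) u ∧ C.bd u = v
  zero : ∀ v, C.IsCh 0 v → ((∃ u, C.IsCh 1 u ∧ C.bd u = v) ↔ ep C v = 0)
  surj : ∃ v, C.IsCh 0 v ∧ ep C v = 1

theorem ep_bd (hC : IsRes C) {v : C.ι → MonoidAlgebra ℤ G} (hv : C.IsCh 1 v) : ep C (C.bd v) = 0 :=
  (hC.zero _ (bd_IsCh C 0 hv)).1 ⟨v, hv, rfl⟩

theorem row (hC : IsRes C) (i : C.ι) (hi : C.deg i = 1) : ∑ j, au G (C.D i j) = 0 := by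
  classical
  have h := ep_bd C hC (v := Pi.single i 1) (fun j hj => by
    rw [Pi.single_eq_of_ne]
    rintro rfl
    exact hj hi)
  rw [← h]
  unfold ep BCx.bd
  rw [Matrix.single_one_vecMul]
  rfl

end basic

variable {G H : Type} [Group G] [Group H]

/-- the slice -/
def sl (h : H) : MonoidAlgebra ℤ (G × H) →+ MonoidAlgebra ℤ G where
  toFun x := MonoidAlgebra.ofCoeff (Finsupp.comapDomain (fun g => (g, h)) x.coeff
    (fun _ _ _ _ e => congrArg Prod.fst e))
  map_zero' := by
    apply MonoidAlgebra.coeff_injective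
    ext g
    rfl
  map_add' x y := by
    apply MonoidAlgebra.coeff_injective
    ext g
    rfl

omit [Group G] [Group H] in
theorem sl_coeff (h : H) (x : MonoidAlgebra ℤ (G × H)) (g : G) : (sl h x).coeff g = x.coeff (g, h) := rfl

omit [Group G] [Group H] in
theorem sl_ext {x y : MonoidAlgebra ℤ (G × H)} (h : ∀ h, sl h x = sl h y) : x = y := by
  apply MonoidAlgebra.coeff_injective
  ext ⟨g, k⟩
  rw [← sl_coeff, h, sl_coeff]

/-- the first factor -/
abbrev il : MonoidAlgebra ℤ G →+* MonoidAlgebra ℤ (G × H) := MonoidAlgebra.mapDomainRingHom ℤ (MonoidHom.inl G H)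

/-- the second factor -/
abbrev ir : MonoidAlgebra ℤ H →+* MonoidAlgebra ℤ (G × H) := MonoidAlgebra.mapDomainRingHom ℤ (MonoidHom.inr G H)

/-- the projection -/
abbrev sn : MonoidAlgebra ℤ (G × H) →+* MonoidAlgebra ℤ H := MonoidAlgebra.mapDomainRingHom ℤ (MonoidHom.snd G H)

theorem sl_mul_il (h : H) (x : MonoidAlgebra ℤ (G × H)) (y : MonoidAlgebra ℤ G) : sl h (x * il y) = sl h x * y := by
  induction y using MonoidAlgebra.induction_linear with
  | zero => rw [map_zero, mul_zero, mul_zero, map_zero]
  | add a b ha hb => rw [map_add, mul_add, map_add, ha, hb, mul_add]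
  | single a r =>
    have h1 : il (H := H) (MonoidAlgebra.single a r) = MonoidAlgebra.single (a, 1) r :=
      MonoidAlgebra.mapDomain_single
    rw [h1]
    apply MonoidAlgebra.coeff_injective
    ext g
    rw [sl_coeff, MonoidAlgebra.coeff_mul_single_apply, MonoidAlgebra.coeff_mul_single_apply, sl_coeff]
    simp

/-- the embedding of a slice -/
def em (h : H) : MonoidAlgebra ℤ G →+ MonoidAlgebra ℤ (G × H) where
  toFun x := il x * MonoidAlgebra.single (1, h) 1
  map_zero' := by rw [map_zero, zero_mul]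
  map_add' x y := by rw [map_add, add_mul]

theorem em_single (h : H) (a : G) (r : ℤ) :
    em h (MonoidAlgebra.single a r) = MonoidAlgebra.single (a, h) r := by
  show il (MonoidAlgebra.single a r) * MonoidAlgebra.single (1, h) 1 = _
  have h1 : il (H := H) (MonoidAlgebra.single a r) = MonoidAlgebra.single (a, 1) r :=
    MonoidAlgebra.mapDomain_single
  rw [h1, MonoidAlgebra.single_mul_single]
  simp

open Classical in
theorem sl_em (h k : H) (x : MonoidAlgebra ℤ G) : sl k (em h x) = if k = h then x else 0 := by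
  induction x using MonoidAlgebra.induction_linear with
  | zero => rw [map_zero, map_zero, ite_self]
  | add a b ha hb =>
    rw [map_add, map_add, ha, hb]
    split_ifs
    · rfl
    · rw [add_zero]
  | single a r =>
    rw [em_single]
    apply MonoidAlgebra.coeff_injective
    ext g
    rw [sl_coeff, MonoidAlgebra.coeff_single]
    split_ifs with hk
    · subst hk
      rw [MonoidAlgebra.coeff_single]
      by_cases hg : g = a
      · subst hg
        rw [Finsupp.single_eq_same, Finsupp.single_eq_same]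
      · rw [Finsupp.single_eq_of_ne hg, Finsupp.single_eq_of_ne fun e => hg (congrArg Prod.fst e)]
    · rw [Finsupp.single_eq_of_ne fun e => hk (congrArg Prod.snd e)]
      rfl

variable (C : BCx G) (E : BCx H)

/-- the first part of the boundary -/
def D1 (w : C.ι × E.ι → MonoidAlgebra ℤ (G × H)) (x : C.ι × E.ι) : MonoidAlgebra ℤ (G × H) :=
  ∑ i, w (i, x.2) * il (C.D i x.1)

/-- the second part of the boundary -/
def D2 (w : C.ι × E.ι → MonoidAlgebra ℤ (G × H)) (x : C.ι × E.ι) : MonoidAlgebra ℤ (G × H) :=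
  (-1) ^ C.deg x.1 * ∑ j, w (x.1, j) * ir (E.D j x.2)

theorem bd_eq (w : C.ι × E.ι → MonoidAlgebra ℤ (G × H)) (x : C.ι × E.ι) :
    (C.prod E).bd w x = D1 C E w x + D2 C E w x := by
  classical
  show ∑ y : C.ι × E.ι, w y * C.pE E y x = _
  unfold BCx.pE
  simp only [mul_add, Finset.sum_add_distrib]
  congr 1
  · rw [Fintype.sum_prod_type]
    unfold D1
    refine Finset.sum_congr rfl fun i _ => ?_
    rw [Finset.sum_eq_single x.2]
    · rw [if_pos rfl]
    · intro j _ hj
      rw [if_neg hj, mul_zero]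
    · intro h
      exact absurd (Finset.mem_univ _) h
  · rw [Fintype.sum_prod_type_right]
    unfold D2
    rw [Finset.mul_sum]
    refine Finset.sum_congr rfl fun j _ => ?_
    rw [Finset.sum_eq_single x.1]
    · rw [if_pos rfl, ← mul_assoc, ← mul_assoc]
      congr 1
      exact (Commute.neg_one_left (w (x.1, j))).symm.pow_right _ |>.eq
    · intro i _ hi
      rw [if_neg hi, mul_zero]
    · intro h
      exact absurd (Finset.mem_univ _) h

theorem sl_D1 (w : C.ι × E.ι → MonoidAlgebra ℤ (G × H)) (h : H) (x : C.ι × E.ι) :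
    sl h (D1 C E w x) = C.bd (fun i => sl h (w (i, x.2))) x.1 := by
  unfold D1
  rw [map_sum]
  exact Finset.sum_congr rfl fun i _ => sl_mul_il h _ _

/-- solving `D1 u = a` slice by slice -/
theorem slices (p : ℕ) (a : C.ι × E.ι → MonoidAlgebra ℤ (G × H))
    (ha : ∀ j h, ∃ u, C.IsCh (p + 1) u ∧ C.bd u = fun i => sl h (a (i, j))) :
    ∃ u : C.ι × E.ι → MonoidAlgebra ℤ (G × H), (∀ i j, C.deg i ≠ p + 1 → u (i, j) = 0) ∧
      (∀ j, (∀ i, a (i, j) = 0) → ∀ i, u (i, j) = 0) ∧ D1 C E u = a := by
  classical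
  have h1 : ∀ j h, ∃ u, C.IsCh (p + 1) u ∧ (C.bd u = fun i => sl h (a (i, j))) ∧
      ((∀ i, sl h (a (i, j)) = 0) → u = 0) := by
    intro j h
    by_cases h0 : ∀ i, sl h (a (i, j)) = 0
    · refine ⟨0, fun i _ => rfl, ?_, fun _ => rfl⟩
      funext i
      rw [h0]
      show ∑ k, (0 : MonoidAlgebra ℤ G) * C.D k i = 0
      simp
    · obtain ⟨u, h2, h3⟩ := ha j h
      exact ⟨u, h2, h3, fun h4 => absurd h4 h0⟩
  choose u hu1 hu2 hu3 using h1
  let S : Finset H := Finset.univ.biUnion fun x : C.ι × E.ι => (a x).coeff.support.image Prod.snd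
  have hS : ∀ h, h ∉ S → ∀ j, u j h = 0 := by
    intro h hh j
    refine hu3 j h fun i => ?_
    apply MonoidAlgebra.coeff_injective
    ext g
    rw [sl_coeff]
    by_contra h5
    exact hh (Finset.mem_biUnion.2 ⟨(i, j), Finset.mem_univ _, Finset.mem_image.2
      ⟨(g, h), Finsupp.mem_support_iff.2 h5, rfl⟩⟩)
  refine ⟨fun x => ∑ h ∈ S, em h (u x.2 h x.1), fun i j hi => ?_, fun j hj i => ?_, ?_⟩
  · refine Finset.sum_eq_zero fun h _ => ?_
    show em h (u j h i) = 0
    rw [hu1 j h i hi, map_zero]
  · refine Finset.sum_eq_zero fun h _ => ?_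
    show em h (u j h i) = 0
    rw [hu3 j h (fun i => by rw [hj, map_zero]), Pi.zero_apply, map_zero]
  · funext x
    refine sl_ext fun h => ?_
    rw [sl_D1]
    have h6 : (fun i => sl h (∑ h ∈ S, em h (u x.2 h i))) = u x.2 h := by
      funext i
      rw [map_sum]
      simp only [sl_em]
      by_cases hh : h ∈ S
      · rw [Finset.sum_eq_single h]
        · rw [if_pos rfl]
        · intro k _ hk
          rw [if_neg (Ne.symm hk)]
        · intro h7
          exact absurd hh h7
      · rw [hS h hh]
        refine Finset.sum_eq_zero fun k hk => ?_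
        rw [if_neg]
        rintro rfl
        exact hh hk
    show C.bd (fun i => sl h (∑ h ∈ S, em h (u x.2 h i))) x.1 = _
    rw [h6, hu2]

variable {C E}

/-- the projection of a chain with `C`-degree zero -/
def pj (a : C.ι × E.ι → MonoidAlgebra ℤ (G × H)) (j : E.ι) : MonoidAlgebra ℤ H := ∑ i, sn (a (i, j))

theorem sn_il (x : MonoidAlgebra ℤ G) : sn (H := H) (il x) = (au G x : MonoidAlgebra ℤ H) := by
  induction x using MonoidAlgebra.induction_linear with
  | zero => rw [map_zero, map_zero, map_zero, Int.cast_zero]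
  | add a b ha hb => rw [map_add, map_add, ha, hb, map_add, Int.cast_add]
  | single a r =>
    have h1 : il (H := H) (MonoidAlgebra.single a r) = MonoidAlgebra.single (a, 1) r :=
      MonoidAlgebra.mapDomain_single
    have h2 : sn (MonoidAlgebra.single (a, (1 : H)) r) = MonoidAlgebra.single 1 r :=
      MonoidAlgebra.mapDomain_single
    rw [h1, h2, PRES.aug_single]
    rfl

theorem sn_ir (x : MonoidAlgebra ℤ H) : sn (G := G) (ir x) = x := by
  induction x using MonoidAlgebra.induction_linear with
  | zero => rw [map_zero, map_zero]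
  | add a b ha hb => rw [map_add, map_add, ha, hb]
  | single a r =>
    have h1 : ir (G := G) (MonoidAlgebra.single a r) = MonoidAlgebra.single (1, a) r :=
      MonoidAlgebra.mapDomain_single
    have h2 : sn (MonoidAlgebra.single ((1 : G), a) r) = MonoidAlgebra.single a r :=
      MonoidAlgebra.mapDomain_single
    rw [h1, h2]

theorem au_sl (h : H) (x : MonoidAlgebra ℤ (G × H)) : au G (sl h x) = (sn x).coeff h := by
  classical
  induction x using MonoidAlgebra.induction_linear with
  | zero => rw [map_zero, map_zero, map_zero]; rfl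
  | add a b ha hb => rw [map_add, map_add, ha, hb, map_add]; rfl
  | single a r =>
    have h2 : sn (MonoidAlgebra.single a r) = MonoidAlgebra.single a.2 r := MonoidAlgebra.mapDomain_single
    have h3 : MonoidAlgebra.single a r = em a.2 (MonoidAlgebra.single a.1 r) := by rw [em_single]
    rw [h2, h3, sl_em]
    split_ifs with hk
    · rw [hk, PRES.aug_single, MonoidAlgebra.coeff_single, Finsupp.single_eq_same]
    · rw [map_zero, MonoidAlgebra.coeff_single, Finsupp.single_eq_of_ne hk]

theorem ep_sl (a : C.ι × E.ι → MonoidAlgebra ℤ (G × H)) (j : E.ι) (h : H) :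
    ep C (fun i => sl h (a (i, j))) = (pj a j).coeff h := by
  unfold ep pj
  rw [MonoidAlgebra.coeff_sum, Finsupp.finsetSum_apply]
  exact Finset.sum_congr rfl fun i _ => au_sl h _

theorem pj_D1 (hC : IsRes C) (w : C.ι × E.ι → MonoidAlgebra ℤ (G × H)) (j : E.ι)
    (hw : ∀ i, C.deg i ≠ 1 → w (i, j) = 0) : pj (D1 C E w) j = 0 := by
  unfold pj D1
  simp only [map_sum, map_mul]
  rw [Finset.sum_comm]
  refine Finset.sum_eq_zero fun i _ => ?_
  by_cases hi : C.deg i = 1
  · rw [← Finset.mul_sum]
    have h1 : ∑ x, sn (H := H) (il (C.D i x)) = ((∑ x, au G (C.D i x) : ℤ) : MonoidAlgebra ℤ H) := by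
      rw [Int.cast_sum]
      exact Finset.sum_congr rfl fun x _ => sn_il _
    rw [h1, row C hC i hi, Int.cast_zero, mul_zero]
  · refine Finset.sum_eq_zero fun x _ => ?_
    rw [hw i hi, map_zero, zero_mul]

theorem pj_D2 (w : C.ι × E.ι → MonoidAlgebra ℤ (G × H)) (hw : ∀ i j, C.deg i ≠ 0 → w (i, j) = 0) (j : E.ι) :
    pj (D2 C E w) j = E.bd (pj w) j := by
  have h1 : ∀ x : C.ι, sn (D2 C E w (x, j)) = ∑ k, sn (w (x, k)) * E.D k j := by
    intro x
    unfold D2
    by_cases hx : C.deg x = 0
    · rw [hx, pow_zero, one_mul, map_sum]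
      refine Finset.sum_congr rfl fun k _ => ?_
      rw [map_mul, sn_ir]
    · rw [Finset.sum_eq_zero fun k _ => by rw [hw x k hx, zero_mul], mul_zero, map_zero,
        Finset.sum_eq_zero fun k _ => by rw [hw x k hx, map_zero, zero_mul]]
  unfold pj
  rw [Finset.sum_congr rfl fun x _ => h1 x, Finset.sum_comm]
  show _ = ∑ k, (∑ i, sn (w (i, k))) * E.D k j
  refine Finset.sum_congr rfl fun k _ => ?_
  rw [Finset.sum_mul]

/-- the product of two chains -/
def tp (v : C.ι → MonoidAlgebra ℤ G) (z : E.ι → MonoidAlgebra ℤ H) (x : C.ι × E.ι) : MonoidAlgebra ℤ (G × H) :=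
  il (v x.1) * ir (z x.2)

theorem pj_tp (v : C.ι → MonoidAlgebra ℤ G) (z : E.ι → MonoidAlgebra ℤ H) (j : E.ι) :
    pj (tp v z) j = (ep C v : MonoidAlgebra ℤ H) * z j := by
  unfold pj tp ep
  simp only [map_mul]
  rw [Int.cast_sum, Finset.sum_mul]
  refine Finset.sum_congr rfl fun i _ => ?_
  rw [sn_il, sn_ir]

theorem bd_tp {v : C.ι → MonoidAlgebra ℤ G} (hv : C.IsCh 0 v) (z : E.ι → MonoidAlgebra ℤ H) :
    (C.prod E).bd (tp v z) = tp v (E.bd z) := by
  funext x
  rw [bd_eq]
  have h1 : D1 C E (tp v z) x = 0 := by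
    unfold D1 tp
    refine Finset.sum_eq_zero fun i _ => ?_
    by_cases h : C.D i x.1 = 0
    · rw [h, map_zero, mul_zero]
    · have h2 := C.D_deg i x.1 h
      rw [hv i (by omega), map_zero, zero_mul, zero_mul]
  rw [h1, zero_add]
  unfold D2 tp
  by_cases hx : C.deg x.1 = 0
  · rw [hx, pow_zero, one_mul]
    show ∑ j, il (v x.1) * ir (z j) * ir (E.D j x.2) = il (v x.1) * ir (∑ j, z j * E.D j x.2)
    rw [map_sum, Finset.mul_sum]
    refine Finset.sum_congr rfl fun j _ => ?_
    rw [map_mul, mul_assoc]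
  · have h2 : v x.1 = 0 := hv x.1 hx
    have h3 : ∑ j, il (v x.1) * ir (z j) * ir (E.D j x.2) = (0 : MonoidAlgebra ℤ (G × H)) :=
      Finset.sum_eq_zero fun j _ => by rw [h2, map_zero, zero_mul, zero_mul]
    show (-1) ^ C.deg x.1 * ∑ j, il (v x.1) * ir (z j) * ir (E.D j x.2) = il (v x.1) * ir (E.bd z x.2)
    rw [h3, h2, map_zero, zero_mul, mul_zero]

theorem ep_prod (w : C.ι × E.ι → MonoidAlgebra ℤ (G × H)) : ep (C.prod E) w = ep E (pj w) := by
  have h1 : ∀ x : MonoidAlgebra ℤ (G × H), au H (sn x) = au (G × H) x := by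
    intro x
    induction x using MonoidAlgebra.induction_linear with
    | zero => rw [map_zero, map_zero, map_zero]
    | add a b ha hb => rw [map_add, map_add, ha, hb, map_add]
    | single a r =>
      have h2 : sn (MonoidAlgebra.single a r) = MonoidAlgebra.single a.2 r := MonoidAlgebra.mapDomain_single
      rw [h2, PRES.aug_single, PRES.aug_single]
  show ∑ x : C.ι × E.ι, au (G × H) (w x) = ∑ j, au H (∑ i, sn (w (i, j)))
  rw [Fintype.sum_prod_type_right]
  refine Finset.sum_congr rfl fun j _ => ?_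
  rw [map_sum]
  exact Finset.sum_congr rfl fun i _ => (h1 _).symm

theorem bd_sub (x y : C.ι → MonoidAlgebra ℤ G) : C.bd (x - y) = C.bd x - C.bd y := Matrix.sub_vecMul _ _ _

theorem bd_add (x y : C.ι → MonoidAlgebra ℤ G) : C.bd (x + y) = C.bd x + C.bd y := Matrix.add_vecMul _ _ _

theorem bd_bd (x : C.ι → MonoidAlgebra ℤ G) : C.bd (C.bd x) = 0 := by
  show (x ᵥ* C.D) ᵥ* C.D = 0
  rw [Matrix.vecMul_vecMul, C.D_sq, Matrix.vecMul_zero]

variable (C E) in
/-- the boundary -/
def pb (w : C.ι × E.ι → MonoidAlgebra ℤ (G × H)) : C.ι × E.ι → MonoidAlgebra ℤ (G × H) := (C.prod E).bd w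

theorem pb_eq (w : C.ι × E.ι → MonoidAlgebra ℤ (G × H)) (x : C.ι × E.ι) : pb C E w x = D1 C E w x + D2 C E w x :=
  bd_eq C E w x

theorem pb_sub (x y : C.ι × E.ι → MonoidAlgebra ℤ (G × H)) : pb C E (x - y) = pb C E x - pb C E y :=
  Matrix.sub_vecMul _ _ _

theorem pb_add (x y : C.ι × E.ι → MonoidAlgebra ℤ (G × H)) : pb C E (x + y) = pb C E x + pb C E y :=
  Matrix.add_vecMul _ _ _

theorem pb_pb (x : C.ι × E.ι → MonoidAlgebra ℤ (G × H)) : pb C E (pb C E x) = 0 :=
  bd_bd (C := C.prod E) x

theorem pb_IsCh (n : ℕ) {v : C.ι × E.ι → MonoidAlgebra ℤ (G × H)} (hv : (C.prod E).IsCh (n + 1) v) (x : C.ι × E.ι)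
    (hx : (C.prod E).deg x ≠ n) : pb C E v x = 0 := bd_IsCh (C.prod E) n hv x hx

theorem pb_zero {v : C.ι × E.ι → MonoidAlgebra ℤ (G × H)} (hv : (C.prod E).IsCh 0 v) : pb C E v = 0 :=
  bd_IsCh_zero (C.prod E) hv

theorem pb_tp {v : C.ι → MonoidAlgebra ℤ G} (hv : C.IsCh 0 v) (z : E.ι → MonoidAlgebra ℤ H) :
    pb C E (tp v z) = tp v (E.bd z) := bd_tp hv z

/-- the restriction to `C`-degree `p` -/
def rs (p : ℕ) (w : C.ι × E.ι → MonoidAlgebra ℤ (G × H)) (x : C.ι × E.ι) : MonoidAlgebra ℤ (G × H) :=
  if C.deg x.1 = p then w x else 0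

/-- The first step: a cycle (or, in degree zero, a chain with augmentation zero) can be changed by a boundary to
vanish in the `C`-degree zero. -/
theorem step0 (hC : IsRes C) (n : ℕ) (w : C.ι × E.ι → MonoidAlgebra ℤ (G × H))
    (hw : (C.prod E).IsCh n w) (hy : ∃ z, E.IsCh (n + 1) z ∧ E.bd z = pj (rs 0 w)) :
    ∃ u : C.ι × E.ι → MonoidAlgebra ℤ (G × H), (C.prod E).IsCh (n + 1) u ∧ ∀ x : C.ι × E.ι, C.deg x.1 = 0 → (w - pb C E u) x = 0 := by
  obtain ⟨z, hz, hz'⟩ := hy
  obtain ⟨v, hv, hv'⟩ := hC.surj
  have h1 : pb C E (tp v z) = tp v (pj (rs 0 w)) := by rw [pb_tp hv, hz']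
  let a : C.ι × E.ι → MonoidAlgebra ℤ (G × H) := rs 0 w - tp v (pj (rs 0 w))
  have h2 : ∀ j h, ep C (fun i => sl h (a (i, j))) = 0 := by
    intro j h
    rw [ep_sl]
    have h3 : pj a j = pj (rs 0 w) j - pj (tp v (pj (rs 0 w))) j := by
      show ∑ i, sn (rs 0 w (i, j) - tp v (pj (rs 0 w)) (i, j)) = _
      simp only [map_sub, Finset.sum_sub_distrib]
      rfl
    rw [h3, pj_tp, hv', Int.cast_one, one_mul, sub_self]
    rfl
  have ha0 : ∀ i j, C.deg i ≠ 0 → a (i, j) = 0 := by
    intro i j hi
    show rs 0 w (i, j) - il (v i) * ir (pj (rs 0 w) j) = 0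
    rw [hv i hi, map_zero, zero_mul, sub_zero]
    exact if_neg hi
  have haj : ∀ j, E.deg j ≠ n → ∀ i, a (i, j) = 0 := by
    intro j hj i
    have h4 : ∀ i, rs 0 w (i, j) = 0 := by
      intro i
      unfold rs
      split_ifs with h5
      · refine hw (i, j) ?_
        show C.deg i + E.deg j ≠ n
        have h6 : C.deg i = 0 := h5
        omega
      · rfl
    show rs 0 w (i, j) - il (v i) * ir (pj (rs 0 w) j) = 0
    have h5 : pj (rs 0 w) j = 0 := Finset.sum_eq_zero fun i _ => by rw [h4, map_zero]
    rw [h4, h5, map_zero, mul_zero, sub_zero]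
  obtain ⟨u, hu1, hu2, hu3⟩ := slices C E 0 a fun j h => (hC.zero _ (fun i hi => by
    show sl h (a (i, j)) = 0
    rw [ha0 i j hi, map_zero])).2 (h2 j h)
  refine ⟨tp v z + u, fun x hx => ?_, fun x hx => ?_⟩
  · have h5 : C.deg x.1 + E.deg x.2 ≠ n + 1 := hx
    show tp v z x + u x = 0
    have h6 : tp v z x = 0 := by
      unfold tp
      by_cases h7 : C.deg x.1 = 0
      · rw [hz x.2 (by omega), map_zero, mul_zero]
      · rw [hv x.1 h7, map_zero, zero_mul]
    have h8 : u x = 0 := by
      by_cases h7 : C.deg x.1 = 1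
      · exact hu2 x.2 (haj x.2 (by omega)) x.1
      · exact hu1 x.1 x.2 (by omega)
    rw [h6, h8, add_zero]
  · rw [pb_add, h1]
    show w x - (tp v (pj (rs 0 w)) x + pb C E u x) = 0
    rw [pb_eq, hu3]
    have h9 : D2 C E u x = 0 := by
      unfold D2
      rw [Finset.sum_eq_zero fun j _ => by rw [hu1 x.1 j (by omega), zero_mul], mul_zero]
    rw [h9, add_zero]
    show w x - (tp v (pj (rs 0 w)) x + (rs 0 w x - tp v (pj (rs 0 w)) x)) = 0
    have h10 : rs 0 w x = w x := if_pos hx
    rw [h10]
    abel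

/-- The other steps. -/
theorem step1 (hC : IsRes C) (n p : ℕ) (w : C.ι × E.ι → MonoidAlgebra ℤ (G × H))
    (hw : (C.prod E).IsCh n w) (hc : pb C E w = 0)
    (h0 : ∀ x : C.ι × E.ι, C.deg x.1 < p + 1 → w x = 0) :
    ∃ u : C.ι × E.ι → MonoidAlgebra ℤ (G × H), (C.prod E).IsCh (n + 1) u ∧ ∀ x : C.ι × E.ι, C.deg x.1 < p + 2 → (w - pb C E u) x = 0 := by
  let a : C.ι × E.ι → MonoidAlgebra ℤ (G × H) := rs (p + 1) w
  have ha0 : ∀ i j, C.deg i ≠ p + 1 → a (i, j) = 0 := fun i j hi => if_neg hi
  have haj : ∀ j, p + 1 + E.deg j ≠ n → ∀ i, a (i, j) = 0 := by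
    intro j hj i
    by_cases hi : C.deg i = p + 1
    · show (if C.deg i = p + 1 then w (i, j) else 0) = 0
      rw [if_pos hi]
      refine hw (i, j) ?_
      show C.deg i + E.deg j ≠ n
      omega
    · exact ha0 i j hi
  have hD1 : ∀ x, D1 C E a x = 0 := by
    intro x
    by_cases hx : C.deg x.1 = p
    · have h1 := congrFun hc x
      rw [pb_eq] at h1
      have h2 : D2 C E w x = 0 := by
        unfold D2
        rw [Finset.sum_eq_zero fun j _ => by rw [h0 (x.1, j) (by show C.deg x.1 < p + 1; omega), zero_mul], mul_zero]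
      rw [h2, add_zero] at h1
      rw [← (show (0 : C.ι × E.ι → MonoidAlgebra ℤ (G × H)) x = 0 from rfl)]
      refine Eq.trans ?_ h1
      unfold D1
      refine Finset.sum_congr rfl fun i _ => ?_
      by_cases hi : C.D i x.1 = 0
      · rw [hi, map_zero, mul_zero, mul_zero]
      · have h3 := C.D_deg i x.1 hi
        have h4 : a (i, x.2) = w (i, x.2) := if_pos (by show C.deg i = p + 1; omega)
        rw [h4]
    · unfold D1
      refine Finset.sum_eq_zero fun i _ => ?_
      by_cases hi : C.D i x.1 = 0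
      · rw [hi, map_zero, mul_zero]
      · have h3 := C.D_deg i x.1 hi
        rw [ha0 i x.2 (by omega), zero_mul]
  obtain ⟨u, hu1, hu2, hu3⟩ := slices C E (p + 1) a fun j h => hC.exact p _ (fun i hi => by
    show sl h (a (i, j)) = 0
    rw [ha0 i j hi, map_zero]) (by
    funext i
    have := sl_D1 C E a h (i, j)
    rw [hD1, map_zero] at this
    exact this.symm)
  refine ⟨u, fun x hx => ?_, fun x hx => ?_⟩
  · have h5 : C.deg x.1 + E.deg x.2 ≠ n + 1 := hx
    by_cases h7 : C.deg x.1 = p + 2
    · exact hu2 x.2 (haj x.2 (by omega)) x.1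
    · exact hu1 x.1 x.2 (by omega)
  · show w x - pb C E u x = 0
    rw [pb_eq, hu3]
    have h9 : D2 C E u x = 0 := by
      unfold D2
      rw [Finset.sum_eq_zero fun j _ => by rw [hu1 x.1 j (by omega), zero_mul], mul_zero]
    rw [h9, add_zero]
    by_cases h10 : C.deg x.1 = p + 1
    · have h11 : a x = w x := if_pos h10
      rw [h11, sub_self]
    · have h11 : a x = 0 := if_neg h10
      rw [h11, sub_zero]
      exact h0 x (by omega)

theorem steps (hC : IsRes C) (n : ℕ) (w : C.ι × E.ι → MonoidAlgebra ℤ (G × H))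
    (hw : (C.prod E).IsCh n w) (hc : pb C E w = 0)
    (h0 : ∀ x : C.ι × E.ι, C.deg x.1 = 0 → w x = 0) (p : ℕ) :
    ∃ u : C.ι × E.ι → MonoidAlgebra ℤ (G × H), (C.prod E).IsCh (n + 1) u ∧ ∀ x : C.ι × E.ι, C.deg x.1 < p + 1 → (w - pb C E u) x = 0 := by
  induction p with
  | zero =>
    refine ⟨0, fun _ _ => rfl, fun x hx => ?_⟩
    have h1 : pb C E 0 = 0 := Matrix.zero_vecMul (C.prod E).D
    rw [h1, sub_zero]
    exact h0 x (by omega)
  | succ p ih =>
    obtain ⟨u, hu1, hu2⟩ := ih
    obtain ⟨u', hu1', hu2'⟩ := step1 hC n p (w - pb C E u) (fun x hx => by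
      show w x - pb C E u x = 0
      rw [hw x hx, pb_IsCh n hu1 x hx, sub_zero]) (by rw [pb_sub, hc, pb_pb, sub_zero]) hu2
    refine ⟨u + u', fun x hx => ?_, fun x hx => ?_⟩
    · show u x + u' x = 0
      rw [hu1 x hx, hu1' x hx, add_zero]
    · rw [pb_add, ← sub_sub]
      exact hu2' x hx

theorem fin (hC : IsRes C) (n : ℕ) (w : C.ι × E.ι → MonoidAlgebra ℤ (G × H))
    (hw : (C.prod E).IsCh n w) (hc : pb C E w = 0)
    (h : ∃ u : C.ι × E.ι → MonoidAlgebra ℤ (G × H), (C.prod E).IsCh (n + 1) u ∧ ∀ x : C.ι × E.ι, C.deg x.1 = 0 → (w - pb C E u) x = 0) :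
    ∃ u : C.ι × E.ι → MonoidAlgebra ℤ (G × H), (C.prod E).IsCh (n + 1) u ∧ pb C E u = w := by
  obtain ⟨u, hu1, hu2⟩ := h
  obtain ⟨u', hu1', hu2'⟩ := steps hC n (w - pb C E u) (fun x hx => by
      show w x - pb C E u x = 0
      rw [hw x hx, pb_IsCh n hu1 x hx, sub_zero]) (by rw [pb_sub, hc, pb_pb, sub_zero]) hu2 n
  refine ⟨u + u', fun x hx => ?_, ?_⟩
  · show u x + u' x = 0
    rw [hu1 x hx, hu1' x hx, add_zero]
  · rw [pb_add, eq_comm, ← sub_eq_zero, ← sub_sub]
    funext x
    by_cases hx : C.deg x.1 < n + 1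
    · exact hu2' x hx
    · have h5 : (C.prod E).deg x ≠ n := by
        show C.deg x.1 + E.deg x.2 ≠ n
        omega
      show w x - pb C E u x - pb C E u' x = 0
      rw [hw x h5, pb_IsCh n hu1 x h5, pb_IsCh n hu1' x h5, sub_zero, sub_zero]

/-- **The product of two free resolutions of `ℤ` is a free resolution of `ℤ`.** -/
theorem IsRes.prod (hC : IsRes C) (hE : IsRes E) : IsRes (C.prod E) where
  exact n (w : C.ι × E.ι → MonoidAlgebra ℤ (G × H)) hw hc' := by
    have hc : pb C E w = 0 := hc'
    refine fin hC (n + 1) w hw hc (step0 hC (n + 1) w hw ?_)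
    refine hE.exact n _ (fun j hj => ?_) ?_
    · refine Finset.sum_eq_zero fun i _ => ?_
      have h1 : rs 0 w (i, j) = 0 := by
        unfold rs
        split_ifs with h2
        · refine hw (i, j) ?_
          show C.deg i + E.deg j ≠ n + 1
          have h3 : C.deg i = 0 := h2
          omega
        · rfl
      rw [h1, map_zero]
    · funext j
      rw [← pj_D2 (rs 0 w) (fun i j hi => if_neg hi) j]
      by_cases hj : E.deg j = n
      · -- the component of bidegree `(0, n)`
        have h1 : ∀ i, C.deg i = 0 → D1 C E (rs 1 w) (i, j) + D2 C E (rs 0 w) (i, j) = 0 := by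
          intro i hi
          have h2 := congrFun hc (i, j)
          rw [pb_eq] at h2
          refine Eq.trans ?_ h2
          congr 1
          · unfold D1
            refine Finset.sum_congr rfl fun k _ => ?_
            by_cases hk : C.D k i = 0
            · show rs 1 w (k, j) * il (C.D k i) = w (k, j) * il (C.D k i)
              rw [hk, map_zero, mul_zero, mul_zero]
            · have h3 := C.D_deg k i hk
              have h4 : rs 1 w (k, j) = w (k, j) := if_pos (by show C.deg k = 1; omega)
              show rs 1 w (k, j) * il (C.D k i) = w (k, j) * il (C.D k i)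
              rw [h4]
          · unfold D2
            refine congrArg _ (Finset.sum_congr rfl fun k _ => ?_)
            have h4 : rs 0 w (i, k) = w (i, k) := if_pos hi
            show rs 0 w (i, k) * ir (E.D k j) = w (i, k) * ir (E.D k j)
            rw [h4]
        have h2 : ∀ i, C.deg i ≠ 0 → D1 C E (rs 1 w) (i, j) = 0 ∧ D2 C E (rs 0 w) (i, j) = 0 := by
          intro i hi
          constructor
          · unfold D1
            refine Finset.sum_eq_zero fun k _ => ?_
            show rs 1 w (k, j) * il (C.D k i) = 0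
            by_cases hk : C.D k i = 0
            · rw [hk, map_zero, mul_zero]
            · have h3 := C.D_deg k i hk
              have h4 : rs 1 w (k, j) = 0 := if_neg (by show ¬ C.deg k = 1; omega)
              rw [h4, zero_mul]
          · unfold D2
            show (-1) ^ C.deg i * ∑ k, rs 0 w (i, k) * ir (E.D k j) = 0
            rw [Finset.sum_eq_zero fun k _ => by
              have h4 : rs 0 w (i, k) = 0 := if_neg hi
              rw [h4, zero_mul], mul_zero]
        have h3 : pj (D1 C E (rs 1 w)) j + pj (D2 C E (rs 0 w)) j = 0 := by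
          show (∑ i, sn (D1 C E (rs 1 w) (i, j))) + (∑ i, sn (D2 C E (rs 0 w) (i, j))) = 0
          rw [← Finset.sum_add_distrib]
          refine Finset.sum_eq_zero fun i _ => ?_
          rw [← map_add]
          by_cases hi : C.deg i = 0
          · rw [h1 i hi, map_zero]
          · rw [(h2 i hi).1, (h2 i hi).2, add_zero, map_zero]
        rw [pj_D1 hC _ _ (fun i hi => if_neg hi), zero_add] at h3
        exact h3
      · -- other degrees
        refine Finset.sum_eq_zero fun i _ => ?_
        have h1 : D2 C E (rs 0 w) (i, j) = 0 := by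
          unfold D2
          show (-1) ^ C.deg i * ∑ k, rs 0 w (i, k) * ir (E.D k j) = 0
          rw [Finset.sum_eq_zero fun k _ => ?_, mul_zero]
          by_cases hk : E.D k j = 0
          · rw [hk, map_zero, mul_zero]
          · have h3 := E.D_deg k j hk
            have h4 : rs 0 w (i, k) = 0 := by
              unfold rs
              split_ifs with h5
              · refine hw (i, k) ?_
                show C.deg i + E.deg k ≠ n + 1
                have h6 : C.deg i = 0 := h5
                omega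
              · rfl
            rw [h4, zero_mul]
        rw [h1, map_zero]
  zero (w : C.ι × E.ι → MonoidAlgebra ℤ (G × H)) hw := by
    constructor
    · rintro ⟨(u : C.ι × E.ι → MonoidAlgebra ℤ (G × H)), hu, rfl⟩
      rw [ep_prod]
      -- the augmentation of a boundary
      have h1 : pj (pb C E u) = E.bd (pj (rs 0 u)) := by
        funext j
        have h2 : ∀ i, pb C E u (i, j) = D1 C E (rs 1 u) (i, j) + D2 C E (rs 0 u) (i, j) := by
          intro i
          rw [pb_eq]
          have hu0 : ∀ (i : C.ι) (k : E.ι), C.deg i ≠ 0 → C.deg i ≠ 1 → u (i, k) = 0 := by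
            intro i k hi hi'
            refine hu (i, k) ?_
            show C.deg i + E.deg k ≠ 1
            omega
          congr 1
          · unfold D1
            refine Finset.sum_congr rfl fun k _ => ?_
            show u (k, j) * il (C.D k i) = rs 1 u (k, j) * il (C.D k i)
            by_cases hk : C.deg k = 1
            · have h4 : rs 1 u (k, j) = u (k, j) := if_pos hk
              rw [h4]
            · by_cases hk' : C.D k i = 0
              · rw [hk', map_zero, mul_zero, mul_zero]
              · have h3 := C.D_deg k i hk'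
                have h4 : rs 1 u (k, j) = 0 := if_neg hk
                rw [h4, hu0 k j (by omega) hk]
          · unfold D2
            refine congrArg _ (Finset.sum_congr rfl fun k _ => ?_)
            show u (i, k) * ir (E.D k j) = rs 0 u (i, k) * ir (E.D k j)
            by_cases hi : C.deg i = 0
            · have h4 : rs 0 u (i, k) = u (i, k) := if_pos hi
              rw [h4]
            · have h4 : rs 0 u (i, k) = 0 := if_neg hi
              by_cases hk' : E.D k j = 0
              · rw [hk', map_zero, mul_zero, mul_zero]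
              · have h3 := E.D_deg k j hk'
                have h5 : u (i, k) = 0 := hu (i, k) (by
                  show C.deg i + E.deg k ≠ 1
                  omega)
                rw [h4, h5]
        have h3 : pj (pb C E u) j = pj (D1 C E (rs 1 u)) j + pj (D2 C E (rs 0 u)) j := by
          show (∑ i, sn (pb C E u (i, j))) = (∑ i, sn (D1 C E (rs 1 u) (i, j))) +
            (∑ i, sn (D2 C E (rs 0 u) (i, j)))
          rw [← Finset.sum_add_distrib]
          refine Finset.sum_congr rfl fun i _ => ?_
          rw [h2 i, map_add]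
        rw [h3, pj_D1 hC _ _ (fun i hi => if_neg hi), zero_add, pj_D2 _ (fun i j hi => if_neg hi)]
      show ep E (pj (pb C E u)) = 0
      rw [h1]
      refine ep_bd E hE fun j hj => Finset.sum_eq_zero fun i _ => ?_
      have h4 : rs 0 u (i, j) = 0 := by
        unfold rs
        split_ifs with h5
        · refine hu (i, j) ?_
          show C.deg i + E.deg j ≠ 1
          have h6 : C.deg i = 0 := h5
          omega
        · rfl
      rw [h4, map_zero]
    · intro h
      refine fin hC 0 w hw (pb_zero hw) (step0 hC 0 w hw ?_)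
      have h1 : rs 0 w = w := by
        funext x
        unfold rs
        split_ifs with h2
        · rfl
        · exact (hw x (by
            show C.deg x.1 + E.deg x.2 ≠ 0
            omega)).symm
      rw [h1]
      refine (hE.zero (pj w) fun j hj => Finset.sum_eq_zero fun i _ => ?_).2 ?_
      · rw [hw (i, j) (by
          show C.deg i + E.deg j ≠ 0
          omega), map_zero]
      · rw [← ep_prod]
        exact h
  surj := by
    obtain ⟨v, hv, hv'⟩ := hC.surj
    obtain ⟨z, hz, hz'⟩ := hE.surj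
    refine ⟨tp v z, fun x hx => ?_, ?_⟩
    · have h1 : C.deg x.1 + E.deg x.2 ≠ 0 := hx
      unfold tp
      by_cases h2 : C.deg x.1 = 0
      · rw [hz x.2 (by omega), map_zero, mul_zero]
      · rw [hv x.1 h2, map_zero, zero_mul]
    · rw [ep_prod]
      have h3 : pj (tp v z) = z := by
        funext j
        rw [pj_tp, hv', Int.cast_one, one_mul]
      rw [h3, hz']

/-- The complex of the Davis complex is a free resolution. -/
theorem davis_res {V : Type} [Fintype V] [LinearOrder V] (S : SimpleGraph V) : IsRes (davis S) where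
  exact n v hv h := davis_exact S n v hv h
  zero v hv := by
    rw [davis_zero S v hv]
    unfold eps ep
    rw [Finset.sum_congr rfl fun i _ => (aug_eq (Gam S) (v i)).symm]
  surj := by
    classical
    let i : (davis S).ι := ⟨((∅ : Finset V), (∅ : Finset V)), by simp, Finset.disjoint_empty_left _⟩
    refine ⟨Pi.single i 1, fun j hj => ?_, ?_⟩
    · rw [Pi.single_eq_of_ne]
      rintro rfl
      exact hj (Finset.card_empty (α := V))
    · unfold ep
      rw [Finset.sum_eq_single i]
      · rw [Pi.single_eq_same, map_one]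
      · intro j _ hj
        rw [Pi.single_eq_of_ne hj, map_zero]
      · intro h
        exact absurd (Finset.mem_univ _) h

theorem square_res {V : Type} [Fintype V] [LinearOrder V] (S : SimpleGraph V) : IsRes (davis S).square :=
  (davis_res S).prod (davis_res S)

theorem cube_res {V : Type} [Fintype V] [LinearOrder V] (S : SimpleGraph V) : IsRes (davis S).cube :=
  (davis_res S).prod ((davis_res S).prod (davis_res S))

end Pool.Agent.H831.Kun
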