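import Pool.Agent.H831.ResA
import Pool.Graph.R_pool_sql_team_seeded_63374d34.N496.LT.L1

/-!
# The Davis complex is a free resolution, and the commutator subgroup is torsion free
-/

set_option autoImplicit false

open scoped Matrix

noncomputable section

namespace Pool.Agent.H831.Res

open Pool.Agent.N496.LT.Lt

section gen

variable {G : Type} [Group G] (C : BCx G)

/-- the numbering of the cells of dimension `n` -/
def nu (n : ℕ) : {i : C.ι // C.deg i = n} ≃ Fin (C.cnt n) := Fintype.equivFin {i : C.ι // C.deg i = n}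

theorem cel_nu (n : ℕ) (i : {i : C.ι // C.deg i = n}) : C.cel n (nu C n i) = i.1 := by
  show ((nu C n).symm (nu C n i)).1 = i.1
  rw [Equiv.symm_apply_apply]

theorem cel_deg (n : ℕ) (a : Fin (C.cnt n)) : C.deg (C.cel n a) = n := ((nu C n).symm a).2

/-- the sum of a function vanishing outside of the cells of dimension `n` -/
theorem sum_cel {M : Type} [AddCommMonoid M] (n : ℕ) (f : C.ι → M) (hf : ∀ i, C.deg i ≠ n → f i = 0) :
    ∑ a, f (C.cel n a) = ∑ i, f i := by
  classical
  have h1 : ∑ a, f (C.cel n a) = ∑ i : {i : C.ι // C.deg i = n}, f i.1 := by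
    rw [← (nu C n).sum_comp]
    exact Finset.sum_congr rfl fun i _ => by rw [cel_nu]
  rw [h1]
  exact Pool.Agent.N496.LT.sum_deg C.deg n f hf

/-- the coordinates of a chain -/
def crd (n : ℕ) (v : C.ι → MonoidAlgebra ℤ G) : Fin (C.cnt n) → MonoidAlgebra ℤ G := fun a => v (C.cel n a)

theorem crd_inj (n : ℕ) {v w : C.ι → MonoidAlgebra ℤ G} (hv : C.IsCh n v) (hw : C.IsCh n w)
    (h : crd C n v = crd C n w) : v = w := by
  funext i
  by_cases hi : C.deg i = n
  · have := congrFun h (nu C n ⟨i, hi⟩)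
    unfold crd at this
    rw [cel_nu] at this
    exact this
  · rw [hv i hi, hw i hi]

theorem crd_surj (n : ℕ) (x : Fin (C.cnt n) → MonoidAlgebra ℤ G) : ∃ v, C.IsCh n v ∧ crd C n v = x := by
  refine ⟨fun i => if h : C.deg i = n then x (nu C n ⟨i, h⟩) else 0, fun i hi => dif_neg hi, ?_⟩
  funext a
  show (if h : C.deg (C.cel n a) = n then x (nu C n ⟨C.cel n a, h⟩) else 0) = x a
  rw [dif_pos (cel_deg C n a)]
  exact congrArg x ((nu C n).apply_symm_apply a)

theorem bd_IsCh (n : ℕ) {v : C.ι → MonoidAlgebra ℤ G} (hv : C.IsCh (n + 1) v) : C.IsCh n (C.bd v) := by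
  intro j hj
  show ∑ i, v i * C.D i j = 0
  refine Finset.sum_eq_zero fun i _ => ?_
  by_cases h : C.D i j = 0
  · rw [h, mul_zero]
  · rw [hv i (fun h1 => hj (by have := C.D_deg i j h; omega)), zero_mul]

theorem bd_IsCh_zero {v : C.ι → MonoidAlgebra ℤ G} (hv : C.IsCh 0 v) : C.bd v = 0 := by
  funext j
  show ∑ i, v i * C.D i j = 0
  refine Finset.sum_eq_zero fun i _ => ?_
  by_cases h : C.D i j = 0
  · rw [h, mul_zero]
  · rw [hv i (fun h1 => by have := C.D_deg i j h; omega), zero_mul]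

theorem crd_bd (n : ℕ) {v : C.ι → MonoidAlgebra ℤ G} (hv : C.IsCh (n + 1) v) :
    crd C n (C.bd v) = crd C (n + 1) v ᵥ* C.mD n := by
  funext b
  show ∑ i, v i * C.D i (C.cel n b) = ∑ a, v (C.cel (n + 1) a) * C.D (C.cel (n + 1) a) (C.cel n b)
  exact (sum_cel C (n + 1) (fun i => v i * C.D i (C.cel n b)) fun i hi => by
    show v i * _ = 0
    rw [hv i hi, zero_mul]).symm

end gen

variable {V : Type} [Fintype V] [LinearOrder V] (S : SimpleGraph V)

/-- The augmentation of the chains of dimension zero: the sum of all the coefficients. -/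
def eps (v : (davis S).ι → MonoidAlgebra ℤ (Gam S)) : ℤ := ∑ i, (v i).coeff.sum fun _ a => a

theorem aug_eq (Γ : Type) [Group Γ] (x : MonoidAlgebra ℤ Γ) : PRES.aug Γ x = x.coeff.sum fun _ a => a := by
  show MonoidAlgebra.lift ℤ ℤ Γ 1 x = _
  rw [MonoidAlgebra.lift_apply]
  refine Finsupp.sum_congr fun g _ => ?_
  simp

theorem eps_eq {v : (davis S).ι → MonoidAlgebra ℤ (Gam S)} (hv : (davis S).IsCh 0 v) :
    eps S v = ∑ a, PRES.aug (Gam S) (crd (davis S) 0 v a) := by
  have h := sum_cel (davis S) 0 (fun i => PRES.aug (Gam S) (v i)) fun i hi => by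
    show PRES.aug (Gam S) (v i) = 0
    rw [hv i hi, map_zero]
  refine Eq.trans ?_ h.symm
  exact Finset.sum_congr rfl fun i _ => (aug_eq (Gam S) (v i)).symm

/-- **Exactness in positive degrees.** Every cycle of positive dimension is a boundary. -/
theorem davis_exact (n : ℕ) (v : (davis S).ι → MonoidAlgebra ℤ (Gam S)) (hv : (davis S).IsCh (n + 1) v)
    (h : (davis S).bd v = 0) : ∃ u, (davis S).IsCh (n + 2) u ∧ (davis S).bd u = v := by
  obtain ⟨w, hw⟩ := ((res_all V S).2 n (crd (davis S) (n + 1) v)).1 (by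
    have h1 := crd_bd (davis S) n hv
    rw [h] at h1
    exact h1.symm)
  obtain ⟨u, hu, rfl⟩ := crd_surj (davis S) (n + 2) w
  refine ⟨u, hu, crd_inj (davis S) (n + 1) (bd_IsCh _ _ hu) hv ?_⟩
  rw [hw]
  exact crd_bd (davis S) (n + 1) hu

/-- **Exactness in degree zero.** A chain of dimension zero is a boundary iff its augmentation is zero. -/
theorem davis_zero (v : (davis S).ι → MonoidAlgebra ℤ (Gam S)) (hv : (davis S).IsCh 0 v) :
    (∃ u, (davis S).IsCh 1 u ∧ (davis S).bd u = v) ↔ eps S v = 0 := by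
  rw [eps_eq S hv]
  refine Iff.trans ?_ ((res_all V S).1 (crd (davis S) 0 v)).symm
  constructor
  · rintro ⟨u, hu, rfl⟩
    exact ⟨crd (davis S) 1 u, crd_bd (davis S) 0 hu⟩
  · rintro ⟨w, hw⟩
    obtain ⟨u, hu, rfl⟩ := crd_surj (davis S) 1 w
    exact ⟨u, hu, crd_inj (davis S) 0 (bd_IsCh _ _ hu) hv (by rw [hw]; exact crd_bd (davis S) 0 hu)⟩

omit [LinearOrder V] in
/-- The group `Γ` is torsion free. -/
theorem gam_torsionFree (g : Gam S) (n : ℕ) (hn : 0 < n) (h : g ^ n = 1) : g = 1 :=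
  Subtype.ext (Pool.Agent.N496.CV.tf V S g.1 g.2 n hn (congrArg Subtype.val h))

end Pool.Agent.H831.Res
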