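import Mathlib

/-!
# Comparison of resolutions and their quotients

Complexes of modules with an action of a group `G`, elementary.
-/

set_option autoImplicit false

noncomputable section

namespace Pool.Agent.H831.Sg

open Function

variable {G : Type} [Group G]

/-- The lifting property of free (projective) modules with an action of `G`. -/
def Lf {A : Type} [AddCommGroup A] (ρ : G →* AddMonoid.End A) : Prop :=
  ∀ (B B' : Type) [AddCommGroup B] [AddCommGroup B'] (σ : G →* AddMonoid.End B) (σ' : G →* AddMonoid.End B')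
    (d : B →+ B') (φ : A →+ B'), (∀ g b, d (σ g b) = σ' g (d b)) → (∀ g a, φ (ρ g a) = σ' g (φ a)) →
    (∀ a, ∃ b, d b = φ a) → ∃ ψ : A →+ B, (∀ g a, ψ (ρ g a) = σ g (ψ a)) ∧ ∀ a, d (ψ a) = φ a

/-- A resolution: `A 0` is the resolved module, `A (n + 1)` are free, the sequence is exact. -/
structure Rs (G : Type) [Group G] where
  A : ℕ → Type
  [grp : ∀ n, AddCommGroup (A n)]
  ρ : ∀ n, G →* AddMonoid.End (A n)
  d : ∀ n, A (n + 1) →+ A n
  eqv : ∀ n g a, d n (ρ (n + 1) g a) = ρ n g (d n a)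
  dd : ∀ n a, d n (d (n + 1) a) = 0
  ex0 : ∀ a, ∃ b, d 0 b = a
  ex : ∀ n a, d n a = 0 → ∃ b, d (n + 1) b = a
  lf : ∀ n, Lf (ρ (n + 1))

attribute [instance] Rs.grp

variable (X Y : Rs G)

/-- equivariant maps in degree `n` such that the next one exists -/
def Mp (n : ℕ) : Type := {f : X.A n →+ Y.A n // (∀ g a, f (X.ρ n g a) = Y.ρ n g (f a)) ∧
  ∀ a, ∃ b, Y.d n b = f (X.d n a)}

theorem mp_next (n : ℕ) (f : Mp X Y n) : ∃ f' : Mp X Y (n + 1), ∀ a, Y.d n (f'.1 a) = f.1 (X.d n a) := by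
  obtain ⟨f, h1, h2⟩ := f
  obtain ⟨ψ, h3, h4⟩ := X.lf n _ _ (Y.ρ (n + 1)) (Y.ρ n) (Y.d n) (f.comp (X.d n)) (Y.eqv n) (fun g a => by
    show f (X.d n (X.ρ (n + 1) g a)) = Y.ρ n g (f (X.d n a))
    rw [X.eqv, h1]) h2
  exact ⟨⟨ψ, h3, fun a => Y.ex n _ (by
    rw [h4]
    show f (X.d n (X.d (n + 1) a)) = 0
    rw [X.dd, map_zero])⟩, h4⟩

/-- **Comparison maps.** -/
theorem exists_map (f0 : X.A 0 →+ Y.A 0) (h0 : ∀ g a, f0 (X.ρ 0 g a) = Y.ρ 0 g (f0 a)) :
    ∃ f : ∀ n, X.A n →+ Y.A n, f 0 = f0 ∧ (∀ n g a, f n (X.ρ n g a) = Y.ρ n g (f n a)) ∧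
      ∀ n a, Y.d n (f (n + 1) a) = f n (X.d n a) := by
  choose nx hnx using mp_next X Y
  let F : ∀ n, Mp X Y n := fun n => Nat.rec ⟨f0, h0, fun a => Y.ex0 _⟩ (fun n f => nx n f) n
  exact ⟨fun n => (F n).1, rfl, fun n => (F n).2.1, fun n => hnx n (F n)⟩

/-- the partial homotopies -/
def Ho (h : ∀ n, X.A n →+ X.A n) (n : ℕ) : Type := {s : X.A n →+ X.A (n + 1) //
  (∀ g a, s (X.ρ n g a) = X.ρ (n + 1) g (s a)) ∧ ∀ a, X.d n (s (X.d n a)) = h n (X.d n a)}

theorem ho_next (h : ∀ n, X.A n →+ X.A n) (he : ∀ n g a, h n (X.ρ n g a) = X.ρ n g (h n a))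
    (hd : ∀ n a, X.d n (h (n + 1) a) = h n (X.d n a)) (n : ℕ) (s : Ho X h n) :
    ∃ s' : Ho X h (n + 1), ∀ a, h (n + 1) a = X.d (n + 1) (s'.1 a) + s.1 (X.d n a) := by
  obtain ⟨s, h1, h2⟩ := s
  obtain ⟨ψ, h3, h4⟩ := X.lf n _ _ (X.ρ (n + 2)) (X.ρ (n + 1)) (X.d (n + 1)) (h (n + 1) - s.comp (X.d n))
    (X.eqv (n + 1)) (fun g a => by
      show h (n + 1) (X.ρ (n + 1) g a) - s (X.d n (X.ρ (n + 1) g a)) = X.ρ (n + 1) g (h (n + 1) a - s (X.d n a))
      rw [map_sub, he, X.eqv, h1]) (fun a => X.ex n _ (by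
      show X.d n (h (n + 1) a - s (X.d n a)) = 0
      rw [map_sub, hd, h2, sub_self]))
  have h5 : ∀ a, h (n + 1) a = X.d (n + 1) (ψ a) + s (X.d n a) := fun a => by
    rw [h4]
    show h (n + 1) a = h (n + 1) a - s (X.d n a) + s (X.d n a)
    rw [sub_add_cancel]
  refine ⟨⟨ψ, h3, fun a => ?_⟩, h5⟩
  have := h5 (X.d (n + 1) a)
  rw [X.dd, map_zero, add_zero] at this
  exact this.symm

/-- **Comparison homotopies.** -/
theorem exists_ho (h : ∀ n, X.A n →+ X.A n) (he : ∀ n g a, h n (X.ρ n g a) = X.ρ n g (h n a))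
    (hd : ∀ n a, X.d n (h (n + 1) a) = h n (X.d n a)) (h0 : h 0 = 0) :
    ∃ s : ∀ n, X.A n →+ X.A (n + 1), (∀ n g a, s n (X.ρ n g a) = X.ρ (n + 1) g (s n a)) ∧
      ∀ n a, h (n + 1) a = X.d (n + 1) (s (n + 1) a) + s n (X.d n a) := by
  choose nx hnx using ho_next X h he hd
  let S : ∀ n, Ho X h n := fun n => Nat.rec ⟨0, fun g a => by
    rw [AddMonoidHom.zero_apply, AddMonoidHom.zero_apply, map_zero], fun a => by
    rw [h0, AddMonoidHom.zero_apply, AddMonoidHom.zero_apply, map_zero]⟩ (fun n s => nx n s) n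
  exact ⟨fun n => (S n).1, fun n => (S n).2.1, fun n => hnx n (S n)⟩

/-! ### The quotients -/

/-- the submodule generated by the elements `k a - a`, `k ∈ K` -/
def J {A : Type} [AddCommGroup A] (ρ : G →* AddMonoid.End A) (K : Subgroup G) : AddSubgroup A :=
  AddSubgroup.closure {x | ∃ k ∈ K, ∃ a, x = ρ k a - a}

theorem J_map {A B : Type} [AddCommGroup A] [AddCommGroup B] {ρ : G →* AddMonoid.End A} {σ : G →* AddMonoid.End B}
    (K : Subgroup G) (f : A →+ B) (hf : ∀ g a, f (ρ g a) = σ g (f a)) {x : A} (hx : x ∈ J ρ K) : f x ∈ J σ K := by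
  unfold J at hx
  induction hx using AddSubgroup.closure_induction with
  | mem x hx =>
    obtain ⟨k, hk, a, rfl⟩ := hx
    rw [map_sub, hf]
    exact AddSubgroup.subset_closure ⟨k, hk, f a, rfl⟩
  | zero => rw [map_zero]; exact zero_mem _
  | add x y _ _ hx hy => rw [map_add]; exact add_mem hx hy
  | neg x _ hx => rw [map_neg]; exact neg_mem hx

/-- The quotient complex of the complex `A 1 ← A 2 ← ...` by `K`. -/
structure Qd (K : Subgroup G) where
  B : ℕ → Type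
  [grp : ∀ n, AddCommGroup (B n)]
  p : ∀ n, X.A (n + 1) →+ B n
  surj : ∀ n, Surjective (p n)
  ker : ∀ n x, p n x = 0 → x ∈ J (X.ρ (n + 1)) K
  inv : ∀ n, ∀ k ∈ K, ∀ a, p n (X.ρ (n + 1) k a) = p n a
  d : ∀ n, B (n + 1) →+ B n
  comm : ∀ n x, d n (p (n + 1) x) = p n (X.d (n + 1) x)

attribute [instance] Qd.grp

variable {X Y}

theorem Qd.J0 {K : Subgroup G} (P : Qd X K) (n : ℕ) {x : X.A (n + 1)} (hx : x ∈ J (X.ρ (n + 1)) K) : P.p n x = 0 := by
  unfold J at hx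
  induction hx using AddSubgroup.closure_induction with
  | mem x hx =>
    obtain ⟨k, hk, a, rfl⟩ := hx
    rw [map_sub, P.inv n k hk, sub_self]
  | zero => rw [map_zero]
  | add x y _ _ hx hy => rw [map_add, hx, hy, add_zero]
  | neg x _ hx => rw [map_neg, hx, neg_zero]

/-- homology -/
abbrev Hq {A2 A1 A0 : Type} [AddCommGroup A2] [AddCommGroup A1] [AddCommGroup A0] (d2 : A2 →+ A1) (d1 : A1 →+ A0) :
    Type := d1.ker ⧸ (d2.range.addSubgroupOf d1.ker)

/-- descending a map to the quotients -/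
theorem desc {A Ab Bb : Type} [AddCommGroup A] [AddCommGroup Ab] [AddCommGroup Bb] (p : A →+ Ab) (hp : Surjective p)
    (q : A →+ Bb) (h : ∀ x, p x = 0 → q x = 0) : ∃ f : Ab →+ Bb, ∀ x, f (p x) = q x := by
  refine ⟨p.liftOfSurjective hp ⟨q, fun x hx => h x hx⟩, fun x => ?_⟩
  exact AddMonoidHom.liftOfRightInverse_comp_apply p _ _ _ x

/-- **The homology groups of the quotients of two resolutions are isomorphic.** -/
theorem Qd.iso {K : Subgroup G} (P : Qd X K) (Q : Qd Y K) (f0 : X.A 0 →+ Y.A 0) (g0 : Y.A 0 →+ X.A 0)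
    (hf0 : ∀ g a, f0 (X.ρ 0 g a) = Y.ρ 0 g (f0 a)) (hg0 : ∀ g a, g0 (Y.ρ 0 g a) = X.ρ 0 g (g0 a))
    (hgf : ∀ a, g0 (f0 a) = a) (hfg : ∀ a, f0 (g0 a) = a) (n : ℕ) :
    Nonempty (Hq (P.d (n + 1)) (P.d n) ≃+ Hq (Q.d (n + 1)) (Q.d n)) := by
  obtain ⟨f, f1, f2, f3⟩ := exists_map X Y f0 hf0
  obtain ⟨g, g1, g2, g3⟩ := exists_map Y X g0 hg0
  obtain ⟨s, s1, s2⟩ := exists_ho X (fun n => AddMonoidHom.id _ - (g n).comp (f n))
    (fun n k a => by
      show X.ρ n k a - g n (f n (X.ρ n k a)) = X.ρ n k (a - g n (f n a))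
      rw [map_sub, f2, g2])
    (fun n a => by
      show X.d n (a - g (n + 1) (f (n + 1) a)) = X.d n a - g n (f n (X.d n a))
      rw [map_sub, g3, f3]) (by
      ext a
      show a - g 0 (f 0 a) = 0
      rw [f1, g1, hgf, sub_self])
  obtain ⟨t, t1, t2⟩ := exists_ho Y (fun n => AddMonoidHom.id _ - (f n).comp (g n))
    (fun n k a => by
      show Y.ρ n k a - f n (g n (Y.ρ n k a)) = Y.ρ n k (a - f n (g n a))
      rw [map_sub, g2, f2])
    (fun n a => by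
      show Y.d n (a - f (n + 1) (g (n + 1) a)) = Y.d n a - f n (g n (Y.d n a))
      rw [map_sub, f3, g3]) (by
      ext a
      show a - f 0 (g 0 a) = 0
      rw [g1, f1, hfg, sub_self])
  -- the maps of the quotients
  have dF : ∀ n, ∃ F : P.B n →+ Q.B n, ∀ x, F (P.p n x) = Q.p n (f (n + 1) x) := fun n =>
    desc (P.p n) (P.surj n) ((Q.p n).comp (f (n + 1))) fun x hx => Q.J0 n (J_map K _ (f2 (n + 1)) (P.ker n x hx))
  have dG : ∀ n, ∃ F : Q.B n →+ P.B n, ∀ x, F (Q.p n x) = P.p n (g (n + 1) x) := fun n =>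
    desc (Q.p n) (Q.surj n) ((P.p n).comp (g (n + 1))) fun x hx => P.J0 n (J_map K _ (g2 (n + 1)) (Q.ker n x hx))
  have dS : ∀ n, ∃ F : P.B n →+ P.B (n + 1), ∀ x, F (P.p n x) = P.p (n + 1) (s (n + 1) x) := fun n =>
    desc (P.p n) (P.surj n) ((P.p (n + 1)).comp (s (n + 1))) fun x hx =>
      P.J0 (n + 1) (J_map K _ (s1 (n + 1)) (P.ker n x hx))
  have dT : ∀ n, ∃ F : Q.B n →+ Q.B (n + 1), ∀ x, F (Q.p n x) = Q.p (n + 1) (t (n + 1) x) := fun n =>
    desc (Q.p n) (Q.surj n) ((Q.p (n + 1)).comp (t (n + 1))) fun x hx =>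
      Q.J0 (n + 1) (J_map K _ (t1 (n + 1)) (Q.ker n x hx))
  choose F hF using dF
  choose Gm hG using dG
  choose S hS using dS
  choose T hT using dT
  have c1 : ∀ n x, Q.d n (F (n + 1) x) = F n (P.d n x) := by
    intro n x
    obtain ⟨x, rfl⟩ := P.surj (n + 1) x
    rw [hF, Q.comm, f3, P.comm, hF]
  have c2 : ∀ n x, P.d n (Gm (n + 1) x) = Gm n (Q.d n x) := by
    intro n x
    obtain ⟨x, rfl⟩ := Q.surj (n + 1) x
    rw [hG, P.comm, g3, Q.comm, hG]
  have c3 : ∀ n x, x - Gm (n + 1) (F (n + 1) x) = P.d (n + 1) (S (n + 1) x) + S n (P.d n x) := by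
    intro n x
    obtain ⟨x, rfl⟩ := P.surj (n + 1) x
    have h := s2 (n + 1) x
    have h' : x - g (n + 2) (f (n + 2) x) = X.d (n + 2) (s (n + 2) x) + s (n + 1) (X.d (n + 1) x) := h
    rw [hF, hG, hS, P.comm, P.comm, hS, ← map_sub, ← map_add, ← h']
  have c4 : ∀ n x, x - F (n + 1) (Gm (n + 1) x) = Q.d (n + 1) (T (n + 1) x) + T n (Q.d n x) := by
    intro n x
    obtain ⟨x, rfl⟩ := Q.surj (n + 1) x
    have h := t2 (n + 1) x
    have h' : x - f (n + 2) (g (n + 2) x) = Y.d (n + 2) (t (n + 2) x) + t (n + 1) (Y.d (n + 1) x) := h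
    rw [hG, hF, hT, Q.comm, Q.comm, hT, ← map_sub, ← map_add, ← h']
  -- the map in homology
  let φ : (P.d n).ker →+ (Q.d n).ker := ((F (n + 1)).comp (P.d n).ker.subtype).codRestrict _ fun x => by
    show Q.d n (F (n + 1) x.1) = 0
    rw [c1, show P.d n x.1 = 0 from x.2, map_zero]
  have hφ : (P.d (n + 1)).range.addSubgroupOf (P.d n).ker ≤
      AddSubgroup.comap φ ((Q.d (n + 1)).range.addSubgroupOf (Q.d n).ker) := by
    rintro x ⟨y, hy⟩
    refine ⟨F (n + 2) y, ?_⟩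
    show Q.d (n + 1) (F (n + 2) y) = F (n + 1) x.1
    rw [c1, hy]
    rfl
  let Φ := QuotientAddGroup.map _ _ φ hφ
  refine ⟨AddEquiv.ofBijective Φ ⟨?_, ?_⟩⟩
  · rw [injective_iff_map_eq_zero]
    intro x
    induction x using QuotientAddGroup.induction_on with
    | H x =>
      intro hx
      have h1 : φ x ∈ (Q.d (n + 1)).range.addSubgroupOf (Q.d n).ker := by
        rw [← QuotientAddGroup.eq_zero_iff]
        exact hx
      obtain ⟨y, hy⟩ := h1
      have hy' : Q.d (n + 1) y = F (n + 1) x.1 := hy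
      rw [QuotientAddGroup.eq_zero_iff]
      refine ⟨Gm (n + 2) y + S (n + 1) x.1, ?_⟩
      show P.d (n + 1) (Gm (n + 2) y + S (n + 1) x.1) = x.1
      have h2 := c3 n x.1
      rw [show P.d n x.1 = 0 from x.2, map_zero, add_zero] at h2
      rw [map_add, c2, hy', ← h2, add_sub_cancel]
  · intro y
    induction y using QuotientAddGroup.induction_on with
    | H y =>
      refine ⟨QuotientAddGroup.mk ⟨Gm (n + 1) y.1, ?_⟩, ?_⟩
      · show P.d n (Gm (n + 1) y.1) = 0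
        rw [c2, show Q.d n y.1 = 0 from y.2, map_zero]
      · refine (QuotientAddGroup.eq (s := (Q.d (n + 1)).range.addSubgroupOf (Q.d n).ker)).2 ?_
        refine ⟨T (n + 1) y.1, ?_⟩
        show Q.d (n + 1) (T (n + 1) y.1) = -F (n + 1) (Gm (n + 1) y.1) + y.1
        have h2 := c4 n y.1
        rw [show Q.d n y.1 = 0 from y.2, map_zero, add_zero] at h2
        rw [← h2]
        abel

end Pool.Agent.H831.Sg
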