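import Pool.Agent.H831.Sg1
import Pool.Agent.H831.Kun1

/-!
# The complexes of group ring matrices as resolutions
-/

set_option autoImplicit false

open scoped Matrix

noncomputable section

namespace Pool.Agent.H831.Sg

open Function Pool.Agent.N496.LT.Lt Pool.Agent.H831.Res Pool.Agent.H831.Kun

variable {G : Type} [Group G]

/-- the kernel of the map to the quotient by `K` -/
theorem ker_J {A α β : Type} [AddCommGroup A] [MulAction G α] (ρ : G →* AddMonoid.End A) (K : Subgroup G)
    (φ : α → β) (hφ : ∀ a b, φ a = φ b → ∃ k ∈ K, b = k • a) (s : α → A) (hs : ∀ (g : G) a, s (g • a) = ρ g (s a))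
    (c : α →₀ ℤ) (hc : c.mapDomain φ = 0) : (c.sum fun a r => r • s a) ∈ J ρ K := by
  classical
  by_cases hα : Nonempty α
  swap
  · have h0 : c = 0 := Finsupp.ext fun a => absurd ⟨a⟩ hα
    rw [h0, Finsupp.sum_zero_index]
    exact zero_mem _
  have hr : ∀ a, φ (invFun φ (φ a)) = φ a := fun a => invFun_eq ⟨a, rfl⟩
  have h1 : (c.sum fun a r => r • s a) = (c.sum fun a r => r • (s a - s (invFun φ (φ a)))) +
      (c.sum fun a r => r • s (invFun φ (φ a))) := by
    rw [← Finsupp.sum_add]
    refine Finsupp.sum_congr fun a _ => ?_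
    rw [smul_sub, sub_add_cancel]
  have h2 : (c.sum fun a r => r • s (invFun φ (φ a))) = 0 := by
    have h3 := Finsupp.sum_mapDomain_index (f := φ) (s := c) (h := fun b r => r • s (invFun φ b))
      (fun b => zero_smul _ _) (fun b r r' => add_smul _ _ _)
    rw [← h3, hc, Finsupp.sum_zero_index]
  rw [h1, h2, add_zero]
  refine sum_mem fun a _ => zsmul_mem ?_ _
  obtain ⟨k, hk, h4⟩ := hφ _ _ (hr a)
  refine AddSubgroup.subset_closure ⟨k, hk, s (invFun φ (φ a)), ?_⟩
  rw [← hs, ← h4]

/-! ### Extending an action to the group ring -/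

/-- the action of the group ring -/
def ac {B : Type} [AddCommGroup B] (σ : G →* AddMonoid.End B) : MonoidAlgebra ℤ G →+* AddMonoid.End B :=
  (MonoidAlgebra.lift ℤ (AddMonoid.End B) G σ).toRingHom

theorem ac_single {B : Type} [AddCommGroup B] (σ : G →* AddMonoid.End B) (g : G) (r : ℤ) (b : B) :
    ac σ (MonoidAlgebra.single g r) b = r • σ g b := by
  have h : ac σ (MonoidAlgebra.single g r) = r • σ g := MonoidAlgebra.lift_single _ _ _
  rw [h]
  rfl

theorem ac_zero {B : Type} [AddCommGroup B] (σ : G →* AddMonoid.End B) (b : B) : ac σ 0 b = 0 := by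
  rw [map_zero]
  rfl

theorem ac_add {B : Type} [AddCommGroup B] (σ : G →* AddMonoid.End B) (x y : MonoidAlgebra ℤ G) (b : B) :
    ac σ (x + y) b = ac σ x b + ac σ y b := by
  rw [map_add]
  rfl

theorem ac_mul {B : Type} [AddCommGroup B] (σ : G →* AddMonoid.End B) (x y : MonoidAlgebra ℤ G) (b : B) :
    ac σ (x * y) b = ac σ x (ac σ y b) := by
  rw [map_mul]
  rfl

theorem ac_d {B B' : Type} [AddCommGroup B] [AddCommGroup B'] (σ : G →* AddMonoid.End B)
    (σ' : G →* AddMonoid.End B') (d : B →+ B') (hd : ∀ g b, d (σ g b) = σ' g (d b)) (x : MonoidAlgebra ℤ G) (b : B) :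
    d (ac σ x b) = ac σ' x (d b) := by
  induction x using MonoidAlgebra.induction_linear with
  | zero => rw [ac_zero, ac_zero, map_zero]
  | add x y hx hy => rw [ac_add, ac_add, map_add, hx, hy]
  | single g r => rw [ac_single, ac_single, map_zsmul, hd]

/-! ### The complex -/

variable (C : BCx G)

/-- the chains of dimension `n` -/
def Ch (n : ℕ) : AddSubgroup (C.ι → MonoidAlgebra ℤ G) where
  carrier := {v | C.IsCh n v}
  add_mem' := fun {a b} ha hb i hi => by rw [Pi.add_apply, ha i hi, hb i hi, add_zero]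
  zero_mem' := fun _ _ => rfl
  neg_mem' := fun {a} ha i hi => by rw [Pi.neg_apply, ha i hi, neg_zero]

/-- the action -/
def chR (n : ℕ) : G →* AddMonoid.End (Ch C n) where
  toFun g :=
  { toFun := fun v => ⟨fun i => MonoidAlgebra.single g 1 * v.1 i, fun i hi => by
      show MonoidAlgebra.single g 1 * v.1 i = 0
      rw [v.2 i hi, mul_zero]⟩
    map_zero' := Subtype.ext (funext fun _ => mul_zero _)
    map_add' := fun _ _ => Subtype.ext (funext fun _ => mul_add _ _ _) }
  map_one' := by
    ext v : 1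
    refine Subtype.ext (funext fun i => ?_)
    show MonoidAlgebra.single 1 1 * v.1 i = v.1 i
    exact one_mul _
  map_mul' g h := by
    ext v : 1
    refine Subtype.ext (funext fun i => ?_)
    show MonoidAlgebra.single (g * h) 1 * v.1 i = MonoidAlgebra.single g 1 * (MonoidAlgebra.single h 1 * v.1 i)
    rw [← mul_assoc, MonoidAlgebra.single_mul_single, mul_one]

/-- the element of the basis, times `x` -/
def bs (n : ℕ) (i : C.ι) (x : MonoidAlgebra ℤ G) : Ch C n := ⟨fun j => if j = i ∧ C.deg i = n then x else 0,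
  fun j hj => if_neg fun h : j = i ∧ C.deg i = n => hj (h.1 ▸ h.2)⟩

theorem bs_add (n : ℕ) (i : C.ι) (x y : MonoidAlgebra ℤ G) : bs C n i (x + y) = bs C n i x + bs C n i y := by
  refine Subtype.ext (funext fun j => ?_)
  show (if j = i ∧ C.deg i = n then x + y else 0) = (if j = i ∧ C.deg i = n then x else 0) +
    (if j = i ∧ C.deg i = n then y else 0)
  split_ifs
  · rfl
  · rw [add_zero]

/-- the same as an additive map -/
def bsA (n : ℕ) (i : C.ι) : MonoidAlgebra ℤ G →+ Ch C n :=
  AddMonoidHom.mk' (bs C n i) (bs_add C n i)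

theorem bs_act (n : ℕ) (i : C.ι) (g : G) (x : MonoidAlgebra ℤ G) :
    chR C n g (bs C n i x) = bs C n i (MonoidAlgebra.single g 1 * x) := by
  refine Subtype.ext (funext fun j => ?_)
  show MonoidAlgebra.single g 1 * (if j = i ∧ C.deg i = n then x else 0) =
    (if j = i ∧ C.deg i = n then MonoidAlgebra.single g 1 * x else 0)
  split_ifs
  · rfl
  · rw [mul_zero]

theorem sum_bs (n : ℕ) (v : Ch C n) : ∑ i, bsA C n i (v.1 i) = v := by
  refine Subtype.ext (funext fun j => ?_)
  rw [AddSubgroup.val_finsetSum, Finset.sum_apply, Finset.sum_eq_single j]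
  · show (if j = j ∧ C.deg j = n then v.1 j else 0) = v.1 j
    by_cases h : C.deg j = n
    · rw [if_pos ⟨rfl, h⟩]
    · rw [if_neg fun h' => h h'.2, v.2 j h]
  · intro i _ hi
    exact if_neg fun h => hi h.1.symm
  · intro h
    exact absurd (Finset.mem_univ _) h

theorem bs_ac {B' : Type} [AddCommGroup B'] (n : ℕ) (σ' : G →* AddMonoid.End B') (φ : Ch C n →+ B')
    (hφ : ∀ g a, φ (chR C n g a) = σ' g (φ a)) (i : C.ι) (x : MonoidAlgebra ℤ G) :
    φ (bs C n i x) = ac σ' x (φ (bs C n i 1)) := by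
  show φ (bsA C n i x) = ac σ' x (φ (bsA C n i 1))
  induction x using MonoidAlgebra.induction_linear with
  | zero => rw [map_zero, map_zero, ac_zero]
  | add x y hx hy => rw [map_add, map_add, ac_add, hx, hy]
  | single g r =>
    have h1 : MonoidAlgebra.single g r = r • (MonoidAlgebra.single g (1 : ℤ) * 1) := by
      rw [mul_one, MonoidAlgebra.smul_single, smul_eq_mul, mul_one]
    rw [ac_single, h1, map_zsmul, map_zsmul]
    congr 1
    show φ (bs C n i (MonoidAlgebra.single g (1 : ℤ) * 1)) = _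
    rw [← bs_act, hφ]
    rfl

theorem ch_lf (n : ℕ) : Lf (chR C n) := by
  intro B B' _ _ σ σ' d φ hd hφ hx
  choose b hb using fun i => hx (bs C n i 1)
  refine ⟨AddMonoidHom.mk' (fun v : Ch C n => ∑ i, ac σ (v.1 i) (b i)) (fun v w => ?_), fun g v => ?_, fun v => ?_⟩
  · rw [← Finset.sum_add_distrib]
    exact Finset.sum_congr rfl fun i _ => ac_add σ _ _ _
  · show ∑ i, ac σ (MonoidAlgebra.single g 1 * v.1 i) (b i) = σ g (∑ i, ac σ (v.1 i) (b i))
    rw [map_sum]
    refine Finset.sum_congr rfl fun i _ => ?_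
    rw [ac_mul, ac_single, one_smul]
  · show d (∑ i, ac σ (v.1 i) (b i)) = φ v
    rw [map_sum]
    have h1 : φ v = ∑ i, φ (bs C n i (v.1 i)) := by
      rw [← map_sum]
      exact congrArg φ (sum_bs C n v).symm
    rw [h1]
    refine Finset.sum_congr rfl fun i _ => ?_
    rw [ac_d σ σ' d hd, hb, bs_ac C n σ' φ hφ i (v.1 i)]

/-- the boundary -/
def chD (n : ℕ) : Ch C (n + 1) →+ Ch C n where
  toFun v := ⟨C.bd v.1, bd_IsCh C n v.2⟩
  map_zero' := Subtype.ext (Matrix.zero_vecMul _)
  map_add' _ _ := Subtype.ext (Matrix.add_vecMul _ _ _)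

/-- the augmentation -/
def chE : Ch C 0 →+ ℤ where
  toFun v := ep C v.1
  map_zero' := Finset.sum_eq_zero fun _ _ => map_zero _
  map_add' v w := by
    show ∑ i, au G (v.1 i + w.1 i) = _
    simp only [map_add, Finset.sum_add_distrib]
    rfl

end Pool.Agent.H831.Sg
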