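import Pool.Agent.H831.Sg2

/-!
# The complexes of group ring matrices as resolutions, part 2
-/

set_option autoImplicit false

open scoped Matrix

noncomputable section

namespace Pool.Agent.H831.Sg

open Function Pool.Agent.N496.LT.Lt Pool.Agent.H831.Res Pool.Agent.H831.Kun

variable {G : Type} [Group G] (C : BCx G)

/-- the modules of the resolution -/
def AA : ℕ → Type
  | 0 => ℤ
  | n + 1 => Ch C n

instance instAA : ∀ n, AddCommGroup (AA C n)
  | 0 => inferInstanceAs (AddCommGroup ℤ)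
  | n + 1 => inferInstanceAs (AddCommGroup (Ch C n))

/-- the action -/
def rr : ∀ n, G →* AddMonoid.End (AA C n)
  | 0 => 1
  | n + 1 => chR C n

/-- the boundaries -/
def dd : ∀ n, AA C (n + 1) →+ AA C n
  | 0 => chE C
  | n + 1 => chD C n

theorem bd_smul (g : G) (v : C.ι → MonoidAlgebra ℤ G) :
    C.bd (fun i => MonoidAlgebra.single g 1 * v i) = fun i => MonoidAlgebra.single g 1 * C.bd v i := by
  funext j
  show ∑ i, MonoidAlgebra.single g 1 * v i * C.D i j = MonoidAlgebra.single g 1 * ∑ i, v i * C.D i j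
  rw [Finset.mul_sum]
  exact Finset.sum_congr rfl fun i _ => mul_assoc _ _ _

/-- **The resolution.** -/
def resC (hC : IsRes C) : Rs G where
  A := AA C
  ρ := rr C
  d := dd C
  eqv
    | 0, g, v => by
      show ∑ i, au G (MonoidAlgebra.single g 1 * v.1 i) = ∑ i, au G (v.1 i)
      refine Finset.sum_congr rfl fun i _ => ?_
      rw [map_mul, PRES.aug_single, one_mul]
    | n + 1, g, v => Subtype.ext (bd_smul C g v.1)
  dd
    | 0, v => ep_bd C hC v.2
    | n + 1, v => Subtype.ext (bd_bd v.1)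
  ex0 a := by
    obtain ⟨v, hv, hv'⟩ := hC.surj
    have h1 : chE C (⟨v, hv⟩ : Ch C 0) = 1 := hv'
    refine ⟨(show ℤ from a) • (⟨v, hv⟩ : Ch C 0), ?_⟩
    show chE C ((show ℤ from a) • (⟨v, hv⟩ : Ch C 0)) = a
    rw [map_zsmul, h1]
    exact (zsmul_one (show ℤ from a)).trans (Int.cast_id)
  ex
    | 0, v, h => by
      obtain ⟨u, hu, hu'⟩ := (hC.zero v.1 v.2).2 h
      exact ⟨(⟨u, hu⟩ : Ch C 1), Subtype.ext hu'⟩
    | n + 1, v, h => by
      obtain ⟨u, hu, hu'⟩ := hC.exact n v.1 v.2 (congrArg Subtype.val h)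
      exact ⟨(⟨u, hu⟩ : Ch C (n + 2)), Subtype.ext hu'⟩
  lf n := ch_lf C n

variable (K : Subgroup G) [K.Normal]

/-- the reduction -/
abbrev mk : MonoidAlgebra ℤ G →+* MonoidAlgebra ℤ (G ⧸ K) :=
  MonoidAlgebra.mapDomainRingHom ℤ (QuotientGroup.mk' K)

theorem mk_surj : Surjective (mk K) := by
  intro x
  induction x using MonoidAlgebra.induction_linear with
  | zero => exact ⟨0, map_zero _⟩
  | add x y hx hy =>
    obtain ⟨a, rfl⟩ := hx
    obtain ⟨b, rfl⟩ := hy
    exact ⟨a + b, map_add _ _ _⟩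
  | single g r =>
    obtain ⟨g, rfl⟩ := QuotientGroup.mk'_surjective K g
    exact ⟨MonoidAlgebra.single g r, MonoidAlgebra.mapDomain_single⟩

/-- the reduction of chains -/
def qp (n : ℕ) : Ch C n →+ Ch (C.quot K) n where
  toFun v := ⟨fun i => mk K (v.1 i), fun i hi => by
    show mk K (v.1 i) = 0
    rw [v.2 i hi, map_zero]⟩
  map_zero' := Subtype.ext (funext fun _ => map_zero _)
  map_add' _ _ := Subtype.ext (funext fun _ => map_add _ _ _)

theorem qp_ker (n : ℕ) (v : Ch C n) (h : qp C K n v = 0) : v ∈ J (chR C n) K := by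
  have h1 : v = ∑ i, bs C n i (v.1 i) := (sum_bs C n v).symm
  rw [h1]
  refine sum_mem fun i _ => ?_
  have h2 : mk K (v.1 i) = 0 := congrFun (congrArg Subtype.val h) i
  have h3 : (v.1 i).coeff.mapDomain (QuotientGroup.mk' K) = 0 := congrArg MonoidAlgebra.coeff h2
  have h4 := ker_J (chR C n) K (QuotientGroup.mk' K) (fun a b hab => by
    refine ⟨b * a⁻¹, ?_, ?_⟩
    · have h5 : a⁻¹ * b ∈ K := QuotientGroup.eq.1 hab
      have h6 := ‹K.Normal›.conj_mem _ h5 a
      rwa [mul_inv_cancel_left] at h6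
    · show b = b * a⁻¹ * a
      rw [inv_mul_cancel_right]) (fun g => bs C n i (MonoidAlgebra.single g 1)) (fun g a => by
    show bs C n i (MonoidAlgebra.single (g * a) 1) = chR C n g (bs C n i (MonoidAlgebra.single a 1))
    rw [bs_act, MonoidAlgebra.single_mul_single, mul_one]) _ h3
  refine (congrArg (· ∈ J (chR C n) K) ?_).mp h4
  show (((v.1 i)).coeff.sum fun a r => r • bsA C n i (MonoidAlgebra.single a 1)) = bsA C n i (v.1 i)
  conv_rhs => rw [← MonoidAlgebra.sum_coeff_single (v.1 i), Finsupp.sum, map_sum]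
  refine Finset.sum_congr rfl fun a _ => ?_
  show (v.1 i).coeff a • bsA C n i (MonoidAlgebra.single a 1) = _
  rw [← map_zsmul, MonoidAlgebra.smul_single, smul_eq_mul, mul_one]

theorem mk_k {k : G} (hk : k ∈ K) : mk K (MonoidAlgebra.single k 1) = 1 := by
  have h2 : mk K (MonoidAlgebra.single k (1 : ℤ)) = MonoidAlgebra.single (QuotientGroup.mk' K k) 1 :=
    MonoidAlgebra.mapDomain_single
  have h3 : QuotientGroup.mk' K k = 1 := (QuotientGroup.eq_one_iff k).2 hk
  rw [h2, h3]
  rfl

/-- **The quotient complex.** -/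
def quotC (hC : IsRes C) : Qd (resC C hC) K where
  B n := Ch (C.quot K) n
  p n := qp C K n
  surj n w := by
    choose f hf using fun i => mk_surj K (w.1 i)
    classical
    refine ⟨(⟨fun i => if C.deg i = n then f i else 0, fun i hi => if_neg hi⟩ : Ch C n), Subtype.ext (funext fun i => ?_)⟩
    show mk K (if C.deg i = n then f i else 0) = w.1 i
    split_ifs with h
    · exact hf i
    · rw [map_zero, w.2 i h]
  ker n v h := qp_ker C K n v h
  inv n k hk v := by
    refine Subtype.ext (funext fun i => ?_)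
    show mk K (MonoidAlgebra.single k 1 * (v : Ch C n).1 i) = mk K ((v : Ch C n).1 i)
    rw [map_mul, mk_k K hk, one_mul]
  d n := chD (C.quot K) n
  comm n v := by
    refine Subtype.ext (funext fun j => ?_)
    show ∑ i, mk K ((v : Ch C (n + 1)).1 i) * mk K (C.D i j) = mk K (∑ i, (v : Ch C (n + 1)).1 i * C.D i j)
    rw [map_sum]
    exact Finset.sum_congr rfl fun i _ => (map_mul _ _ _).symm

end Pool.Agent.H831.Sg
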