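import Pool.Agent.H831.Sg3

/-!
# Singular chains: comparison with Mathlib's singular chain complex, and free actions
-/

set_option autoImplicit false

open CategoryTheory AlgebraicTopology Simplicial Limits

noncomputable section

namespace Pool.Agent.H831.Sg

/-- the coefficients -/
abbrev ZZ : ModuleCat.{0} ℤ := ModuleCat.of ℤ ℤ

/-- maps from `ℤ` are elements -/
def homZ (M : ModuleCat.{0} ℤ) : (ZZ ⟶ M) ≃ M where
  toFun := fun f => f.hom (1 : ℤ)
  invFun := fun m => ModuleCat.ofHom (LinearMap.toSpanSingleton ℤ M m)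
  left_inv := fun f => by
    refine ModuleCat.hom_ext (LinearMap.ext_ring ?_)
    exact LinearMap.toSpanSingleton_apply_one ℤ M _
  right_inv := fun m => LinearMap.toSpanSingleton_apply_one ℤ M m

/-- maps from `ℤ` are elements -/
def isoForget : coyoneda.obj (Opposite.op ZZ) ≅ forget (ModuleCat.{0} ℤ) :=
  NatIso.ofComponents (fun M => Equiv.toIso (homZ M))
    (fun {M N} f => by
      ext g
      rfl)

/-- coproducts of copies of `ℤ` are free modules -/
def isoFree : sigmaConst.obj ZZ ≅ ModuleCat.free ℤ :=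
  ((conjugateIsoEquiv (sigmaConstAdj ZZ) (ModuleCat.adj ℤ)).symm isoForget).symm

/-- the chain complex -/
def Fc : SSet.{0} ⥤ ChainComplex (ModuleCat.{0} ℤ) ℕ :=
  (SimplicialObject.whiskering _ _).obj (ModuleCat.free ℤ) ⋙ alternatingFaceMapComplex _

/-- comparison with Mathlib's -/
def isoF : (SSet.chainComplexFunctor (ModuleCat.{0} ℤ)).obj ZZ ≅ Fc :=
  Functor.isoWhiskerRight ((SimplicialObject.whiskering _ _).mapIso isoFree) (alternatingFaceMapComplex _)

/-- comparison with Mathlib's -/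
def isoS : (singularChainComplexFunctor (ModuleCat.{0} ℤ)).obj ZZ ≅ TopCat.toSSet.{0} ⋙ Fc :=
  Functor.isoWhiskerLeft TopCat.toSSet.{0} isoF

variable (T : SSet.{0}) (n : ℕ)

/-- the chains -/
abbrev Cn : Type := T _⦋n⦌ →₀ ℤ

/-- the boundary -/
def bdr : Cn T (n + 1) →+ Cn T n := ((Fc.obj T).d (n + 1) n).hom.toAddMonoidHom

theorem bdr_bdr (x : Cn T (n + 2)) : bdr T n (bdr T (n + 1) x) = 0 := by
  have h := (Fc.obj T).d_comp_d (n + 2) (n + 1) n
  exact congrArg (fun f => f.hom x) h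

/-- the map of chains -/
def mp {T T' : SSet.{0}} (f : T ⟶ T') (n : ℕ) : Cn T n →+ Cn T' n := ((Fc.map f).f n).hom.toAddMonoidHom

theorem mp_bdr {T T' : SSet.{0}} (f : T ⟶ T') (n : ℕ) (x : Cn T (n + 1)) :
    bdr T' n (mp f (n + 1) x) = mp f n (bdr T n x) := by
  have h := (Fc.map f).comm (n + 1) n
  exact congrArg (fun f => f.hom x) h

theorem mp_eq {T T' : SSet.{0}} (f : T ⟶ T') (n : ℕ) (x : Cn T n) :
    mp f n x = x.mapDomain (f.app (Opposite.op ⦋n⦌)) := rfl

theorem bdr_eq (x : Cn T (n + 1)) :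
    bdr T n x = ∑ i : Fin (n + 2), (-1 : ℤ) ^ (i : ℕ) • x.mapDomain (T.δ i) := by
  have h : (Fc.obj T).d (n + 1) n = ∑ i : Fin (n + 2), (-1 : ℤ) ^ (i : ℕ) •
    (((SimplicialObject.whiskering _ _).obj (ModuleCat.free ℤ)).obj T).δ i := AlternatingFaceMapComplex.obj_d_eq _ n
  unfold bdr
  rw [h]
  show (∑ i : Fin (n + 2), (-1 : ℤ) ^ (i : ℕ) •
    (((SimplicialObject.whiskering _ _).obj (ModuleCat.free ℤ)).obj T).δ i).hom x = _
  rw [ModuleCat.hom_sum]
  exact (LinearMap.sum_apply _ _ _).trans rfl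

/-- the augmentation -/
def epT : Cn T 0 →+ ℤ := Finsupp.liftAddHom fun _ => AddMonoidHom.id ℤ

theorem epT_single (x : T _⦋0⦌) (r : ℤ) : epT T (Finsupp.single x r) = r := Finsupp.liftAddHom_apply_single _ _ _

theorem epT_map {T T' : SSet.{0}} (f : T _⦋0⦌ → T' _⦋0⦌) (x : Cn T 0) : epT T' (x.mapDomain f) = epT T x := by
  induction x using Finsupp.induction_linear with
  | zero => rw [Finsupp.mapDomain_zero, map_zero, map_zero]
  | add x y hx hy => rw [Finsupp.mapDomain_add, map_add, map_add, hx, hy]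
  | single a r => rw [Finsupp.mapDomain_single, epT_single, epT_single]

theorem epT_bdr (x : Cn T 1) : epT T (bdr T 0 x) = 0 := by
  rw [bdr_eq, Fin.sum_univ_two, map_add, map_zsmul, map_zsmul]
  have h : ∀ f : T _⦋1⦌ → T _⦋0⦌, epT T (x.mapDomain f) = x.sum fun _ r => r := by
    classical
    intro f
    induction x using Finsupp.induction_linear with
    | zero => rw [Finsupp.mapDomain_zero, map_zero, Finsupp.sum_zero_index]
    | add x y hx hy =>
      rw [Finsupp.mapDomain_add, map_add, hx, hy, Finsupp.sum_add_index (fun _ _ => rfl) (fun _ _ _ _ => rfl)]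
    | single a r => rw [Finsupp.mapDomain_single, epT_single, Finsupp.sum_single_index rfl]
  rw [h, h]
  simp

/-! ### Free actions -/

variable {G : Type} [Group G]

theorem perm_lf {α : Type} (sm : G → α → α) (h1 : ∀ x, sm 1 x = x) (hm : ∀ g h x, sm (g * h) x = sm g (sm h x))
    (hf : ∀ g x, sm g x = x → g = 1) (ρ : G →* AddMonoid.End (α →₀ ℤ))
    (hρ : ∀ g x r, ρ g (Finsupp.single x r) = Finsupp.single (sm g x) r) : Lf ρ := by
  intro B B' _ _ σ σ' d φ hd hφ hx
  let S : Setoid α :=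
  { r := fun x y => ∃ g, sm g x = y
    iseqv := ⟨fun x => ⟨1, h1 x⟩, fun {x y} ⟨g, hg⟩ => ⟨g⁻¹, by rw [← hg, ← hm, inv_mul_cancel, h1]⟩,
      fun {x y z} ⟨g, hg⟩ ⟨h, hh⟩ => ⟨h * g, by rw [hm, hg, hh]⟩⟩ }
  let rep : α → α := fun x => (Quotient.mk S x).out
  have hrep : ∀ x, ∃ g, sm g (rep x) = x := fun x => Quotient.exact (s := S) (Quotient.out_eq (Quotient.mk S x))
  have hrep' : ∀ g x, rep (sm g x) = rep x := fun g x => by
    show (Quotient.mk S (sm g x)).out = (Quotient.mk S x).out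
    congr 1
    exact Quotient.sound (s := S) ⟨g⁻¹, by rw [← hm, inv_mul_cancel, h1]⟩
  choose γ hγ using hrep
  have hγ' : ∀ g x, γ (sm g x) = g * γ x := by
    intro g x
    have h3 := hγ (sm g x)
    rw [hrep'] at h3
    have h4 : sm (g * γ x)⁻¹ (sm (γ (sm g x)) (rep x)) = rep x := by
      have h35 : sm g x = sm (g * γ x) (rep x) := by rw [hm, hγ]
      rw [h3, h35, ← hm, inv_mul_cancel, h1]
    rw [← hm] at h4
    have h5 := hf _ _ h4
    rw [inv_mul_eq_one] at h5
    exact h5.symm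
  choose b hb using fun x => hx (Finsupp.single x 1)
  let ψ : (α →₀ ℤ) →+ B := Finsupp.liftAddHom fun x => AddMonoidHom.mk' (fun r : ℤ => r • σ (γ x) (b (rep x)))
    fun r r' => add_smul r r' _
  have hψ : ∀ x r, ψ (Finsupp.single x r) = r • σ (γ x) (b (rep x)) := fun x r =>
    Finsupp.liftAddHom_apply_single _ _ _
  refine ⟨ψ, fun g a => ?_, fun a => ?_⟩
  · induction a using Finsupp.induction_linear with
    | zero => simp only [map_zero]
    | add x y hx hy => rw [map_add, map_add, map_add, map_add, hx, hy]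
    | single x r =>
      rw [hρ, hψ, hψ, map_zsmul, hγ', hrep', map_mul]
      rfl
  · induction a using Finsupp.induction_linear with
    | zero => rw [map_zero, map_zero, map_zero]
    | add x y hx hy => rw [map_add, map_add, map_add, hx, hy]
    | single x r =>
      rw [hψ, map_zsmul, hd, hb, ← hφ, hρ, hγ, ← map_zsmul, Finsupp.smul_single, smul_eq_mul, mul_one]

end Pool.Agent.H831.Sg
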