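import Pool.Agent.H831.Sg4

/-!
# Singular chains, part 2: contractible spaces, coverings
-/

set_option autoImplicit false

open CategoryTheory AlgebraicTopology Simplicial Limits

noncomputable section

namespace Pool.Agent.H831.Sg

/-- the singular simplicial set -/
abbrev TS (X : Type) [TopologicalSpace X] : SSet.{0} := TopCat.toSSet.obj (TopCat.of X)

/-- exactness for the complex `Fc`, in elementary terms -/
theorem exact_el {T : SSet.{0}} (n : ℕ) (h : (Fc.obj T).ExactAt (n + 1)) (x : Cn T (n + 1)) (hx : bdr T n x = 0) :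
    ∃ y, bdr T (n + 1) y = x := by
  rw [HomologicalComplex.exactAt_iff' _ (n + 2) (n + 1) n (by simp) (by simp)] at h
  rw [ShortComplex.moduleCat_exact_iff] at h
  exact h x hx

theorem exact_pt (n : ℕ) : (Fc.obj (TS PUnit.{1})).ExactAt (n + 1) := by
  have h := singularChainComplexFunctor_exactAt_of_totallyDisconnectedSpace (ModuleCat.{0} ℤ) (n + 1) ZZ
    (TopCat.of PUnit.{1}) (Nat.succ_ne_zero n)
  exact h.of_iso (isoS.app (TopCat.of PUnit.{1}))

/-- homotopic maps -/
def homot {X Y : TopCat.{0}} {f g : X ⟶ Y} (H : TopCat.Homotopy f g) :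
    _root_.Homotopy (Fc.map (TopCat.toSSet.map f)) (Fc.map (TopCat.toSSet.map g)) := by
  have h := H.singularChainComplexFunctorObjMap ZZ
  have h1 := (h.compRight (isoS.hom.app Y)).compLeft (isoS.inv.app X)
  refine ((Homotopy.ofEq ?_).trans h1).trans (Homotopy.ofEq ?_)
  · have := isoS.hom.naturality f
    rw [this, Iso.inv_hom_id_app_assoc]
    rfl
  · have := isoS.hom.naturality g
    rw [this, Iso.inv_hom_id_app_assoc]
    rfl

/-- homotopic maps, in elementary terms -/
theorem homot_el {X Y : TopCat.{0}} {f g : X ⟶ Y} (H : TopCat.Homotopy f g) :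
    ∃ h : ∀ n, Cn (TopCat.toSSet.obj X) n →+ Cn (TopCat.toSSet.obj Y) (n + 1),
      (∀ x, mp (TopCat.toSSet.map f) 0 x = bdr _ 0 (h 0 x) + mp (TopCat.toSSet.map g) 0 x) ∧
      ∀ n x, mp (TopCat.toSSet.map f) (n + 1) x = h n (bdr _ n x) + bdr _ (n + 1) (h (n + 1) x) +
        mp (TopCat.toSSet.map g) (n + 1) x := by
  let k := homot H
  refine ⟨fun n => (k.hom n (n + 1)).hom.toAddMonoidHom, fun x => ?_, fun n x => ?_⟩
  · have h1 := k.comm 0
    rw [Homotopy.dNext_zero_chainComplex, Homotopy.prevD_chainComplex, zero_add] at h1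
    exact congrArg (fun f => f.hom x) h1
  · have h1 := k.comm (n + 1)
    rw [Homotopy.dNext_succ_chainComplex, Homotopy.prevD_chainComplex] at h1
    exact congrArg (fun f => f.hom x) h1

theorem mp_id (T : SSet.{0}) (n : ℕ) (x : Cn T n) : mp (𝟙 T) n x = x := by
  unfold mp
  rw [Fc.map_id]
  rfl

theorem mp_comp {T T' T'' : SSet.{0}} (f : T ⟶ T') (g : T' ⟶ T'') (n : ℕ) (x : Cn T n) :
    mp (f ≫ g) n x = mp g n (mp f n x) := by
  unfold mp
  rw [Fc.map_comp]
  rfl

instance subs_pt (n : SimplexCategoryᵒᵖ) : Subsingleton ((TS PUnit.{1}).obj n) :=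
  ((TopCat.of PUnit.{1}).toSSetObjEquiv n).injective.subsingleton

/-- the singular chain complex of a contractible space is exact -/
theorem contr_exact (X : Type) [TopologicalSpace X] [ContractibleSpace X] :
    (∀ x : Cn (TS X) 0, epT _ x = 0 → ∃ y, bdr _ 0 y = x) ∧
      (∀ n x, bdr (TS X) n x = 0 → ∃ y, bdr (TS X) (n + 1) y = x) ∧ Nonempty ((TS X) _⦋0⦌) := by
  obtain ⟨y0, ⟨H⟩⟩ := id_nullhomotopic X
  let p : TopCat.of X ⟶ TopCat.of PUnit.{1} := TopCat.ofHom (ContinuousMap.const X PUnit.unit)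
  let i : TopCat.of PUnit.{1} ⟶ TopCat.of X := TopCat.ofHom (ContinuousMap.const PUnit y0)
  have H' : TopCat.Homotopy (𝟙 (TopCat.of X)) (p ≫ i) := H
  obtain ⟨h, h0, h1⟩ := homot_el H'
  have hp : ∀ n x, mp (TopCat.toSSet.map (p ≫ i)) n x = mp (TopCat.toSSet.map i) n (mp (TopCat.toSSet.map p) n x) := by
    intro n x
    rw [TopCat.toSSet.map_comp, mp_comp]
  have hid : ∀ n (x : Cn (TS X) n), mp (TopCat.toSSet.map (𝟙 (TopCat.of X))) n x = x := by
    intro n x
    rw [TopCat.toSSet.map_id, mp_id]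
  refine ⟨fun x hx => ⟨h 0 x, ?_⟩, fun n x hx => ?_, ?_⟩
  · have h2 := h0 x
    rw [hid, hp] at h2
    have h3 : mp (TopCat.toSSet.map p) 0 x = 0 := by
      have h4 : epT (TS PUnit.{1}) (mp (TopCat.toSSet.map p) 0 x) = 0 := (epT_map _ x).trans hx
      have : Subsingleton ((TS PUnit.{1}) _⦋0⦌) := subs_pt _
      ext a
      have h5 : mp (TopCat.toSSet.map p) 0 x = Finsupp.single a (mp (TopCat.toSSet.map p) 0 x a) := by
        ext b
        rw [Subsingleton.elim b a, Finsupp.single_eq_same]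
      rw [h5, epT_single] at h4
      exact h4
    rw [h3, map_zero, add_zero] at h2
    exact h2.symm
  · have h2 := h1 n x
    rw [hid, hp, hx, map_zero, zero_add] at h2
    obtain ⟨z, hz⟩ := exact_el n (exact_pt n) (mp (TopCat.toSSet.map p) (n + 1) x) (by
      rw [mp_bdr, hx, map_zero])
    refine ⟨h (n + 1) x + mp (TopCat.toSSet.map i) (n + 2) z, ?_⟩
    rw [map_add, mp_bdr, hz]
    exact h2.symm
  · exact ⟨((TopCat.of X).toSSetObjEquiv _).symm (ContinuousMap.const _ y0)⟩

theorem lift_contr {A E X : Type} [TopologicalSpace A] [TopologicalSpace E] [TopologicalSpace X] [ContractibleSpace A]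
    {p : E → X} (cov : IsCoveringMap p) (hs : Function.Surjective p) (f : C(A, X)) :
    ∃ g : C(A, E), ∀ a, p (g a) = f a := by
  obtain ⟨a0, ⟨H⟩⟩ := id_nullhomotopic A
  obtain ⟨e0, he0⟩ := hs (f a0)
  let F := H.symm
  let L := cov.liftHomotopy (f.comp F.toContinuousMap) (ContinuousMap.const A e0) (fun a => by
    show f (F (0, a)) = p e0
    rw [he0, F.apply_zero]
    rfl)
  refine ⟨⟨fun a => L (1, a), L.continuous.comp (by fun_prop)⟩, fun a => ?_⟩
  have h := congrFun (cov.liftHomotopy_lifts (f.comp F.toContinuousMap) (ContinuousMap.const A e0) (fun a => by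
    show f (F (0, a)) = p e0
    rw [he0, F.apply_zero]
    rfl)) (1, a)
  refine h.trans ?_
  show f (F (1, a)) = f a
  rw [F.apply_one]
  rfl

instance contr_simplex (n : SimplexCategory) : ContractibleSpace (SimplexCategory.toTop.{0}.obj n) := by
  have h1 : ContractibleSpace (stdSimplex ℝ (Fin (n.len + 1))) :=
    (convex_stdSimplex ℝ (Fin (n.len + 1))).contractibleSpace ⟨_, (inferInstance : Nonempty (stdSimplex ℝ (Fin (n.len + 1)))).some.2⟩
  have h2 : ContractibleSpace (SimplexCategory.toTop₀.obj n) := h1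
  exact Homeomorph.ulift.contractibleSpace

/-! ### The resolution of the singular chains -/

section act

variable {G X : Type} [Group G] [TopologicalSpace X] [MulAction G X] [ContinuousConstSMul G X]

/-- the action -/
def ag (g : G) : TopCat.of X ⟶ TopCat.of X := TopCat.ofHom ⟨fun x => g • x, continuous_const_smul g⟩

theorem ag_one : ag (X := X) (1 : G) = 𝟙 _ := by
  ext x
  exact one_smul G x

theorem ag_mul (g h : G) : ag (X := X) (g * h) = ag h ≫ ag g := by
  ext x
  exact mul_smul g h x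

/-- the action on the simplices -/
def sm (n : ℕ) (g : G) (x : (TS X) _⦋n⦌) : (TS X) _⦋n⦌ := (TopCat.toSSet.map (ag g)).app _ x

theorem sm_one (n : ℕ) (x : (TS X) _⦋n⦌) : sm n (1 : G) x = x := by
  unfold sm
  rw [ag_one, TopCat.toSSet.map_id]
  rfl

theorem sm_mul (n : ℕ) (g h : G) (x : (TS X) _⦋n⦌) : sm n (g * h) x = sm n g (sm n h x) := by
  unfold sm
  rw [ag_mul, TopCat.toSSet.map_comp]
  rfl

/-- the action on the chains -/
def rs (n : ℕ) : G →* AddMonoid.End (Cn (TS X) n) where
  toFun g := mp (TopCat.toSSet.map (ag g)) n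
  map_one' := by
    rw [ag_one, TopCat.toSSet.map_id]
    exact AddMonoidHom.ext fun x => mp_id _ n x
  map_mul' g h := by
    rw [ag_mul, TopCat.toSSet.map_comp]
    exact AddMonoidHom.ext fun x => mp_comp _ _ n x

theorem rs_single (n : ℕ) (g : G) (x : (TS X) _⦋n⦌) (r : ℤ) :
    rs n g (Finsupp.single x r) = Finsupp.single (sm n g x) r := by
  show mp _ n _ = _
  rw [mp_eq, Finsupp.mapDomain_single]
  rfl

end act

end Pool.Agent.H831.Sg
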