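import Pool.Agent.H831.Sg5

/-!
# Singular chains, part 3: the resolution and its quotients
-/

set_option autoImplicit false

open CategoryTheory AlgebraicTopology Limits

noncomputable section

namespace Pool.Agent.H831.Sg

/-- the simplices -/
abbrev Sx (T : SSet.{0}) (n : ℕ) : Type := T.obj (Opposite.op (SimplexCategory.mk n))

/-- the topological simplex -/
abbrev Δt (n : ℕ) : TopCat.{0} := SimplexCategory.toTop.{0}.obj (SimplexCategory.mk n)

/-- the continuous map of a singular simplex -/
def dn {X : Type} [TopologicalSpace X] {n : ℕ} (x : Sx (TS X) n) : Δt n ⟶ TopCat.of X := x.down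

theorem dn_ext {X : Type} [TopologicalSpace X] {n : ℕ} {x y : Sx (TS X) n} (h : dn x = dn y) : x = y :=
  ULift.ext _ _ h

theorem dn_map {X Y : Type} [TopologicalSpace X] [TopologicalSpace Y] (f : TopCat.of X ⟶ TopCat.of Y) {n : ℕ}
    (x : Sx (TS X) n) : dn (X := Y) ((TopCat.toSSet.map f).app _ x) = dn x ≫ f := rfl

variable {G X M : Type} [Group G] [TopologicalSpace X] [TopologicalSpace M] [MulAction G X]

/-- the modules -/
def AS (X : Type) [TopologicalSpace X] : ℕ → Type
  | 0 => ℤ
  | n + 1 => Cn (TS X) n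

instance instAS (X : Type) [TopologicalSpace X] : ∀ n, AddCommGroup (AS X n)
  | 0 => inferInstanceAs (AddCommGroup ℤ)
  | n + 1 => inferInstanceAs (AddCommGroup (Cn (TS X) n))

section res

variable [ContinuousConstSMul G X]

/-- the action -/
def rS (G X : Type) [Group G] [TopologicalSpace X] [MulAction G X] [ContinuousConstSMul G X] :
    ∀ n, G →* AddMonoid.End (AS X n)
  | 0 => 1
  | n + 1 => rs n

/-- the boundary -/
def dS (X : Type) [TopologicalSpace X] : ∀ n, AS X (n + 1) →+ AS X n
  | 0 => epT (TS X)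
  | n + 1 => bdr (TS X) n

theorem sm_free (hf : ∀ (g : G) (x : X), g • x = x → g = 1) (n : ℕ) (g : G) (x : Sx (TS X) n) (h : sm n g x = x) :
    g = 1 := by
  obtain ⟨a⟩ : Nonempty (Δt n) := inferInstance
  have h1 : dn x ≫ ag g = dn x := congrArg dn h
  have h2 : g • (dn x a : X) = dn x a := congrArg (fun f : Δt n ⟶ TopCat.of X => f a) h1
  exact hf g _ h2

/-- **The singular chain complex of a contractible space with a free action is a resolution.** -/
def resS [ContractibleSpace X] (hf : ∀ (g : G) (x : X), g • x = x → g = 1) : Rs G where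
  A := AS X
  ρ := rS G X
  d := dS X
  eqv
    | 0, _, v => epT_map _ v
    | n + 1, _, v => mp_bdr _ n v
  dd
    | 0, v => epT_bdr _ v
    | n + 1, v => bdr_bdr _ n v
  ex0 a := by
    obtain ⟨x⟩ := (contr_exact X).2.2
    exact ⟨(Finsupp.single x a : Cn (TS X) 0), epT_single _ x a⟩
  ex
    | 0, v, h => (contr_exact X).1 v h
    | n + 1, v, h => (contr_exact X).2.1 n v h
  lf n := perm_lf (sm n) (sm_one n) (sm_mul n) (sm_free hf n) (rs n) (rs_single n)

end res

/-! ### The quotient -/

variable (K : Subgroup G)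

/-- the quotient space -/
abbrev XK (X : Type) [MulAction G X] : Type := MulAction.orbitRel.Quotient K X

/-- the projection -/
def pK (x : X) : XK K X := Quotient.mk (MulAction.orbitRel K X) x

theorem cov_K {π : X → M} (h : IsQuotientCoveringMap π G) : IsQuotientCoveringMap (pK K : X → XK K X) K where
  toIsQuotientMap := isQuotientMap_quot_mk
  toContinuousConstSMul := ⟨fun k => by
    have := h.toContinuousConstSMul
    exact continuous_const_smul (k : G)⟩
  apply_eq_iff_mem_orbit := Quotient.eq (r := MulAction.orbitRel K X)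
  disjoint e := by
    obtain ⟨U, hU, hU'⟩ := h.disjoint e
    refine ⟨U, hU, fun k hk => ?_⟩
    have h1 := hU' (k : G) hk
    exact Subtype.ext h1

omit [TopologicalSpace M] in
theorem pK_cont : Continuous (pK K : X → XK K X) := continuous_quot_mk

/-- the projection -/
def pM (X : Type) [TopologicalSpace X] [MulAction G X] : TopCat.of X ⟶ TopCat.of (XK K X) :=
  TopCat.ofHom ⟨pK K, pK_cont K⟩

/-- the projection of simplices -/
def ps (n : ℕ) (x : Sx (TS X) n) : Sx (TS (XK K X)) n := (TopCat.toSSet.map (pM K X)).app _ x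

theorem ps_surj {π : X → M} (h : IsQuotientCoveringMap π G) (n : ℕ) : Function.Surjective (ps K (X := X) n) := by
  intro y
  have hc := cov_K K h
  obtain ⟨g, hg⟩ := lift_contr (A := Δt n) hc.isCoveringMap hc.surjective (dn y).hom
  refine ⟨⟨TopCat.ofHom g⟩, ?_⟩
  apply dn_ext
  ext a
  exact hg a

theorem ps_eq {π : X → M} (h : IsQuotientCoveringMap π G) [ContinuousConstSMul G X] (n : ℕ) (x y : Sx (TS X) n)
    (hxy : ps K n x = ps K n y) : ∃ k ∈ K, y = sm n k x := by
  have hc := cov_K K h
  obtain ⟨a⟩ : Nonempty (Δt n) := inferInstance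
  have h1 : dn x ≫ pM K X = dn y ≫ pM K X := congrArg dn hxy
  have h2 : ∀ a, pK K (dn x a : X) = pK K (dn y a : X) := fun a =>
    congrArg (fun f : Δt n ⟶ TopCat.of (XK K X) => f a) h1
  obtain ⟨k, hk⟩ := hc.apply_eq_iff_mem_orbit.1 (h2 a).symm
  refine ⟨k, k.2, ?_⟩
  apply dn_ext
  have h3 : (fun b => (dn y b : X)) = fun b => (k : G) • (dn x b : X) := by
    refine hc.isCoveringMap.eq_of_comp_eq (dn y).hom.continuous
      ((continuous_const_smul (k : G)).comp (dn x).hom.continuous) ?_ a hk.symm
    funext b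
    refine (h2 b).symm.trans (hc.apply_eq_iff_mem_orbit.2 ⟨k⁻¹, ?_⟩)
    show (k : G)⁻¹ • ((k : G) • (dn x b : X)) = dn x b
    rw [inv_smul_smul]
  ext b
  exact congrFun h3 b

/-- **The quotient complex: the singular chains of `X / K`.** -/
def quotS [ContractibleSpace X] [ContinuousConstSMul G X] (hf : ∀ (g : G) (x : X), g • x = x → g = 1) {π : X → M}
    (h : IsQuotientCoveringMap π G) : Qd (resS hf) K where
  B n := Cn (TS (XK K X)) n
  p n := mp (TopCat.toSSet.map (pM K X)) n
  surj n y := by
    show ∃ x : Cn (TS X) n, mp (TopCat.toSSet.map (pM K X)) n x = y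
    induction y using Finsupp.induction_linear with
    | zero => exact ⟨0, map_zero _⟩
    | add a b ha hb =>
      obtain ⟨x, rfl⟩ := ha
      obtain ⟨y, rfl⟩ := hb
      exact ⟨x + y, map_add _ _ _⟩
    | single a r =>
      obtain ⟨x, rfl⟩ := ps_surj K h n a
      refine ⟨Finsupp.single x r, ?_⟩
      rw [mp_eq, Finsupp.mapDomain_single]
      rfl
  ker n x hx := by
    let _ : MulAction G (Sx (TS X) n) :=
    { smul := sm n
      one_smul := sm_one n
      mul_smul := sm_mul n }
    have h1 := ker_J (rs n) K (ps K n) (fun a b hab => ps_eq K h n a b hab)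
      (fun a : Sx (TS X) n => (Finsupp.single a 1 : Cn (TS X) n)) (fun g a => (rs_single n g a 1).symm) x hx
    refine (congrArg (· ∈ J (rs n) K) ?_).mp h1
    have h2 : ∀ (c : Cn (TS X) n), (c.sum fun a r => r • (Finsupp.single a 1 : Cn (TS X) n)) = c := by
      intro c
      conv_rhs => rw [← Finsupp.sum_single c]
      refine Finsupp.sum_congr fun a _ => ?_
      rw [Finsupp.smul_single, smul_eq_mul, mul_one]
    exact h2 x
  inv n k hk v := by
    show mp (TopCat.toSSet.map (pM K X)) n (mp (TopCat.toSSet.map (ag k)) n v) = mp (TopCat.toSSet.map (pM K X)) n v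
    rw [← mp_comp, ← TopCat.toSSet.map_comp]
    have h1 : ag k ≫ pM K X = pM K X := by
      ext x
      exact Quotient.sound (s := MulAction.orbitRel K X) ⟨⟨k, hk⟩, rfl⟩
    rw [h1]
  d n := bdr (TS (XK K X)) n
  comm n v := mp_bdr _ n v

end Pool.Agent.H831.Sg
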